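import Mathlib
import Pool.Agent.H19.Verify

/-!
The fair coin measure on infinite binary sequences.
-/

set_option autoImplicit false

namespace Pool.Agent.AEI

open MeasureTheory Pool.Agent.H19
open scoped ENNReal

/-- The fair coin measure. -/
noncomputable def coin : Measure (ℕ → Bool) :=
  Measure.infinitePi fun _ : ℕ => (PMF.uniformOfFintype Bool).toMeasure

instance : IsProbabilityMeasure coin := by unfold coin; infer_instance

theorem fair_singleton (b : Bool) : (PMF.uniformOfFintype Bool).toMeasure {b} = 2⁻¹ := by
  rw [PMF.toMeasure_apply_singleton _ _ (measurableSet_singleton b)]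
  simp

theorem cyl_eq (s : ℕ) (σ : List Bool) (h : σ.length = s) : {X : ℕ → Bool | pre X s = σ} =
    Set.pi (Finset.range s : Set ℕ) (fun n => {σ.getD n false}) := by
  ext X
  simp only [Set.mem_ofPred_eq, Set.mem_pi, Finset.coe_range, Set.mem_Iio, Set.mem_singleton_iff]
  constructor
  · intro hX n hn
    rw [← hX, pre_getD X hn]
  · intro hX
    apply List.ext_getElem?
    intro n
    by_cases hn : n < s
    · rw [pre_getElem? X hn, hX n hn, List.getD_eq_getElem?_getD,
        List.getElem?_eq_getElem (by omega)]
      rfl
    · rw [List.getElem?_eq_none, List.getElem?_eq_none]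
      · omega
      · rw [pre_length]; omega

theorem measurableSet_cyl (s : ℕ) (σ : List Bool) : MeasurableSet {X : ℕ → Bool | pre X s = σ} := by
  by_cases h : σ.length = s
  · rw [cyl_eq s σ h]
    exact MeasurableSet.pi (Finset.countable_toSet _) fun _ _ => measurableSet_singleton _
  · convert MeasurableSet.empty
    ext X
    simp only [Set.mem_ofPred_eq, Set.mem_empty_iff_false, iff_false]
    intro hX
    apply h
    rw [← hX, pre_length]

theorem coin_cyl (s : ℕ) (σ : List Bool) (h : σ.length = s) :
    coin {X : ℕ → Bool | pre X s = σ} = 2⁻¹ ^ s := by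
  rw [cyl_eq s σ h, coin, Measure.infinitePi_pi]
  · simp
  · exact fun _ _ => measurableSet_singleton _

theorem nodup_strs (s : ℕ) : (strs s).Nodup := by
  induction s with
  | zero => simp [strs]
  | succ s ih =>
    rw [strs, List.nodup_flatMap]
    refine ⟨fun σ _ => by simp, ih.imp ?_⟩
    intro σ τ hne
    simp only [Function.onFun, List.disjoint_cons_left, List.mem_cons, List.not_mem_nil, or_false,
      List.disjoint_nil_left, and_true]
    constructor
    · rintro (h | h)
      · exact hne (List.append_cancel_right h)
      · have := List.append_inj_right' h rfl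
        simp at this
    · rintro (h | h)
      · have := List.append_inj_right' h rfl
        simp at this
      · exact hne (List.append_cancel_right h)

theorem strs_length (s : ℕ) : (strs s).length = 2 ^ s := by
  induction s with
  | zero => simp [strs]
  | succ s ih =>
    rw [strs, List.length_flatMap]
    simp [ih, pow_succ]

theorem pre_set_eq (p : List Bool → Bool) (s : ℕ) : {X : ℕ → Bool | p (pre X s) = true} =
    ⋃ σ ∈ ((strs s).filter p).toFinset, {X : ℕ → Bool | pre X s = σ} := by
  ext X
  simp only [Set.mem_ofPred_eq, Set.mem_iUnion, List.mem_toFinset, List.mem_filter, mem_strs,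
    exists_prop]
  constructor
  · intro h
    exact ⟨pre X s, ⟨pre_length X s, h⟩, rfl⟩
  · rintro ⟨σ, ⟨-, h⟩, rfl⟩
    exact h

theorem measurableSet_pre (p : List Bool → Bool) (s : ℕ) :
    MeasurableSet {X : ℕ → Bool | p (pre X s) = true} := by
  rw [pre_set_eq]
  exact Finset.measurableSet_biUnion _ fun σ _ => measurableSet_cyl s σ

/-- The measure of a set of sequences given by their initial segments of length `s`. -/
theorem coin_count (p : List Bool → Bool) (s : ℕ) :
    coin {X : ℕ → Bool | p (pre X s) = true} = ((strs s).filter p).length * 2⁻¹ ^ s := by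
  rw [pre_set_eq, measure_biUnion_finset]
  · rw [Finset.sum_congr rfl fun σ hσ => coin_cyl s σ ?_]
    · rw [Finset.sum_const, nsmul_eq_mul, List.toFinset_card_of_nodup ((nodup_strs s).filter p)]
    · rw [List.mem_toFinset, List.mem_filter, mem_strs] at hσ
      exact hσ.1
  · intro σ _ τ _ hne
    rw [Function.onFun, Set.disjoint_left]
    intro X h1 h2
    exact hne (h1.symm.trans h2)
  · exact fun σ _ => measurableSet_cyl s σ

/-- Comparison with a power of two. -/
theorem coin_le_iff (p : List Bool → Bool) (s m : ℕ) :
    coin {X : ℕ → Bool | p (pre X s) = true} ≤ 2⁻¹ ^ m ↔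
      ¬ (strs s).length < (strs m).length * ((strs s).filter p).length := by
  rw [coin_count, strs_length, strs_length, not_lt]
  have h2 : (2 : ℝ≥0∞) ^ s ≠ 0 := by positivity
  have h3 : (2 : ℝ≥0∞) ^ s ≠ ⊤ := ENNReal.pow_ne_top (by simp)
  have h4 : (2 : ℝ≥0∞) ^ m ≠ 0 := by positivity
  have h5 : (2 : ℝ≥0∞) ^ m ≠ ⊤ := ENNReal.pow_ne_top (by simp)
  rw [← ENNReal.inv_pow, ← ENNReal.inv_pow, ← div_eq_mul_inv,
    ENNReal.div_le_iff h2 h3, mul_comm, ← div_eq_mul_inv, ENNReal.le_div_iff_mul_le (Or.inl h4)
    (Or.inl h5), mul_comm]
  constructor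
  · intro h
    exact_mod_cast h
  · intro h
    exact_mod_cast h

end Pool.Agent.AEI
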