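import Mathlib
import Pool.Agent.H19.Op

/-!
Histories of priority constructions. An item is a natural number; the entry of a history at a
stage is one plus the item which acts at that stage, or zero.
-/

set_option autoImplicit false

namespace Pool.Agent.AEI

open Encodable Nat.Partrec Pool.Agent.H19

/-- The least item not exceeding the length of the history which requires attention, plus one. -/
def choice (att : ℕ → List ℕ → List Bool → Bool) (H : List ℕ) (σ : List Bool) : ℕ :=
  (List.range (H.length + 1)).foldl
    (fun a t => if decide (a = 0) && att t H σ then t + 1 else a) 0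

section fold

variable (p : ℕ → Bool)

theorem fold_choice (n : ℕ) :
    (∃ t, t < n ∧ p t = true ∧ (∀ t' < t, p t' = false) ∧
      (List.range n).foldl (fun a t => if decide (a = 0) && p t then t + 1 else a) 0 = t + 1) ∨
    ((∀ t < n, p t = false) ∧
      (List.range n).foldl (fun a t => if decide (a = 0) && p t then t + 1 else a) 0 = 0) := by
  induction n with
  | zero => right; simp
  | succ n ih =>
    rw [List.range_succ, List.foldl_append]
    simp only [List.foldl_cons, List.foldl_nil]
    rcases ih with ⟨t, ht, hp, hlt, he⟩ | ⟨h0, he⟩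
    · left
      refine ⟨t, ht.trans (Nat.lt_succ_self n), hp, hlt, ?_⟩
      rw [he]; simp
    · rw [he]
      cases hpn : p n
      · right
        refine ⟨fun t ht => ?_, by simp⟩
        rcases Nat.lt_succ_iff_lt_or_eq.1 ht with ht | rfl
        · exact h0 t ht
        · exact hpn
      · left
        exact ⟨n, Nat.lt_succ_self n, hpn, h0, by simp⟩

end fold

variable {att : ℕ → List ℕ → List Bool → Bool}

theorem choice_eq_succ {H : List ℕ} {σ : List Bool} {t : ℕ} :
    choice att H σ = t + 1 ↔ t ≤ H.length ∧ att t H σ = true ∧ ∀ t' < t, att t' H σ = false := by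
  rcases fold_choice (fun t => att t H σ) (H.length + 1) with ⟨u, hu, hp, hlt, he⟩ | ⟨h0, he⟩
  · have he' : choice att H σ = u + 1 := he
    rw [he']
    constructor
    · intro h
      have : u = t := by omega
      subst this
      exact ⟨Nat.lt_succ_iff.1 hu, hp, hlt⟩
    · rintro ⟨h1, h2, h3⟩
      rcases lt_trichotomy u t with h | h | h
      · have := h3 u h; rw [hp] at this; exact absurd this (by simp)
      · rw [h]
      · have := hlt t h; rw [h2] at this; exact absurd this (by simp)
  · have he' : choice att H σ = 0 := he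
    rw [he']
    constructor
    · intro h; omega
    · rintro ⟨h1, h2, -⟩
      have := h0 t (Nat.lt_succ_iff.2 h1)
      rw [h2] at this; exact absurd this (by simp)

/-- Some item acts if some item requires attention. -/
theorem choice_pos {H : List ℕ} {σ : List Bool} {t : ℕ} (ht : t ≤ H.length)
    (ha : att t H σ = true) : ∃ u ≤ t, choice att H σ = u + 1 := by
  rcases fold_choice (fun t => att t H σ) (H.length + 1) with ⟨u, hu, hp, hlt, he⟩ | ⟨h0, he⟩
  · refine ⟨u, ?_, he⟩
    by_contra h
    have := hlt t (not_le.1 h); rw [ha] at this; exact absurd this (by simp)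
  · have := h0 t (Nat.lt_succ_iff.2 ht)
    rw [ha] at this; exact absurd this (by simp)

theorem comp_choice {α : Type*} [Primcodable α] {A : α → ℕ → List ℕ → List Bool → Bool}
    (hA : Computable (fun x : α × (ℕ × (List ℕ × List Bool)) => A x.1 x.2.1 x.2.2.1 x.2.2.2))
    {H : α → List ℕ} {σ : α → List Bool} (hH : Computable H) (hσ : Computable σ) :
    Computable fun a => choice (A a) (H a) (σ a) := by
  have h1 : Computable₂ (fun (a : α) (p : ℕ × ℕ) =>
      if decide (p.1 = 0) && A a p.2 (H a) (σ a) then p.2 + 1 else p.1) := by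
    refine comp_ite (c := fun x : α × (ℕ × ℕ) =>
      decide (x.2.1 = 0) && A x.1 x.2.2 (H x.1) (σ x.1)) ?_ ?_ ?_
    · refine comp_and (comp_decEq (Computable.fst.comp Computable.snd) (Computable.const 0)) ?_
      exact hA.comp (Computable.pair Computable.fst (Computable.pair
        (Computable.snd.comp Computable.snd)
        (Computable.pair (hH.comp Computable.fst) (hσ.comp Computable.fst))))
    · exact Computable.succ.comp (Computable.snd.comp Computable.snd)
    · exact Computable.fst.comp Computable.snd
  exact comp_list_foldl (comp_range (Computable.succ.comp (Computable.list_length.comp hH)))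
    (Computable.const 0) h1

/-- The history along the input `σ` after `n` stages. -/
def hstn (att : ℕ → List ℕ → List Bool → Bool) (σ : List Bool) : ℕ → List ℕ
  | 0 => []
  | n + 1 => hstn att σ n ++ [choice att (hstn att σ n) (σ.take n)]

/-- The history along the input `σ`. -/
def hst (att : ℕ → List ℕ → List Bool → Bool) (σ : List Bool) : List ℕ := hstn att σ σ.length

theorem hsn_congr {σ τ : List Bool} {n : ℕ} (h : ∀ m < n, σ.take m = τ.take m) :
    hstn att σ n = hstn att τ n := by
  induction n with
  | zero => rfl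
  | succ n ih =>
    rw [hstn, hstn, ih fun m hm => h m (hm.trans (Nat.lt_succ_self n)), h n (Nat.lt_succ_self n)]

theorem hst_pre_succ (X : ℕ → Bool) (s : ℕ) :
    hst att (pre X (s + 1)) = hst att (pre X s) ++ [choice att (hst att (pre X s)) (pre X s)] := by
  have h1 : hstn att (pre X (s + 1)) s = hstn att (pre X s) s := by
    refine hsn_congr fun m hm => ?_
    rw [pre_take X (hm.le.trans (Nat.le_succ s)), pre_take X hm.le]
  rw [hst, pre_length, hstn, h1, hst, pre_length, pre_take X (Nat.le_succ s)]

theorem comp_hst {α : Type*} [Primcodable α] {A : α → ℕ → List ℕ → List Bool → Bool}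
    (hA : Computable (fun x : α × (ℕ × (List ℕ × List Bool)) => A x.1 x.2.1 x.2.2.1 x.2.2.2))
    {σ : α → List Bool} (hσ : Computable σ) :
    Computable fun a => hst (A a) (σ a) := by
  have h := Computable.nat_rec (f := fun a => (σ a).length) (g := fun _ : α => ([] : List ℕ))
    (h := fun a p => p.2 ++ [choice (A a) p.2 ((σ a).take p.1)]) (Computable.list_length.comp hσ)
    (Computable.const []) ?_
  · refine h.of_eq fun a => ?_
    show Nat.rec [] (fun y IH => IH ++ [choice (A a) IH ((σ a).take y)]) (σ a).length =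
      hst (A a) (σ a)
    rw [hst]
    induction (σ a).length with
    | zero => rfl
    | succ n ih => rw [hstn, ← ih]
  · refine Computable.list_append.comp (Computable.snd.comp Computable.snd) ?_
    refine Computable.list_cons.comp ?_ (Computable.const [])
    refine comp_choice (α := α × (ℕ × List ℕ)) (A := fun x => A x.1)
      (H := fun x => x.2.2) (σ := fun x => (σ x.1).take x.2.1) ?_ ?_ ?_
    · exact hA.comp (Computable.pair (Computable.fst.comp Computable.fst) Computable.snd)
    · exact Computable.snd.comp Computable.snd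
    · exact comp_take (Computable.fst.comp Computable.snd) (hσ.comp Computable.fst)

/-- The entry at stage `s` along `X`. -/
def ac (att : ℕ → List ℕ → List Bool → Bool) (X : ℕ → Bool) (s : ℕ) : ℕ :=
  choice att (hst att (pre X s)) (pre X s)

theorem hst_pre (X : ℕ → Bool) (s : ℕ) : hst att (pre X s) = (List.range s).map (ac att X) := by
  induction s with
  | zero => rfl
  | succ s ih => rw [hst_pre_succ, List.range_succ, List.map_append, List.map_singleton, ← ih]; rfl

@[simp] theorem hst_pre_length (X : ℕ → Bool) (s : ℕ) : (hst att (pre X s)).length = s := by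
  simp [hst_pre]

theorem hst_pre_take (X : ℕ → Bool) {r s : ℕ} (h : r ≤ s) :
    (hst att (pre X s)).take r = hst att (pre X r) := by
  rw [hst_pre, hst_pre, ← List.map_take, List.take_range, min_eq_left h]

theorem hst_pre_getD (X : ℕ → Bool) {r s : ℕ} (h : r < s) :
    (hst att (pre X s)).getD r 0 = ac att X r := by
  rw [hst_pre, List.getD_eq_getElem?_getD]
  simp [h]

/-! ### Restart time and number of actions since the restart -/

/-- One step of the computation of the restart time and of the number of actions since then. -/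
def stp (t : ℕ) (q : ℕ × ℕ × ℕ) (a : ℕ) : ℕ × ℕ × ℕ :=
  (q.1 + 1,
    if decide (1 ≤ a) && decide (a ≤ t) then (q.1 + 1, 0)
    else if decide (a = t + 1) then (q.2.1, q.2.2 + 1) else q.2)

/-- Restart time of the item `t` and number of its actions since then. -/
def rc (t : ℕ) (H : List ℕ) : ℕ × ℕ := (H.foldl (stp t) (0, 0, 0)).2

theorem foldl_stp_fst (t : ℕ) (H : List ℕ) : (H.foldl (stp t) (0, 0, 0)).1 = H.length := by
  have : ∀ (l : List ℕ) (q : ℕ × ℕ × ℕ), (l.foldl (stp t) q).1 = q.1 + l.length := by
    intro l
    induction l with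
    | nil => intro q; simp
    | cons a l ih => intro q; rw [List.foldl_cons, ih]; simp [stp]; omega
  simpa using this H (0, 0, 0)

theorem rc_append (t : ℕ) (H : List ℕ) (a : ℕ) : rc t (H ++ [a]) =
    if 1 ≤ a ∧ a ≤ t then (H.length + 1, 0)
    else if a = t + 1 then ((rc t H).1, (rc t H).2 + 1) else rc t H := by
  rw [rc, List.foldl_append, List.foldl_cons, List.foldl_nil, stp, foldl_stp_fst]
  by_cases h1 : 1 ≤ a ∧ a ≤ t
  · simp [h1]
  · by_cases h2 : a = t + 1
    · simp [h2, rc]
    · have : ¬ (decide (1 ≤ a) && decide (a ≤ t)) = true := by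
        simpa using h1
      simp only [this, h1, h2, if_false, decide_false, Bool.false_eq_true, rc]

theorem comp_rc {α : Type*} [Primcodable α] {t : α → ℕ} {H : α → List ℕ}
    (ht : Computable t) (hH : Computable H) : Computable fun a => rc (t a) (H a) := by
  have h1 : Computable₂ (fun (a : α) (p : (ℕ × ℕ × ℕ) × ℕ) => stp (t a) p.1 p.2) := by
    have hq : Computable (fun x : α × ((ℕ × ℕ × ℕ) × ℕ) => x.2.1) :=
      Computable.fst.comp Computable.snd
    have ha : Computable (fun x : α × ((ℕ × ℕ × ℕ) × ℕ) => x.2.2) :=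
      Computable.snd.comp Computable.snd
    have hq1 := Computable.fst.comp hq
    have hq2 := Computable.snd.comp hq
    refine Computable.pair (Computable.succ.comp hq1) ?_
    refine comp_ite (c := fun x : α × ((ℕ × ℕ × ℕ) × ℕ) =>
      decide (1 ≤ x.2.2) && decide (x.2.2 ≤ t x.1))
      (comp_and (comp_decLe (Computable.const 1) ha) (comp_decLe ha (ht.comp Computable.fst)))
      (Computable.pair (Computable.succ.comp hq1) (Computable.const 0)) ?_
    exact comp_ite (c := fun x : α × ((ℕ × ℕ × ℕ) × ℕ) => decide (x.2.2 = t x.1 + 1))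
      (comp_decEq ha (Computable.succ.comp (ht.comp Computable.fst)))
      (Computable.pair (Computable.fst.comp hq2)
        (Computable.succ.comp (Computable.snd.comp hq2))) hq2
  exact Computable.snd.comp (comp_list_foldl hH (Computable.const (0, 0, 0)) h1)

/-- Restart time along `X`. -/
def Rt (att : ℕ → List ℕ → List Bool → Bool) (X : ℕ → Bool) (t s : ℕ) : ℕ :=
  (rc t (hst att (pre X s))).1

/-- Number of actions since the restart along `X`. -/
def Ct (att : ℕ → List ℕ → List Bool → Bool) (X : ℕ → Bool) (t s : ℕ) : ℕ :=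
  (rc t (hst att (pre X s))).2

theorem rc_eq (X : ℕ → Bool) (t s : ℕ) :
    rc t (hst att (pre X s)) = (Rt att X t s, Ct att X t s) := rfl

theorem rc_succ (X : ℕ → Bool) (t s : ℕ) : rc t (hst att (pre X (s + 1))) =
    if 1 ≤ ac att X s ∧ ac att X s ≤ t then (s + 1, 0)
    else if ac att X s = t + 1 then (Rt att X t s, Ct att X t s + 1)
    else (Rt att X t s, Ct att X t s) := by
  rw [hst_pre_succ, rc_append, hst_pre_length]
  rfl

/-- No item of index smaller than `t` acts after stage `s0`. -/
def Quiet (att : ℕ → List ℕ → List Bool → Bool) (X : ℕ → Bool) (t s0 : ℕ) : Prop :=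
  ∀ s ≥ s0, ¬ (1 ≤ ac att X s ∧ ac att X s ≤ t)

/-- The item `t` acts finitely often. -/
def FinAct (att : ℕ → List ℕ → List Bool → Bool) (X : ℕ → Bool) (t : ℕ) : Prop :=
  ∃ s0, ∀ s ≥ s0, ac att X s ≠ t + 1

theorem exists_quiet {X : ℕ → Bool} {t : ℕ} (h : ∀ t' < t, FinAct att X t') :
    ∃ s0, Quiet att X t s0 := by
  induction t with
  | zero => exact ⟨0, fun s _ hs => by omega⟩
  | succ t ih =>
    obtain ⟨s0, h0⟩ := ih fun t' ht' => h t' (ht'.trans (Nat.lt_succ_self t))
    obtain ⟨s1, h1⟩ := h t (Nat.lt_succ_self t)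
    refine ⟨max s0 s1, fun s hs hc => ?_⟩
    have h2 := h0 s ((le_max_left _ _).trans hs)
    have h3 := h1 s ((le_max_right _ _).trans hs)
    apply h2
    omega

theorem Quiet.mono {X : ℕ → Bool} {t s0 s1 : ℕ} (h : Quiet att X t s0) (hs : s0 ≤ s1) :
    Quiet att X t s1 := fun s h1 => h s (hs.trans h1)

theorem Quiet.Rt_eq {X : ℕ → Bool} {t s0 : ℕ} (h : Quiet att X t s0) {s : ℕ} (hs : s0 ≤ s) :
    Rt att X t s = Rt att X t s0 := by
  induction hs with
  | refl => rfl
  | @step s hs ih =>
    have h1 : Rt att X t (s + 1) = (rc t (hst att (pre X (s + 1)))).1 := rfl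
    rw [h1, rc_succ, if_neg (h s hs)]
    split_ifs
    · exact ih
    · exact ih

theorem Quiet.Ct_succ {X : ℕ → Bool} {t s0 : ℕ} (h : Quiet att X t s0) {s : ℕ} (hs : s0 ≤ s) :
    Ct att X t (s + 1) = if ac att X s = t + 1 then Ct att X t s + 1 else Ct att X t s := by
  have h1 : Ct att X t (s + 1) = (rc t (hst att (pre X (s + 1)))).2 := rfl
  rw [h1, rc_succ, if_neg (h s hs)]
  split_ifs <;> rfl

theorem Quiet.Ct_mono {X : ℕ → Bool} {t s0 : ℕ} (h : Quiet att X t s0) {r s : ℕ} (hr : s0 ≤ r)
    (hs : r ≤ s) : Ct att X t r ≤ Ct att X t s := by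
  induction hs with
  | refl => exact le_rfl
  | @step s hs ih =>
    rw [h.Ct_succ (hr.trans hs)]
    split_ifs <;> omega

/-- The numbers of actions are unbounded if the item acts infinitely often. -/
theorem Quiet.exists_Ct {X : ℕ → Bool} {t s0 : ℕ} (h : Quiet att X t s0)
    (hi : ¬ FinAct att X t) (n : ℕ) : ∃ s ≥ s0, n ≤ Ct att X t s := by
  induction n with
  | zero => exact ⟨s0, le_rfl, Nat.zero_le _⟩
  | succ n ih =>
    obtain ⟨s, hs, hn⟩ := ih
    have : ∃ r ≥ s, ac att X r = t + 1 := by
      by_contra hc
      push Not at hc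
      exact hi ⟨s, hc⟩
    obtain ⟨r, hr, hac⟩ := this
    refine ⟨r + 1, by omega, ?_⟩
    rw [h.Ct_succ (hs.trans hr), if_pos hac]
    exact Nat.succ_le_succ (hn.trans (h.Ct_mono hs hr))

theorem ac_att {X : ℕ → Bool} {t s : ℕ} (h : ac att X s = t + 1) :
    t ≤ s ∧ att t (hst att (pre X s)) (pre X s) = true ∧
      ∀ t' < t, att t' (hst att (pre X s)) (pre X s) = false := by
  have := choice_eq_succ.1 h
  rwa [hst_pre_length] at this

/-- An item which requires attention in a quiet period acts. -/
theorem Quiet.acts {X : ℕ → Bool} {t s0 : ℕ} (h : Quiet att X t s0) {s : ℕ} (hs : s0 ≤ s)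
    (hts : t ≤ s) (ha : att t (hst att (pre X s)) (pre X s) = true) : ac att X s = t + 1 := by
  obtain ⟨u, hu, he⟩ := choice_pos (att := att) (H := hst att (pre X s)) (σ := pre X s) (t := t)
    (by rw [hst_pre_length]; exact hts) ha
  have he' : ac att X s = u + 1 := he
  rcases hu.lt_or_eq with hu | rfl
  · exact absurd ⟨by omega, by omega⟩ (h s hs)
  · exact he'

/-- An item whose number of actions since the restart is bounded acts finitely often. -/
theorem finAct_of_bound {X : ℕ → Bool} {t s0 b : ℕ} (h : Quiet att X t s0)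
    (hb : ∀ s ≥ s0, att t (hst att (pre X s)) (pre X s) = true → Ct att X t s < b) :
    FinAct att X t := by
  by_contra hi
  obtain ⟨s, hs, hn⟩ := h.exists_Ct hi b
  have : ∃ r ≥ s, ac att X r = t + 1 := by
    by_contra hc
    push Not at hc
    exact hi ⟨s, hc⟩
  obtain ⟨r, hr, hac⟩ := this
  have h1 := hb r (hs.trans hr) (ac_att hac).2.1
  have h2 := h.Ct_mono hs hr
  omega

/-- The restart time is at most the stage. -/
theorem Rt_le (X : ℕ → Bool) (t s : ℕ) : Rt att X t s ≤ s := by
  induction s with
  | zero => exact Nat.zero_le _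
  | succ s ih =>
    have h1 : Rt att X t (s + 1) = (rc t (hst att (pre X (s + 1)))).1 := rfl
    rw [h1, rc_succ]
    split_ifs
    · exact le_rfl
    · exact ih.trans (Nat.le_succ s)
    · exact ih.trans (Nat.le_succ s)

theorem Rt_mono (X : ℕ → Bool) (t : ℕ) {r s : ℕ} (h : r ≤ s) : Rt att X t r ≤ Rt att X t s := by
  induction h with
  | refl => exact le_rfl
  | @step s hs ih =>
    have h1 : Rt att X t (s + 1) = (rc t (hst att (pre X (s + 1)))).1 := rfl
    rw [h1, rc_succ]
    split_ifs
    · exact (Rt_le X t r).trans (le_trans hs (Nat.le_succ s))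
    · exact ih
    · exact ih

/-- After an action of the item `t` all later restart times of larger items are large. -/
theorem lt_Rt_of_ac {X : ℕ → Bool} {t t' r s : ℕ} (h : ac att X r = t + 1) (ht : t < t')
    (hrs : r < s) : r < Rt att X t' s := by
  have h1 : Rt att X t' (r + 1) = r + 1 := by
    have : Rt att X t' (r + 1) = (rc t' (hst att (pre X (r + 1)))).1 := rfl
    rw [this, rc_succ, if_pos ⟨by omega, by omega⟩]
  have h2 := Rt_mono (att := att) X t' (Nat.succ_le_of_lt hrs)
  rw [Nat.succ_eq_add_one, h1] at h2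
  omega

/-- No smaller item acts between two stages with equal restart times. -/
theorem quiet_of_Rt_eq {X : ℕ → Bool} {t r s r' : ℕ} (h : Rt att X t r = Rt att X t s)
    (h1 : r ≤ r') (h2 : r' < s) : ¬ (1 ≤ ac att X r' ∧ ac att X r' ≤ t) := by
  intro hc
  have h3 : Rt att X t (r' + 1) = r' + 1 := by
    have : Rt att X t (r' + 1) = (rc t (hst att (pre X (r' + 1)))).1 := rfl
    rw [this, rc_succ, if_pos hc]
  have h4 := Rt_mono (att := att) X t (Nat.succ_le_of_lt h2)
  rw [Nat.succ_eq_add_one, h3, ← h] at h4
  have h5 := Rt_le (att := att) X t r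
  omega

/-- The actions since the last restart. -/
theorem exists_act (X : ℕ → Bool) (t s : ℕ) : ∀ i < Ct att X t s, ∃ r < s,
    ac att X r = t + 1 ∧ Rt att X t r = Rt att X t s ∧ Ct att X t r = i := by
  induction s with
  | zero => intro i hi; exact absurd hi (Nat.not_lt_zero i)
  | succ s ih =>
    intro i hi
    have h1 : Rt att X t (s + 1) = (rc t (hst att (pre X (s + 1)))).1 := rfl
    have h2 : Ct att X t (s + 1) = (rc t (hst att (pre X (s + 1)))).2 := rfl
    rw [h1]
    rw [h2] at hi
    rw [rc_succ] at hi ⊢
    split_ifs at hi ⊢ with hc hd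
    · exact absurd hi (Nat.not_lt_zero i)
    · simp only at hi ⊢
      rcases Nat.lt_succ_iff_lt_or_eq.1 hi with hi | rfl
      · obtain ⟨r, hr, h3⟩ := ih i hi
        exact ⟨r, hr.trans (Nat.lt_succ_self s), h3⟩
      · exact ⟨s, Nat.lt_succ_self s, hd, rfl, rfl⟩
    · obtain ⟨r, hr, h3⟩ := ih i hi
      exact ⟨r, hr.trans (Nat.lt_succ_self s), h3⟩

/-- The count at an action is smaller than the later counts with the same restart time. -/
theorem Ct_lt_of_act {X : ℕ → Bool} {t r s : ℕ} (ha : ac att X r = t + 1) (hrs : r < s)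
    (h : Rt att X t r = Rt att X t s) : Ct att X t r < Ct att X t s := by
  have h1 : Ct att X t (r + 1) = Ct att X t r + 1 := by
    have : Ct att X t (r + 1) = (rc t (hst att (pre X (r + 1)))).2 := rfl
    rw [this, rc_succ, if_neg (quiet_of_Rt_eq h le_rfl hrs), if_pos ha]
  have h2 : ∀ u, r + 1 ≤ u → u ≤ s → Ct att X t (r + 1) ≤ Ct att X t u := by
    intro u hu
    induction hu with
    | refl => intro _; exact le_rfl
    | @step u hu ih =>
      intro hus
      have hu' : r + 1 ≤ u := hu
      have : Ct att X t (u + 1) = (rc t (hst att (pre X (u + 1)))).2 := rfl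
      rw [this, rc_succ, if_neg (quiet_of_Rt_eq h (by omega) (by omega))]
      have h3 := ih (by omega)
      split_ifs
      · exact h3.trans (Nat.le_succ _)
      · exact h3
  have h3 := h2 s (by omega) le_rfl
  omega

/-- The restart time is the stage or constant. -/
theorem Rt_eq_of_between {X : ℕ → Bool} {t r u s : ℕ} (h : Rt att X t r = Rt att X t s)
    (h1 : r ≤ u) (h2 : u ≤ s) : Rt att X t u = Rt att X t s :=
  le_antisymm (Rt_mono X t h2) (by rw [← h]; exact Rt_mono X t h1)

end Pool.Agent.AEI
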