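import Mathlib
import Pool.Agent.H19.Op

/-!
String functionals given by codes.
-/

set_option autoImplicit false

namespace Pool.Agent.AEI

open Encodable Nat.Partrec Pool.Agent.H19

/-- The functional with code `c` is seen to take the value `v` at `x` on some initial segment
of `σ`. -/
def hit (v : ℕ) (c : Code) (x : ℕ) (σ : List Bool) : Bool :=
  (List.range (σ.length + 1)).any fun k =>
    decide (Code.evaln σ.length c (encode (x, σ.take k)) = some v)

theorem hit_iff {v : ℕ} {c : Code} {x : ℕ} {σ : List Bool} : hit v c x σ = true ↔
    ∃ k ≤ σ.length, v ∈ Code.evaln σ.length c (encode (x, σ.take k)) := by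
  rw [hit, List.any_eq_true]
  simp only [List.mem_range, Nat.lt_succ_iff, decide_eq_true_eq, Option.mem_def]

theorem hit_mono {v : ℕ} {c : Code} {x : ℕ} {σ τ : List Bool} (h : σ <+: τ)
    (hc : hit v c x σ = true) : hit v c x τ = true := by
  obtain ⟨s, hs, hv⟩ := hit_iff.1 hc
  have hl := h.length_le
  refine hit_iff.2 ⟨s, hs.trans hl, ?_⟩
  have ht : τ.take s = σ.take s := by
    obtain ⟨u, rfl⟩ := h
    rw [List.take_append_of_le_length hs]
  rw [ht]
  exact Code.evaln_mono hl hv

theorem exists_hit {v : ℕ} {c : Code} {x : ℕ} {X : ℕ → Bool} :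
    (∃ s, v ∈ c.eval (encode (x, pre X s))) ↔ ∃ t, hit v c x (pre X t) = true := by
  constructor
  · rintro ⟨s, hv⟩
    obtain ⟨k, hk⟩ := Code.evaln_complete.1 hv
    refine ⟨max s k, hit_iff.2 ⟨s, ?_, ?_⟩⟩
    · rw [pre_length]; exact le_max_left _ _
    · rw [pre_length, pre_take X (le_max_left _ _)]
      exact Code.evaln_mono (le_max_right _ _) hk
  · rintro ⟨t, ht⟩
    obtain ⟨s, hs, hv⟩ := hit_iff.1 ht
    rw [pre_length] at hs
    rw [pre_take X hs] at hv
    exact ⟨s, Code.evaln_sound hv⟩

theorem comp_hit {α : Type*} [Primcodable α] {v : α → ℕ} {c : α → Code} {x : α → ℕ}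
    {σ : α → List Bool} (hv : Computable v)
    (hc : Computable c) (hx : Computable x) (hσ : Computable σ) :
    Computable fun a => hit (v a) (c a) (x a) (σ a) := by
  have hl : Computable fun a => (σ a).length := Computable.list_length.comp hσ
  refine comp_list_any (g := fun a k =>
    decide (Code.evaln (σ a).length (c a) (encode (x a, (σ a).take k)) = some (v a)))
    (comp_range (Computable.succ.comp hl)) ?_
  have h1 : Computable (fun y : α × ℕ => ((((σ y.1).length, c y.1) : ℕ × Code),
      encode (x y.1, (σ y.1).take y.2))) := by
    refine Computable.pair (Computable.pair (hl.comp Computable.fst) (hc.comp Computable.fst)) ?_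
    exact Computable.encode.comp (Computable.pair (hx.comp Computable.fst)
      (comp_take Computable.snd (hσ.comp Computable.fst)))
  exact comp_decEq ((Nat.Partrec.Code.primrec_evaln.to_comp).comp h1)
    (Computable.option_some.comp (hv.comp Computable.fst))

/-- One step of the string functional of `c`. -/
def zst (c : Code) (z σ : List Bool) : List Bool :=
  if hit 1 c z.length σ then z ++ [true]
  else if hit 0 c z.length σ then z ++ [false] else z

def zfn (c : Code) (σ : List Bool) : ℕ → List Bool
  | 0 => []
  | n + 1 => zst c (zfn c σ n) (σ.take n)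

/-- The string functional of `c`: an initial segment of the output on the input `σ`. -/
def zf (c : Code) (σ : List Bool) : List Bool := zfn c σ σ.length

theorem zfn_congr (c : Code) {σ τ : List Bool} {n : ℕ}
    (h : ∀ m < n, σ.take m = τ.take m) : zfn c σ n = zfn c τ n := by
  induction n with
  | zero => rfl
  | succ n ih =>
    rw [zfn, zfn, ih fun m hm => h m (hm.trans (Nat.lt_succ_self n)), h n (Nat.lt_succ_self n)]

theorem zf_pre_succ (c : Code) (X : ℕ → Bool) (s : ℕ) :
    zf c (pre X (s + 1)) = zst c (zf c (pre X s)) (pre X s) := by
  rw [zf, pre_length, zfn, pre_take X (Nat.le_succ s), zf, pre_length]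
  congr 1
  refine zfn_congr c fun m hm => ?_
  rw [pre_take X (hm.le.trans (Nat.le_succ s)), pre_take X hm.le]

@[simp] theorem zf_pre_zero (c : Code) (X : ℕ → Bool) : zf c (pre X 0) = [] := rfl

theorem prefix_zst (c : Code) (z σ : List Bool) : z <+: zst c z σ := by
  rw [zst]
  split_ifs
  · exact List.prefix_append _ _
  · exact List.prefix_append _ _
  · exact List.prefix_refl _

theorem zst_length_le (c : Code) (z σ : List Bool) : (zst c z σ).length ≤ z.length + 1 := by
  rw [zst]
  split_ifs <;> simp

theorem zf_pre_mono (c : Code) (X : ℕ → Bool) {s t : ℕ} (h : s ≤ t) :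
    zf c (pre X s) <+: zf c (pre X t) := by
  induction h with
  | refl => exact List.prefix_refl _
  | step _ ih => exact ih.trans (by rw [zf_pre_succ]; exact prefix_zst _ _ _)

theorem zf_pre_length_le (c : Code) (X : ℕ → Bool) (s : ℕ) : (zf c (pre X s)).length ≤ s := by
  induction s with
  | zero => simp
  | succ s ih =>
    rw [zf_pre_succ]
    exact (zst_length_le _ _ _).trans (Nat.succ_le_succ ih)

/-- Every string is the initial segment of a sequence. -/
theorem exists_pre (σ : List Bool) : ∃ X : ℕ → Bool, pre X σ.length = σ := by
  refine ⟨fun n => σ.getD n false, ?_⟩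
  apply List.ext_getElem?
  intro n
  by_cases hn : n < σ.length
  · rw [pre_getElem? _ hn, List.getD_eq_getElem?_getD, List.getElem?_eq_getElem hn]
    rfl
  · rw [List.getElem?_eq_none, List.getElem?_eq_none]
    · omega
    · rw [pre_length]; omega

theorem zf_mono (c : Code) {σ τ : List Bool} (h : σ <+: τ) : zf c σ <+: zf c τ := by
  obtain ⟨X, hX⟩ := exists_pre τ
  have h1 : σ <+: pre X τ.length := by rw [hX]; exact h
  obtain ⟨hl, h2⟩ := (prefix_pre_iff X).1 h1
  rw [h2, ← hX]
  exact zf_pre_mono c X hl

theorem zf_length_le (c : Code) (σ : List Bool) : (zf c σ).length ≤ σ.length := by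
  obtain ⟨X, hX⟩ := exists_pre σ
  have := zf_pre_length_le c X σ.length
  rwa [hX] at this

theorem comp_zf {α : Type*} [Primcodable α] {c : α → Code} {σ : α → List Bool}
    (hc : Computable c) (hσ : Computable σ) : Computable fun a => zf (c a) (σ a) := by
  have h := Computable.nat_rec (f := fun a => (σ a).length) (g := fun _ : α => ([] : List Bool))
    (h := fun a p => zst (c a) p.2 ((σ a).take p.1)) (Computable.list_length.comp hσ)
    (Computable.const []) ?_
  · refine h.of_eq fun a => ?_
    show Nat.rec [] (fun y IH => zst (c a) IH ((σ a).take y)) (σ a).length = zf (c a) (σ a)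
    rw [zf]
    induction (σ a).length with
    | zero => rfl
    | succ n ih => rw [zfn, ← ih]
  · have hz : Computable (fun x : α × (ℕ × List Bool) => x.2.2) :=
      Computable.snd.comp Computable.snd
    have ht : Computable (fun x : α × (ℕ × List Bool) => (σ x.1).take x.2.1) :=
      comp_take (Computable.fst.comp Computable.snd) (hσ.comp Computable.fst)
    have hl : Computable (fun x : α × (ℕ × List Bool) => x.2.2.length) :=
      Computable.list_length.comp hz
    refine comp_ite (c := fun x : α × (ℕ × List Bool) =>
      hit 1 (c x.1) x.2.2.length ((σ x.1).take x.2.1))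
      (comp_hit (Computable.const 1) (hc.comp Computable.fst) hl ht)
      (Computable.list_append.comp hz (Computable.const [true])) ?_
    exact comp_ite (c := fun x : α × (ℕ × List Bool) =>
      hit 0 (c x.1) x.2.2.length ((σ x.1).take x.2.1))
      (comp_hit (Computable.const 0) (hc.comp Computable.fst) hl ht)
      (Computable.list_append.comp hz (Computable.const [false])) hz

/-- If `c` computes `Z` from `X`, the strings `zf c (X|s)` exhaust `Z`. -/
theorem zf_of_computes {c : Code} {X Z : ℕ → Bool} (h : CodeComputes c X Z) :
    (∀ s, zf c (pre X s) = pre Z (zf c (pre X s)).length) ∧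
      ∀ n, ∃ s, n ≤ (zf c (pre X s)).length := by
  have hv : ∀ v x s, hit v c x (pre X s) = true → v = if Z x then 1 else 0 := by
    intro v x s hh
    obtain ⟨t, ht⟩ := exists_hit.2 ⟨s, hh⟩
    exact h.1 x t v ht
  have h1 : ∀ s, zf c (pre X s) = pre Z (zf c (pre X s)).length := by
    intro s
    induction s with
    | zero => rfl
    | succ s ih =>
      rw [zf_pre_succ]
      set z := zf c (pre X s) with hz
      rw [zst]
      split_ifs with ha hb
      · have := hv 1 _ _ ha
        have hZ : Z z.length = true := by
          cases hc : Z z.length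
          · rw [hc] at this; simp at this
          · rfl
        rw [List.length_append, List.length_singleton, Pool.Agent.H19.pre, List.range_succ,
          List.map_append]
        conv_lhs => rw [ih]
        rw [List.map_singleton, hZ, Pool.Agent.H19.pre]
      · have := hv 0 _ _ hb
        have hZ : Z z.length = false := by
          cases hc : Z z.length
          · rfl
          · rw [hc] at this; simp at this
        rw [List.length_append, List.length_singleton, Pool.Agent.H19.pre, List.range_succ,
          List.map_append]
        conv_lhs => rw [ih]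
        rw [List.map_singleton, hZ, Pool.Agent.H19.pre]
      · exact ih
  refine ⟨h1, fun n => ?_⟩
  induction n with
  | zero => exact ⟨0, Nat.zero_le _⟩
  | succ n ih =>
    obtain ⟨s, hs⟩ := ih
    rcases hs.lt_or_eq with hs | hs
    · exact ⟨s, hs⟩
    · obtain ⟨t, ht⟩ := exists_hit.1 (h.2 n)
      let u := max s t
      have hu : hit (if Z n then 1 else 0) c n (pre X u) = true :=
        hit_mono (pre_mono X (le_max_right s t)) ht
      have hlen : n ≤ (zf c (pre X u)).length := by
        rw [hs]; exact (zf_pre_mono c X (le_max_left s t)).length_le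
      rcases hlen.lt_or_eq with hl | hl
      · exact ⟨u, hl⟩
      · refine ⟨u + 1, ?_⟩
        rw [zf_pre_succ, zst, ← hl]
        cases hZ : Z n
        · rw [hZ] at hu
          simp only [Bool.false_eq_true, if_false] at hu
          split_ifs with ha
          · rw [List.length_append, ← hl]; simp
          · rw [List.length_append, ← hl]; simp
        · rw [hZ] at hu
          simp only [if_true] at hu
          rw [if_pos hu, List.length_append, ← hl]
          simp

/-- If the strings `zf c (X|s)` are unboundedly long, they exhaust a sequence recursive in `X`. -/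
theorem exists_of_zf {c : Code} {X : ℕ → Bool} (h : ∀ n, ∃ s, n ≤ (zf c (pre X s)).length) :
    ∃ Z : ℕ → Bool, (∀ s, zf c (pre X s) = pre Z (zf c (pre X s)).length) ∧
      TuringReducible (chi Z) (chi X) := by
  choose S hS using h
  let Z : ℕ → Bool := fun n => (zf c (pre X (S (n + 1)))).getD n false
  have hval : ∀ s n, n < (zf c (pre X s)).length → (zf c (pre X s))[n]? = some (Z n) := by
    intro s n hn
    have hn' : n < (zf c (pre X (S (n + 1)))).length := hS (n + 1)
    have hget : (zf c (pre X (S (n + 1))))[n]? = some (Z n) := by
      show _ = some ((zf c (pre X (S (n + 1)))).getD n false)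
      rw [List.getD_eq_getElem?_getD, List.getElem?_eq_getElem hn']; rfl
    rcases le_total s (S (n + 1)) with hle | hle
    · obtain ⟨u, hu⟩ := zf_pre_mono c X hle
      rw [← hu, List.getElem?_append_left hn] at hget
      exact hget
    · obtain ⟨u, hu⟩ := zf_pre_mono c X hle
      rw [← hu, List.getElem?_append_left hn']
      exact hget
  have hZ : ∀ s, zf c (pre X s) = pre Z (zf c (pre X s)).length := by
    intro s
    apply List.ext_getElem?
    intro n
    by_cases hn : n < (zf c (pre X s)).length
    · rw [pre_getElem? _ hn, hval s n hn]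
    · rw [List.getElem?_eq_none, List.getElem?_eq_none]
      · rw [pre_length]; omega
      · omega
  refine ⟨Z, hZ, ?_⟩
  have hp : Partrec₂ (fun (n : ℕ) (σ : List Bool) =>
      (((zf c σ)[n]?).map (fun b : Bool => if b then 1 else 0) : Option ℕ) : ℕ → List Bool → Part ℕ)
      := by
    have h1 : Computable₂ (fun (n : ℕ) (σ : List Bool) =>
        ((zf c σ)[n]?).map (fun b : Bool => if b then 1 else 0)) := by
      refine Computable.option_map (Computable.list_getElem?.comp
        (comp_zf (Computable.const c) Computable.snd) Computable.fst) ?_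
      exact comp_ite (c := fun p : (ℕ × List Bool) × Bool => p.2) Computable.snd
        (Computable.const 1) (Computable.const 0)
    exact Computable.ofOption h1
  obtain ⟨d, hd⟩ := exists_code_of_partrec₂ hp
  refine turingReducible_of_codeComputes (c := d) ⟨fun n s v hv => ?_, fun n => ?_⟩
  · rw [hd] at hv
    simp only [Part.mem_coe, Option.mem_def, Option.map_eq_some_iff] at hv
    obtain ⟨b, hb, rfl⟩ := hv
    have hn : n < (zf c (pre X s)).length := by
      rw [List.getElem?_eq_some_iff] at hb
      exact hb.1
    rw [hval s n hn] at hb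
    simp only [Option.some.injEq] at hb
    rw [hb]
  · refine ⟨S (n + 1), ?_⟩
    rw [hd, hval _ _ (hS (n + 1))]
    simp only [Option.map_some, Part.coe_some, Part.mem_some_iff]

end Pool.Agent.AEI
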