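import Mathlib
import Pool.Agent.AEI.SF
import Pool.Agent.AEI.PRI
import Pool.Agent.H19.Reduce
import Pool.Agent.H19.Post

/-!
Gluing of countably many enumeration operators. The items are of three kinds: `3 e` makes the
auxiliary set `C` different from the set computed by the code `e` from `W = X ⊕ B`, `3 e + 1`
makes `B` different from the set computed by `e` from `X`, and `3 k + 2` acts as long as the guard
`g k` grows; then it copies the set `v k` into `B`.
-/

set_option autoImplicit false

namespace Pool.Agent.AEI

open Encodable Nat.Partrec Pool.Agent.H19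

/-- The element with item `t`, restart time `R` and index `x`. -/
def elt (t R x : ℕ) : ℕ := Nat.pair t (Nat.pair R x)

theorem comp_elt {α : Type*} [Primcodable α] {t R x : α → ℕ} (ht : Computable t)
    (hR : Computable R) (hx : Computable x) : Computable fun a => elt (t a) (R a) (x a) :=
  comp_natpair ht (comp_natpair hR hx)

theorem elt_inj {t R x t' R' x' : ℕ} (h : elt t R x = elt t' R' x') :
    t = t' ∧ R = R' ∧ x = x' := by
  rw [elt, elt, Nat.pair_eq_pair, Nat.pair_eq_pair] at h
  exact h

theorem exists_elt (b : ℕ) : ∃ t R x, b = elt t R x :=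
  ⟨b.unpair.1, b.unpair.2.unpair.1, b.unpair.2.unpair.2, by simp [elt]⟩

theorem le_elt_R (t R x : ℕ) : R ≤ elt t R x :=
  (Nat.left_le_pair R x).trans (Nat.right_le_pair t _)

section

variable (g : ℕ → List Bool → ℕ) (v : ℕ → ℕ → List Bool → Bool)

/-- The entry at stage `r` puts the element `b` into `B`. -/
def putB (H : List ℕ) (σ : List Bool) (b r : ℕ) : Bool :=
  decide (H.getD r 0 = b.unpair.1 + 1) &&
    (decide ((rc b.unpair.1 (H.take r)).1 = b.unpair.2.unpair.1) &&
      ((decide (b.unpair.1 % 3 = 1) && decide (b.unpair.2.unpair.2 = 0)) ||
       (decide (b.unpair.1 % 3 = 2) && (decide (b.unpair.2.unpair.2 < r) &&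
          v (b.unpair.1 / 3) b.unpair.2.unpair.2 (σ.take r)))))

/-- The element `b` has been put into `B`. -/
def inB (H : List ℕ) (σ : List Bool) (b : ℕ) : Bool :=
  (List.range H.length).any fun r => putB v H σ b r

/-- The entry at stage `r` puts the element `b` into `C`. -/
def putC (H : List ℕ) (b r : ℕ) : Bool :=
  decide (H.getD r 0 = b.unpair.1 + 1) &&
    (decide ((rc b.unpair.1 (H.take r)).1 = b.unpair.2.unpair.1) &&
      (decide (b.unpair.1 % 3 = 0) && decide (b.unpair.2.unpair.2 = 0)))

/-- The element `b` has been put into `C`. -/
def inC (H : List ℕ) (b : ℕ) : Bool :=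
  (List.range H.length).any fun r => putC H b r

/-- The approximation to `X ⊕ B`. -/
def js (H : List ℕ) (σ : List Bool) : List Bool :=
  (List.range H.length).map fun m =>
    if decide (m % 2 = 0) then σ.getD (m / 2) false else inB v H σ (m / 2)

/-- The item `t` requires attention. -/
def att (t : ℕ) (H : List ℕ) (σ : List Bool) : Bool :=
  if decide (t % 3 = 0) then decide ((rc t H).2 = 0) &&
    hit 0 (Denumerable.ofNat Code (t / 3)) (elt t (rc t H).1 0) (js v H σ)
  else if decide (t % 3 = 1) then decide ((rc t H).2 = 0) &&
    hit 0 (Denumerable.ofNat Code (t / 3)) (elt t (rc t H).1 0) σ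
  else decide ((rc t H).2 < g (t / 3) σ)

end

section comp

variable {g : ℕ → List Bool → ℕ} {v : ℕ → ℕ → List Bool → Bool}
variable {α : Type*} [Primcodable α]

theorem comp_getD_nat {H : α → List ℕ} {r : α → ℕ} (hH : Computable H) (hr : Computable r) :
    Computable fun a => (H a).getD (r a) 0 := (Primrec.list_getD 0).to_comp.comp hH hr

theorem comp_putB (hv : Computable (fun x : ℕ × (ℕ × List Bool) => v x.1 x.2.1 x.2.2))
    {H : α → List ℕ} {σ : α → List Bool} {b r : α → ℕ}
    (hH : Computable H) (hσ : Computable σ) (hb : Computable b) (hr : Computable r) :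
    Computable fun a => putB v (H a) (σ a) (b a) (r a) := by
  have h1 : Computable fun a => (b a).unpair.1 := Computable.fst.comp (Computable.unpair.comp hb)
  have h2 : Computable fun a => (b a).unpair.2 := Computable.snd.comp (Computable.unpair.comp hb)
  have h3 : Computable fun a => (b a).unpair.2.unpair.1 :=
    Computable.fst.comp (Computable.unpair.comp h2)
  have h4 : Computable fun a => (b a).unpair.2.unpair.2 :=
    Computable.snd.comp (Computable.unpair.comp h2)
  have h5 : Computable fun a => (b a).unpair.1 % 3 := comp_mod h1 (Computable.const 3)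
  refine comp_and (comp_decEq (comp_getD_nat hH hr) (Computable.succ.comp h1)) ?_
  refine comp_and (comp_decEq (Computable.fst.comp (comp_rc h1 (comp_take hr hH))) h3) ?_
  refine comp_or (comp_and (comp_decEq h5 (Computable.const 1))
    (comp_decEq h4 (Computable.const 0))) ?_
  refine comp_and (comp_decEq h5 (Computable.const 2)) (comp_and (comp_decLt h4 hr) ?_)
  exact hv.comp (Computable.pair (comp_div h1 (Computable.const 3))
    (Computable.pair h4 (comp_take hr hσ)))

theorem comp_inB (hv : Computable (fun x : ℕ × (ℕ × List Bool) => v x.1 x.2.1 x.2.2))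
    {H : α → List ℕ} {σ : α → List Bool} {b : α → ℕ}
    (hH : Computable H) (hσ : Computable σ) (hb : Computable b) :
    Computable fun a => inB v (H a) (σ a) (b a) := by
  refine comp_list_any (g := fun a r => putB v (H a) (σ a) (b a) r)
    (comp_range (Computable.list_length.comp hH)) ?_
  exact comp_putB hv (hH.comp Computable.fst) (hσ.comp Computable.fst) (hb.comp Computable.fst)
    Computable.snd

theorem comp_putC {H : α → List ℕ} {b r : α → ℕ}
    (hH : Computable H) (hb : Computable b) (hr : Computable r) :
    Computable fun a => putC (H a) (b a) (r a) := by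
  have h1 : Computable fun a => (b a).unpair.1 := Computable.fst.comp (Computable.unpair.comp hb)
  have h2 : Computable fun a => (b a).unpair.2 := Computable.snd.comp (Computable.unpair.comp hb)
  have h3 : Computable fun a => (b a).unpair.2.unpair.1 :=
    Computable.fst.comp (Computable.unpair.comp h2)
  have h4 : Computable fun a => (b a).unpair.2.unpair.2 :=
    Computable.snd.comp (Computable.unpair.comp h2)
  have h5 : Computable fun a => (b a).unpair.1 % 3 := comp_mod h1 (Computable.const 3)
  refine comp_and (comp_decEq (comp_getD_nat hH hr) (Computable.succ.comp h1)) ?_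
  refine comp_and (comp_decEq (Computable.fst.comp (comp_rc h1 (comp_take hr hH))) h3) ?_
  exact comp_and (comp_decEq h5 (Computable.const 0)) (comp_decEq h4 (Computable.const 0))

theorem comp_inC {H : α → List ℕ} {b : α → ℕ}
    (hH : Computable H) (hb : Computable b) :
    Computable fun a => inC (H a) (b a) := by
  refine comp_list_any (g := fun a r => putC (H a) (b a) r)
    (comp_range (Computable.list_length.comp hH)) ?_
  exact comp_putC (hH.comp Computable.fst) (hb.comp Computable.fst) Computable.snd

theorem comp_js (hv : Computable (fun x : ℕ × (ℕ × List Bool) => v x.1 x.2.1 x.2.2))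
    {H : α → List ℕ} {σ : α → List Bool}
    (hH : Computable H) (hσ : Computable σ) :
    Computable fun a => js v (H a) (σ a) := by
  refine comp_list_map (g := fun a m =>
    if decide (m % 2 = 0) then (σ a).getD (m / 2) false else inB v (H a) (σ a) (m / 2))
    (comp_range (Computable.list_length.comp hH)) ?_
  have hd : Computable (fun x : α × ℕ => x.2 / 2) := comp_div Computable.snd (Computable.const 2)
  refine comp_ite (c := fun x : α × ℕ => decide (x.2 % 2 = 0))
    (comp_decEq (comp_mod Computable.snd (Computable.const 2)) (Computable.const 0)) ?_ ?_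
  · exact comp_getD (hσ.comp Computable.fst) hd
  · exact comp_inB hv (hH.comp Computable.fst) (hσ.comp Computable.fst) hd

theorem comp_att (hg : Computable₂ g)
    (hv : Computable (fun x : ℕ × (ℕ × List Bool) => v x.1 x.2.1 x.2.2))
    {t : α → ℕ} {H : α → List ℕ} {σ : α → List Bool}
    (ht : Computable t) (hH : Computable H) (hσ : Computable σ) :
    Computable fun a => att g v (t a) (H a) (σ a) := by
  have hrc := comp_rc ht hH
  have h1 := Computable.fst.comp hrc
  have h2 := Computable.snd.comp hrc
  have hm : Computable fun a => t a % 3 := comp_mod ht (Computable.const 3)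
  have hd : Computable fun a => t a / 3 := comp_div ht (Computable.const 3)
  have hc : Computable fun a => Denumerable.ofNat Code (t a / 3) :=
    (Computable.ofNat Code).comp hd
  have he : Computable fun a => elt (t a) (rc (t a) (H a)).1 0 :=
    comp_elt ht h1 (Computable.const 0)
  have h0 : Computable fun a => decide ((rc (t a) (H a)).2 = 0) :=
    comp_decEq h2 (Computable.const 0)
  refine comp_ite (c := fun a => decide (t a % 3 = 0)) (comp_decEq hm (Computable.const 0))
    (comp_and h0 (comp_hit (Computable.const 0) hc he (comp_js hv hH hσ))) ?_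
  refine comp_ite (c := fun a => decide (t a % 3 = 1)) (comp_decEq hm (Computable.const 1))
    (comp_and h0 (comp_hit (Computable.const 0) hc he hσ)) ?_
  exact comp_decLt h2 (hg.comp hd hσ)

end comp

/-- A convenient form of the converse of the use principle. -/
theorem red_of_option {Z B : ℕ → Bool} {F : ℕ → List Bool → Option Bool} (hF : Computable₂ F)
    (h1 : ∀ n s b, F n (pre Z s) = some b → b = B n) (h2 : ∀ n, ∃ s, (F n (pre Z s)).isSome) :
    TuringReducible (chi B) (chi Z) := by
  have hp : Partrec₂ (fun (n : ℕ) (σ : List Bool) =>
      ((F n σ).map (fun b : Bool => if b then 1 else 0) : Option ℕ) : ℕ → List Bool → Part ℕ) := by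
    have h1 : Computable₂ (fun (n : ℕ) (σ : List Bool) =>
        (F n σ).map (fun b : Bool => if b then 1 else 0)) := by
      refine Computable.option_map hF ?_
      exact comp_ite (c := fun p : (ℕ × List Bool) × Bool => p.2) Computable.snd
        (Computable.const 1) (Computable.const 0)
    exact Computable.ofOption h1
  obtain ⟨d, hd⟩ := exists_code_of_partrec₂ hp
  refine turingReducible_of_codeComputes (c := d) ⟨fun n s w hw => ?_, fun n => ?_⟩
  · rw [hd] at hw
    simp only [Part.mem_coe, Option.mem_def, Option.map_eq_some_iff] at hw
    obtain ⟨b, hb, rfl⟩ := hw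
    rw [h1 n s b hb]
  · obtain ⟨s, hs⟩ := h2 n
    obtain ⟨b, hb⟩ := Option.isSome_iff_exists.1 hs
    refine ⟨s, ?_⟩
    rw [hd, hb, ← h1 n s b hb]
    simp

/-- The join of two sequences. -/
def jn (X U : ℕ → Bool) : ℕ → Bool := fun n => if n % 2 = 0 then X (n / 2) else U (n / 2)

@[simp] theorem jn_even (X U : ℕ → Bool) (n : ℕ) : jn X U (2 * n) = X n := by simp [jn]

@[simp] theorem jn_odd (X U : ℕ → Bool) (n : ℕ) : jn X U (2 * n + 1) = U n := by
  have h3 : (2 * n + 1) / 2 = n := by omega
  simp [jn, h3]

/-- `f ≤_T Z` for `f n = Z (k n)` with `k` computable. -/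
theorem red_of_index {Z B : ℕ → Bool} {k : ℕ → ℕ} (hk : Computable k) (h : ∀ n, Z (k n) = B n) :
    TuringReducible (chi B) (chi Z) := by
  refine turingReducible_of_computable (F := fun n σ => σ.getD (k n) false)
    (g := fun n => k n + 1) (comp_getD Computable.snd (hk.comp Computable.fst))
    (Computable.succ.comp hk) fun n => ?_
  rw [pre_getD _ (Nat.lt_succ_self _), h]

theorem comp_two_mul : Computable (fun n : ℕ => 2 * n) :=
  Primrec.nat_mul.to_comp.comp (Computable.const 2) Computable.id

theorem left_le_jn (X U : ℕ → Bool) : TuringReducible (chi X) (chi (jn X U)) :=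
  red_of_index comp_two_mul fun n => jn_even X U n

theorem right_le_jn (X U : ℕ → Bool) : TuringReducible (chi U) (chi (jn X U)) :=
  red_of_index (Computable.succ.comp comp_two_mul) fun n => jn_odd X U n

/-- The join is the least upper bound. -/
theorem jn_le {X U Z : ℕ → Bool} (hX : TuringReducible (chi X) (chi Z))
    (hU : TuringReducible (chi U) (chi Z)) : TuringReducible (chi (jn X U)) (chi Z) := by
  obtain ⟨c, hc⟩ := turingReducible_iff.1 hX
  obtain ⟨d, hd⟩ := turingReducible_iff.1 hU
  refine red_of_option (F := fun n σ =>
    if decide (n % 2 = 0) then (if hit 1 c (n / 2) σ then some true else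
      if hit 0 c (n / 2) σ then some false else none)
    else (if hit 1 d (n / 2) σ then some true else
      if hit 0 d (n / 2) σ then some false else none)) ?_ ?_ ?_
  · have hdv : Computable (fun x : ℕ × List Bool => x.1 / 2) :=
      comp_div Computable.fst (Computable.const 2)
    have hh : ∀ (v : ℕ) (c : Code), Computable (fun x : ℕ × List Bool => hit v c (x.1 / 2) x.2) :=
      fun v c => comp_hit (Computable.const v) (Computable.const c) hdv Computable.snd
    have hb : ∀ c : Code, Computable (fun x : ℕ × List Bool =>
        (if hit 1 c (x.1 / 2) x.2 then some true else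
          if hit 0 c (x.1 / 2) x.2 then some false else none : Option Bool)) := by
      intro c
      refine comp_ite (c := fun x : ℕ × List Bool => hit 1 c (x.1 / 2) x.2) (hh 1 c)
        (Computable.const _) ?_
      exact comp_ite (c := fun x : ℕ × List Bool => hit 0 c (x.1 / 2) x.2) (hh 0 c)
        (Computable.const _) (Computable.const _)
    exact comp_ite (c := fun x : ℕ × List Bool => decide (x.1 % 2 = 0))
      (comp_decEq (comp_mod Computable.fst (Computable.const 2)) (Computable.const 0))
      (hb c) (hb d)
  · have key : ∀ (e : Code) (Y : ℕ → Bool), CodeComputes e Z Y → ∀ n s b,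
        (if hit 1 e n (pre Z s) then some true else
          if hit 0 e n (pre Z s) then some false else none : Option Bool) = some b → b = Y n := by
      intro e Y he n s b hb
      split_ifs at hb with h1 h2
      · obtain ⟨t, ht⟩ := exists_hit.2 ⟨s, h1⟩
        have := he.1 n t 1 ht
        cases hY : Y n
        · rw [hY] at this; simp at this
        · simpa using hb.symm
      · obtain ⟨t, ht⟩ := exists_hit.2 ⟨s, h2⟩
        have := he.1 n t 0 ht
        cases hY : Y n
        · simpa using hb.symm
        · rw [hY] at this; simp at this
    intro n s b hb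
    by_cases hn : n % 2 = 0
    · simp only [hn, decide_true, if_true] at hb
      have := key c X hc _ _ _ hb
      simpa [jn, hn] using this
    · simp only [hn, decide_false, if_false, Bool.false_eq_true] at hb
      have := key d U hd _ _ _ hb
      simpa [jn, hn] using this
  · have key : ∀ (e : Code) (Y : ℕ → Bool), CodeComputes e Z Y → ∀ n, ∃ s,
        (if hit 1 e n (pre Z s) then some true else
          if hit 0 e n (pre Z s) then some false else none : Option Bool).isSome = true := by
      intro e Y he n
      obtain ⟨t, ht⟩ := exists_hit.1 (he.2 n)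
      refine ⟨t, ?_⟩
      cases hY : Y n
      · rw [hY] at ht
        simp only [Bool.false_eq_true, if_false] at ht
        split_ifs <;> simp
      · rw [hY] at ht
        simp only [if_true] at ht
        rw [if_pos ht]
        simp
    intro n
    by_cases hn : n % 2 = 0
    · simp only [hn, decide_true, if_true]
      exact key c X hc _
    · simp only [hn, decide_false, if_false, Bool.false_eq_true]
      exact key d U hd _

end Pool.Agent.AEI
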