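import Mathlib
import Pool.Agent.AEI.GLU
import Pool.Agent.AEI.COIN

/-!
A Friedberg-Muchnik construction relative to an oracle `P` such that, for almost every `X`,
`A` is not recursive in `X ⊕ P` and `D` is not recursive in `(X ⊕ P) ⊕ A`. Items of odd index
are concerned with `A`, items of even index with `D`.
-/

set_option autoImplicit false

namespace Pool.Agent.AEI

open Encodable Nat.Partrec Pool.Agent.H19

/-- The code of the item. -/
def cd (t : ℕ) : Code := Denumerable.ofNat Code (t / 2).unpair.1

/-- The entry at stage `r` enumerates the element `b`. -/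
def putE (H : List ℕ) (b r : ℕ) : Bool :=
  decide (H.getD r 0 = b.unpair.1 + 1) &&
    (decide ((rc b.unpair.1 (H.take r)).1 = b.unpair.2.unpair.1) &&
      decide ((rc b.unpair.1 (H.take r)).2 = b.unpair.2.unpair.2))

/-- The element `b` has been enumerated into the set of parity `i`. -/
def inE (i : ℕ) (H : List ℕ) (b : ℕ) : Bool :=
  decide (b.unpair.1 % 2 = i) && (List.range H.length).any fun r => putE H b r

/-- The approximation to the oracle of the item `t`, which is `X ⊕ P` for odd `t` and
`(X ⊕ P) ⊕ A` for even `t`. -/
def orc (t : ℕ) (H : List ℕ) (ρ σ : List Bool) : List Bool :=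
  (List.range H.length).map fun m =>
    if decide (t % 2 = 1) then
      (if decide (m % 2 = 0) then σ.getD (m / 2) false else ρ.getD (m / 2) false)
    else if decide (m % 2 = 0) then
      (if decide (m / 2 % 2 = 0) then σ.getD (m / 2 / 2) false else ρ.getD (m / 2 / 2) false)
    else inE 1 H (m / 2)

/-- The functional of the item `t` is seen to take the value `0` at the current witness. -/
def ht (t : ℕ) (H : List ℕ) (ρ σ : List Bool) : Bool :=
  hit 0 (cd t) (elt t (rc t H).1 (rc t H).2) (orc t H ρ σ)

/-- The item has been satisfied along `σ` since the last restart. -/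
def kl (t : ℕ) (H : List ℕ) (ρ σ : List Bool) : Bool :=
  (List.range H.length).any fun r =>
    decide (H.getD r 0 = t + 1) && (decide ((rc t (H.take r)).1 = (rc t H).1) &&
      ht t (H.take r) (ρ.take r) (σ.take r))

/-- The item requires to be satisfied along `σ`. -/
def bd (t : ℕ) (H : List ℕ) (ρ σ : List Bool) : Bool := ht t H ρ σ && !kl t H ρ σ

/-- The item `t` requires attention if the set of the oracles along which it has to be satisfied
has measure greater than `2 ^ -(t + 2)`. -/
def af (t : ℕ) (H : List ℕ) (ρ : List Bool) : Bool :=
  decide ((strs H.length).length <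
    (strs (t + 2)).length * ((strs H.length).filter (bd t H ρ)).length)

section comp

variable {α : Type*} [Primcodable α]

theorem comp_cd {t : α → ℕ} (ht : Computable t) : Computable fun a => cd (t a) :=
  (Computable.ofNat Code).comp (Computable.fst.comp (Computable.unpair.comp
    (comp_div ht (Computable.const 2))))

theorem comp_putE {H : α → List ℕ} {b r : α → ℕ}
    (hH : Computable H) (hb : Computable b) (hr : Computable r) :
    Computable fun a => putE (H a) (b a) (r a) := by
  have h1 : Computable fun a => (b a).unpair.1 := Computable.fst.comp (Computable.unpair.comp hb)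
  have h2 : Computable fun a => (b a).unpair.2 := Computable.snd.comp (Computable.unpair.comp hb)
  have h3 : Computable fun a => (b a).unpair.2.unpair.1 :=
    Computable.fst.comp (Computable.unpair.comp h2)
  have h4 : Computable fun a => (b a).unpair.2.unpair.2 :=
    Computable.snd.comp (Computable.unpair.comp h2)
  have hrc := comp_rc h1 (comp_take hr hH)
  exact comp_and (comp_decEq (comp_getD_nat hH hr) (Computable.succ.comp h1))
    (comp_and (comp_decEq (Computable.fst.comp hrc) h3)
      (comp_decEq (Computable.snd.comp hrc) h4))

theorem comp_inE (i : ℕ) {H : α → List ℕ} {b : α → ℕ} (hH : Computable H) (hb : Computable b) :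
    Computable fun a => inE i (H a) (b a) := by
  refine comp_and (comp_decEq (comp_mod (Computable.fst.comp (Computable.unpair.comp hb))
    (Computable.const 2)) (Computable.const i)) ?_
  refine comp_list_any (g := fun a r => putE (H a) (b a) r)
    (comp_range (Computable.list_length.comp hH)) ?_
  exact comp_putE (hH.comp Computable.fst) (hb.comp Computable.fst) Computable.snd

theorem comp_orc {t : α → ℕ} {H : α → List ℕ} {ρ σ : α → List Bool} (ht : Computable t)
    (hH : Computable H) (hρ : Computable ρ) (hσ : Computable σ) :
    Computable fun a => orc (t a) (H a) (ρ a) (σ a) := by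
  refine comp_list_map (g := fun a m =>
    if decide (t a % 2 = 1) then
      (if decide (m % 2 = 0) then (σ a).getD (m / 2) false else (ρ a).getD (m / 2) false)
    else if decide (m % 2 = 0) then
      (if decide (m / 2 % 2 = 0) then (σ a).getD (m / 2 / 2) false
        else (ρ a).getD (m / 2 / 2) false)
    else inE 1 (H a) (m / 2)) (comp_range (Computable.list_length.comp hH)) ?_
  have hd : Computable (fun x : α × ℕ => x.2 / 2) := comp_div Computable.snd (Computable.const 2)
  have hdd : Computable (fun x : α × ℕ => x.2 / 2 / 2) := comp_div hd (Computable.const 2)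
  have hσ' : Computable (fun x : α × ℕ => σ x.1) := hσ.comp Computable.fst
  have hρ' : Computable (fun x : α × ℕ => ρ x.1) := hρ.comp Computable.fst
  have hm : Computable (fun x : α × ℕ => decide (x.2 % 2 = 0)) :=
    comp_decEq (comp_mod Computable.snd (Computable.const 2)) (Computable.const 0)
  refine comp_ite (c := fun x : α × ℕ => decide (t x.1 % 2 = 1))
    (comp_decEq (comp_mod (ht.comp Computable.fst) (Computable.const 2)) (Computable.const 1))
    ?_ ?_
  · exact comp_ite (c := fun x : α × ℕ => decide (x.2 % 2 = 0)) hm (comp_getD hσ' hd)
      (comp_getD hρ' hd)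
  · refine comp_ite (c := fun x : α × ℕ => decide (x.2 % 2 = 0)) hm ?_ ?_
    · exact comp_ite (c := fun x : α × ℕ => decide (x.2 / 2 % 2 = 0))
        (comp_decEq (comp_mod hd (Computable.const 2)) (Computable.const 0))
        (comp_getD hσ' hdd) (comp_getD hρ' hdd)
    · exact comp_inE 1 (hH.comp Computable.fst) hd

theorem comp_ht {t : α → ℕ} {H : α → List ℕ} {ρ σ : α → List Bool} (ht : Computable t)
    (hH : Computable H) (hρ : Computable ρ) (hσ : Computable σ) :
    Computable fun a => Pool.Agent.AEI.ht (t a) (H a) (ρ a) (σ a) := by
  have hrc := comp_rc ht hH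
  exact comp_hit (Computable.const 0) (comp_cd ht)
    (comp_elt ht (Computable.fst.comp hrc) (Computable.snd.comp hrc)) (comp_orc ht hH hρ hσ)

theorem comp_kl {t : α → ℕ} {H : α → List ℕ} {ρ σ : α → List Bool} (ht : Computable t)
    (hH : Computable H) (hρ : Computable ρ) (hσ : Computable σ) :
    Computable fun a => kl (t a) (H a) (ρ a) (σ a) := by
  refine comp_list_any (g := fun a r =>
    decide ((H a).getD r 0 = t a + 1) &&
      (decide ((rc (t a) ((H a).take r)).1 = (rc (t a) (H a)).1) &&
      Pool.Agent.AEI.ht (t a) ((H a).take r) ((ρ a).take r) ((σ a).take r)))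
    (comp_range (Computable.list_length.comp hH)) ?_
  have ht' : Computable (fun x : α × ℕ => t x.1) := ht.comp Computable.fst
  have hH' : Computable (fun x : α × ℕ => H x.1) := hH.comp Computable.fst
  have hHt : Computable (fun x : α × ℕ => (H x.1).take x.2) := comp_take Computable.snd hH'
  refine comp_and (comp_decEq (comp_getD_nat hH' Computable.snd) (Computable.succ.comp ht')) ?_
  refine comp_and (comp_decEq (Computable.fst.comp (comp_rc ht' hHt))
    (Computable.fst.comp (comp_rc ht' hH'))) ?_
  exact comp_ht ht' hHt (comp_take Computable.snd (hρ.comp Computable.fst))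
    (comp_take Computable.snd (hσ.comp Computable.fst))

theorem comp_bd {t : α → ℕ} {H : α → List ℕ} {ρ σ : α → List Bool} (ht : Computable t)
    (hH : Computable H) (hρ : Computable ρ) (hσ : Computable σ) :
    Computable fun a => bd (t a) (H a) (ρ a) (σ a) :=
  comp_and (comp_ht ht hH hρ hσ) (comp_not (comp_kl ht hH hρ hσ))

theorem comp_af {t : α → ℕ} {H : α → List ℕ} {ρ : α → List Bool} (ht : Computable t)
    (hH : Computable H) (hρ : Computable ρ) :
    Computable fun a => af (t a) (H a) (ρ a) := by
  have hs : Computable fun a => strs (H a).length := comp_strs.comp (Computable.list_length.comp hH)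
  refine comp_decLt (Computable.list_length.comp hs) ?_
  refine Primrec.nat_mul.to_comp.comp (Computable.list_length.comp (comp_strs.comp
    (Computable.succ.comp (Computable.succ.comp ht)))) ?_
  refine Computable.list_length.comp (comp_list_filter (g := fun a σ => bd (t a) (H a) (ρ a) σ)
    hs ?_)
  exact comp_bd (ht.comp Computable.fst) (hH.comp Computable.fst) (hρ.comp Computable.fst)
    Computable.snd

theorem comp_hstaf {ρ : α → List Bool} (hρ : Computable ρ) :
    Computable fun a => hst af (ρ a) := by
  refine comp_hst (α := α) (A := fun _ => af) ?_ hρ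
  exact comp_af (Computable.fst.comp Computable.snd)
      (Computable.fst.comp (Computable.snd.comp Computable.snd))
      (Computable.snd.comp (Computable.snd.comp Computable.snd))

end comp

end Pool.Agent.AEI
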