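import Mathlib
import Pool.Agent.AEI.AFM

/-!
The almost everywhere Friedberg-Muchnik construction: verification.
-/

set_option autoImplicit false

namespace Pool.Agent.AEI

open Encodable Nat.Partrec Pool.Agent.H19 MeasureTheory
open scoped ENNReal

section

variable (P : ℕ → Bool)

/-- The element `b` is enumerated into the set of parity `i`. -/
def EP (i b : ℕ) : Prop := b.unpair.1 % 2 = i ∧ ∃ r, ac af P r = b.unpair.1 + 1 ∧
  Rt af P b.unpair.1 r = b.unpair.2.unpair.1 ∧ Ct af P b.unpair.1 r = b.unpair.2.unpair.2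

open Classical in
/-- The set of parity `i`. -/
noncomputable def EE (i : ℕ) : ℕ → Bool := fun b => decide (EP P i b)

/-- The oracle of the item `t`. -/
noncomputable def orX (t : ℕ) (X : ℕ → Bool) : ℕ → Bool :=
  if t % 2 = 1 then jn X P else jn (jn X P) (EE P 1)

/-- The set of the oracles along which the functional of `t` is seen to be zero. -/
def HX (t s : ℕ) : Set (ℕ → Bool) := {X | ht t (hst af (pre P s)) (pre P s) (pre X s) = true}

/-- The set of the oracles along which the item `t` has been satisfied. -/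
def KX (t s : ℕ) : Set (ℕ → Bool) := {X | kl t (hst af (pre P s)) (pre P s) (pre X s) = true}

/-- The set of the oracles along which the item `t` has to be satisfied. -/
def BX (t s : ℕ) : Set (ℕ → Bool) := {X | bd t (hst af (pre P s)) (pre P s) (pre X s) = true}

end

variable {P : ℕ → Bool}

theorem EE_iff {i b : ℕ} : EE P i b = true ↔ EP P i b := by simp [EE]

theorem EP_elt {i t R n : ℕ} : EP P i (elt t R n) ↔ t % 2 = i ∧ ∃ r, ac af P r = t + 1 ∧
    Rt af P t r = R ∧ Ct af P t r = n := by simp [EP, elt]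

theorem inE_iff {i b s : ℕ} : inE i (hst af (pre P s)) b = true ↔ b.unpair.1 % 2 = i ∧
    ∃ r < s, ac af P r = b.unpair.1 + 1 ∧
    Rt af P b.unpair.1 r = b.unpair.2.unpair.1 ∧ Ct af P b.unpair.1 r = b.unpair.2.unpair.2 := by
  rw [inE, Bool.and_eq_true, decide_eq_true_eq, List.any_eq_true]
  simp only [List.mem_range, hst_pre_length]
  refine and_congr_right fun _ => exists_congr fun r => and_congr_right fun hr => ?_
  rw [putE, hst_pre_getD P hr, hst_pre_take P hr.le]
  simp only [Bool.and_eq_true, decide_eq_true_eq]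
  exact Iff.rfl

theorem EP_iff {i b : ℕ} : EP P i b ↔ ∃ s, inE i (hst af (pre P s)) b = true := by
  constructor
  · rintro ⟨h, r, hr⟩
    exact ⟨r + 1, inE_iff.2 ⟨h, r, Nat.lt_succ_self r, hr⟩⟩
  · rintro ⟨s, hs⟩
    obtain ⟨h, r, -, hr⟩ := inE_iff.1 hs
    exact ⟨h, r, hr⟩

theorem inE_mono {i b s s' : ℕ} (h : s ≤ s') (hb : inE i (hst af (pre P s)) b = true) :
    inE i (hst af (pre P s')) b = true := by
  obtain ⟨h0, r, hr, h1⟩ := inE_iff.1 hb
  exact inE_iff.2 ⟨h0, r, lt_of_lt_of_le hr h, h1⟩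

theorem mem_KX {t s : ℕ} {X : ℕ → Bool} : X ∈ KX P t s ↔
    ∃ r < s, ac af P r = t + 1 ∧ Rt af P t r = Rt af P t s ∧ X ∈ HX P t r := by
  rw [KX, Set.mem_ofPred_eq, kl, List.any_eq_true]
  simp only [List.mem_range, hst_pre_length]
  refine exists_congr fun r => and_congr_right fun hr => ?_
  rw [hst_pre_getD P hr, hst_pre_take P hr.le, pre_take P hr.le, pre_take X hr.le]
  simp only [Bool.and_eq_true, decide_eq_true_eq]
  exact Iff.rfl

theorem mem_BX {t s : ℕ} {X : ℕ → Bool} : X ∈ BX P t s ↔ X ∈ HX P t s ∧ X ∉ KX P t s := by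
  rw [BX, Set.mem_ofPred_eq, bd, Bool.and_eq_true, Bool.not_eq_true', HX, KX,
    Set.mem_ofPred_eq, Set.mem_ofPred_eq, Bool.not_eq_true]

theorem measurableSet_KX (t s : ℕ) : MeasurableSet (KX P t s) :=
  measurableSet_pre (fun σ => kl t (hst af (pre P s)) (pre P s) σ) s

theorem measurableSet_BX (t s : ℕ) : MeasurableSet (BX P t s) :=
  measurableSet_pre (fun σ => bd t (hst af (pre P s)) (pre P s) σ) s

theorem af_iff {t s : ℕ} : af t (hst af (pre P s)) (pre P s) = true ↔
    ¬ coin (BX P t s) ≤ 2⁻¹ ^ (t + 2) := by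
  rw [BX, coin_le_iff (fun σ => bd t (hst af (pre P s)) (pre P s) σ) s (t + 2), not_not, af,
    decide_eq_true_eq, hst_pre_length]

/-- Each action satisfies the item along a set of measure at least `2 ^ -(t + 2)`. -/
theorem Ct_le (t s : ℕ) : (Ct af P t s : ℝ≥0∞) * 2⁻¹ ^ (t + 2) ≤ coin (KX P t s) := by
  induction s with
  | zero =>
    have : Ct af P t 0 = 0 := rfl
    rw [this]; simp
  | succ s ih =>
    have h1 : Ct af P t (s + 1) = (rc t (hst af (pre P (s + 1)))).2 := rfl
    have h2 : Rt af P t (s + 1) = (rc t (hst af (pre P (s + 1)))).1 := rfl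
    rw [rc_succ] at h1 h2
    by_cases hc : 1 ≤ ac af P s ∧ ac af P s ≤ t
    · rw [if_pos hc] at h1
      rw [h1]; simp
    · rw [if_neg hc] at h1 h2
      have h3 : Rt af P t (s + 1) = Rt af P t s := by
        rw [h2]; split_ifs <;> rfl
      have h4 : KX P t s ⊆ KX P t (s + 1) := by
        intro X hX
        obtain ⟨r, hr, h5, h6, h7⟩ := mem_KX.1 hX
        exact mem_KX.2 ⟨r, by omega, h5, by rw [h3]; exact h6, h7⟩
      by_cases hd : ac af P s = t + 1
      · rw [if_pos hd] at h1
        have h5 : BX P t s ⊆ KX P t (s + 1) := by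
          intro X hX
          exact mem_KX.2 ⟨s, Nat.lt_succ_self s, hd, h3.symm, (mem_BX.1 hX).1⟩
        have h6 : Disjoint (KX P t s) (BX P t s) := by
          rw [Set.disjoint_left]
          intro X hX hX'
          exact (mem_BX.1 hX').2 hX
        have h7 : af t (hst af (pre P s)) (pre P s) = true := (ac_att hd).2.1
        rw [af_iff, not_le] at h7
        calc (Ct af P t (s + 1) : ℝ≥0∞) * 2⁻¹ ^ (t + 2)
            = (Ct af P t s : ℝ≥0∞) * 2⁻¹ ^ (t + 2) + 2⁻¹ ^ (t + 2) := by
              rw [h1]; push_cast; ring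
          _ ≤ coin (KX P t s) + coin (BX P t s) := add_le_add ih h7.le
          _ = coin (KX P t s ∪ BX P t s) := (measure_union h6 (measurableSet_BX t s)).symm
          _ ≤ coin (KX P t (s + 1)) := measure_mono (Set.union_subset h4 h5)
      · rw [if_neg hd] at h1
        rw [h1]
        exact ih.trans (measure_mono h4)

theorem Ct_lt {t s : ℕ} (h : af t (hst af (pre P s)) (pre P s) = true) :
    Ct af P t s < 2 ^ (t + 2) := by
  rw [af_iff, not_le] at h
  have h6 : Disjoint (KX P t s) (BX P t s) := by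
    rw [Set.disjoint_left]
    intro X hX hX'
    exact (mem_BX.1 hX').2 hX
  have h1 : ((Ct af P t s : ℝ≥0∞) + 1) * 2⁻¹ ^ (t + 2) ≤ 1 := by
    calc ((Ct af P t s : ℝ≥0∞) + 1) * 2⁻¹ ^ (t + 2)
        = (Ct af P t s : ℝ≥0∞) * 2⁻¹ ^ (t + 2) + 2⁻¹ ^ (t + 2) := by ring
      _ ≤ coin (KX P t s) + coin (BX P t s) := add_le_add (Ct_le t s) h.le
      _ = coin (KX P t s ∪ BX P t s) := (measure_union h6 (measurableSet_BX t s)).symm
      _ ≤ 1 := prob_le_one
  have h4 : (2 : ℝ≥0∞) ^ (t + 2) ≠ 0 := by positivity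
  have h5 : (2 : ℝ≥0∞) ^ (t + 2) ≠ ⊤ := ENNReal.pow_ne_top (by simp)
  rw [← ENNReal.inv_pow, ← div_eq_mul_inv, ENNReal.div_le_iff h4 h5, one_mul] at h1
  have h2 : Ct af P t s + 1 ≤ 2 ^ (t + 2) := by exact_mod_cast h1
  omega

/-- Every item acts finitely often. -/
theorem finAct_af (t : ℕ) : FinAct af P t := by
  induction t using Nat.strong_induction_on with
  | _ t ih =>
    obtain ⟨s0, h0⟩ := exists_quiet ih
    exact finAct_of_bound h0 fun s _ hs => Ct_lt hs

/-- The final state of an item. -/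
theorem exists_final (t : ℕ) : ∃ s0, Quiet af P (t + 1) s0 :=
  exists_quiet fun t' _ => finAct_af t'

theorem Quiet.pred {att : ℕ → List ℕ → List Bool → Bool} {X : ℕ → Bool} {t s0 : ℕ}
    (h : Quiet att X (t + 1) s0) : Quiet att X t s0 :=
  fun s hs hc => h s hs ⟨hc.1, by omega⟩

theorem Quiet.Ct_eq {att : ℕ → List ℕ → List Bool → Bool} {X : ℕ → Bool} {t s0 : ℕ}
    (h : Quiet att X (t + 1) s0) {s : ℕ} (hs : s0 ≤ s) : Ct att X t s = Ct att X t s0 := by
  induction hs with
  | refl => rfl
  | @step s hs ih =>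
    rw [h.pred.Ct_succ hs, if_neg, ih]
    intro hc
    exact h s hs ⟨by omega, by omega⟩

/-- From some stage on the measure of the set of the oracles along which the item has to be
satisfied is small. -/
theorem coin_BX_le (t : ℕ) : ∃ s1, ∀ s ≥ s1, coin (BX P t s) ≤ 2⁻¹ ^ (t + 2) := by
  obtain ⟨s0, h0⟩ := exists_final (P := P) t
  refine ⟨max s0 t, fun s hs => ?_⟩
  by_contra hcon
  have h1 : af t (hst af (pre P s)) (pre P s) = true := af_iff.2 hcon
  have h2 := h0.pred.acts ((le_max_left _ _).trans hs) ((le_max_right _ _).trans hs) h1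
  exact h0 s ((le_max_left _ _).trans hs) ⟨by omega, by omega⟩

/-- For almost every oracle `X`, all but finitely many items cease infinitely often to have to
be satisfied along `X`. -/
theorem ae_good (P : ℕ → Bool) : ∀ᵐ X ∂coin, ∃ q, ∀ t ≥ q, ∀ N, ∃ s ≥ N, X ∉ BX P t s := by
  let L : ℕ → Set (ℕ → Bool) := fun t => ⋃ N, ⋂ s, ⋂ (_ : N ≤ s), BX P t s
  have hL : ∀ t, coin (L t) ≤ 2⁻¹ ^ (t + 2) := by
    intro t
    obtain ⟨s1, h1⟩ := coin_BX_le (P := P) t
    have hm : Monotone fun N : ℕ => ⋂ s, ⋂ (_ : N ≤ s), BX P t s := by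
      intro N N' hN X hX
      simp only [Set.mem_iInter] at hX ⊢
      exact fun s hs => hX s (hN.trans hs)
    have h2 : coin (L t) = ⨆ N, coin (⋂ s, ⋂ (_ : N ≤ s), BX P t s) := hm.measure_iUnion
    rw [h2]
    refine iSup_le fun N => ?_
    refine le_trans (measure_mono ?_) (h1 (max N s1) (le_max_right _ _))
    intro X hX
    simp only [Set.mem_iInter] at hX
    exact hX _ (le_max_left _ _)
  have hs : ∑' t, coin (L t) ≠ ∞ := by
    refine ne_top_of_le_ne_top ?_ (ENNReal.tsum_le_tsum hL)
    simp only [pow_add]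
    rw [ENNReal.tsum_mul_right]
    refine ENNReal.mul_ne_top ?_ (ENNReal.pow_ne_top (by simp))
    rw [ENNReal.tsum_geometric]
    simp
  filter_upwards [ae_eventually_notMem hs] with X hX
  obtain ⟨q, hq⟩ := Filter.eventually_atTop.1 hX
  refine ⟨q, fun t ht N => ?_⟩
  have h1 := hq t ht
  simp only [L, Set.mem_iUnion, Set.mem_iInter, not_exists, not_forall] at h1
  obtain ⟨s, hs, h2⟩ := h1 N
  exact ⟨s, hs, h2⟩

/-! ### Correctness -/

theorem orc_length {t : ℕ} {H : List ℕ} {ρ σ : List Bool} :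
    (orc t H ρ σ).length = H.length := by simp [orc]

theorem orc_getElem? {t s m : ℕ} {X : ℕ → Bool} (h : m < s) :
    (orc t (hst af (pre P s)) (pre P s) (pre X s))[m]? = some (
      if t % 2 = 1 then jn X P m
      else if m % 2 = 0 then jn X P (m / 2) else inE 1 (hst af (pre P s)) (m / 2)) := by
  rw [orc, List.getElem?_map, List.getElem?_range (by rw [hst_pre_length]; exact h),
    Option.map_some]
  congr 1
  by_cases ht : t % 2 = 1
  · simp only [ht, decide_true, if_true]
    rw [pre_getD X (by omega), pre_getD P (by omega), jn]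
    by_cases hm : m % 2 = 0
    · simp [hm]
    · simp [hm]
  · simp only [ht, decide_false, if_false, Bool.false_eq_true]
    by_cases hm : m % 2 = 0
    · simp only [hm, decide_true, if_true]
      rw [pre_getD X (by omega), pre_getD P (by omega), jn]
      by_cases hm : m / 2 % 2 = 0
      · simp [hm]
      · simp [hm]
    · simp only [hm, decide_false, if_false, Bool.false_eq_true]

theorem orc_take {t s u : ℕ} {X : ℕ → Bool} (hu : u ≤ s) (h : t % 2 ≠ 1 → ∀ b, 2 * b + 1 < u →
    EP P 1 b → inE 1 (hst af (pre P s)) b = true) :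
    (orc t (hst af (pre P s)) (pre P s) (pre X s)).take u = pre (orX P t X) u := by
  apply List.ext_getElem?
  intro m
  by_cases hm : m < u
  · rw [List.getElem?_take_of_lt hm, orc_getElem? (lt_of_lt_of_le hm hu), pre_getElem? _ hm]
    congr 1
    rw [orX]
    by_cases ht : t % 2 = 1
    · rw [if_pos ht, if_pos ht]
    · rw [if_neg ht, if_neg ht]
      conv_rhs => rw [jn]
      by_cases hm2 : m % 2 = 0
      · rw [if_pos hm2, if_pos hm2]
      · rw [if_neg hm2, if_neg hm2, Bool.eq_iff_iff, EE_iff]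
        constructor
        · intro h1
          exact EP_iff.2 ⟨s, h1⟩
        · intro h1
          exact h ht _ (by omega) h1
  · rw [List.getElem?_eq_none, List.getElem?_eq_none]
    · rw [pre_length]; omega
    · rw [List.length_take]; omega

theorem exists_orc (t u : ℕ) (X : ℕ → Bool) : ∃ s0, ∀ s ≥ s0,
    pre (orX P t X) u <+: orc t (hst af (pre P s)) (pre P s) (pre X s) := by
  have h1 : ∃ s0, ∀ b < u, EP P 1 b → ∀ s ≥ s0, inE 1 (hst af (pre P s)) b = true := by
    induction u with
    | zero => exact ⟨0, fun b hb => absurd hb (Nat.not_lt_zero b)⟩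
    | succ u ih =>
      obtain ⟨s0, h0⟩ := ih
      by_cases hb : EP P 1 u
      · obtain ⟨s1, h1⟩ := EP_iff.1 hb
        refine ⟨max s0 s1, fun b hb hB s hs => ?_⟩
        rcases Nat.lt_succ_iff_lt_or_eq.1 hb with hb | rfl
        · exact h0 b hb hB s ((le_max_left _ _).trans hs)
        · exact inE_mono ((le_max_right _ _).trans hs) h1
      · refine ⟨s0, fun b hb' hB s hs => ?_⟩
        rcases Nat.lt_succ_iff_lt_or_eq.1 hb' with hb' | rfl
        · exact h0 b hb' hB s hs
        · exact absurd hB hb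
  obtain ⟨s0, h0⟩ := h1
  refine ⟨max s0 u, fun s hs => ?_⟩
  have h2 := orc_take (P := P) (X := X) (t := t) ((le_max_right s0 u).trans hs)
    fun _ b hb hB => h0 b (by omega) hB s ((le_max_left _ _).trans hs)
  rw [← h2]
  exact List.take_prefix _ _

theorem orc_true {t r : ℕ} {X : ℕ → Bool} (hr : ac af P r = t + 1) (hq : Quiet af P t r) :
    orc t (hst af (pre P r)) (pre P r) (pre X r) = pre (orX P t X) r := by
  have h1 := orc_take (P := P) (X := X) (t := t) (s := r) (u := r) le_rfl ?_
  · rw [List.take_of_length_le] at h1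
    · exact h1
    · rw [orc_length, hst_pre_length]
  · intro ht b hb hB
    obtain ⟨h0, r', h2⟩ := hB
    refine inE_iff.2 ⟨h0, r', ?_, h2⟩
    by_contra hcon
    push Not at hcon
    obtain ⟨h3, h4, h5⟩ := h2
    set t' := b.unpair.1
    rcases lt_trichotomy t' t with hlt | heq | hlt
    · exact hq r' hcon ⟨by omega, by omega⟩
    · rw [heq] at h0; exact ht h0
    · have h6 : r ≠ r' := by
        rintro rfl
        omega
      have h7 := lt_Rt_of_ac hr hlt (lt_of_le_of_ne hcon h6)
      rw [h4] at h7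
      have h8 : b.unpair.2.unpair.1 ≤ b :=
        (Nat.unpair_left_le _).trans (Nat.unpair_right_le _)
      omega

/-- The requirement of the item `t` is satisfied along `X` if `X` leaves infinitely often the set
of the oracles along which it has to be satisfied. -/
theorem not_computes {t : ℕ} {X : ℕ → Bool} (h : ∀ N, ∃ s ≥ N, X ∉ BX P t s) :
    ¬ CodeComputes (cd t) (orX P t X) (EE P (t % 2)) := by
  intro hc
  obtain ⟨s0, h0⟩ := exists_final (P := P) t
  set R := Rt af P t s0 with hR
  set n := Ct af P t s0 with hn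
  by_cases hk : ∃ s ≥ s0, X ∈ KX P t s
  · obtain ⟨s, hs, hk⟩ := hk
    obtain ⟨r, hrs, h1, h2, h3⟩ := mem_KX.1 hk
    have h4 : Rt af P t r = R := h2.trans (h0.pred.Rt_eq hs)
    have hq : Quiet af P t r := by
      intro s' hs'
      rcases le_total s0 s' with h5 | h5
      · exact h0.pred s' h5
      · rcases h5.lt_or_eq with h5 | rfl
        · exact quiet_of_Rt_eq (h4.trans hR) hs' h5
        · exact h0.pred s' le_rfl
    have h5 : hit 0 (cd t) (elt t (Rt af P t r) (Ct af P t r)) (pre (orX P t X) r) = true := by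
      rw [← orc_true h1 hq]
      exact h3
    obtain ⟨k, hk⟩ := exists_hit.2 ⟨r, h5⟩
    have h6 := hc.1 _ _ _ hk
    rw [if_pos (EE_iff.2 (EP_elt.2 ⟨rfl, r, h1, rfl, rfl⟩))] at h6
    exact absurd h6 (by omega)
  · push Not at hk
    have h1 : ¬ EP P (t % 2) (elt t R n) := by
      intro hE
      obtain ⟨-, r, h1, h2, h3⟩ := EP_elt.1 hE
      rcases lt_or_ge r s0 with h4 | h4
      · have := Ct_lt_of_act h1 h4 (h2.trans hR)
        omega
      · exact h0 r h4 ⟨by omega, by omega⟩
    have h2 : EE P (t % 2) (elt t R n) = false := by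
      rw [← Bool.not_eq_true, EE_iff]; exact h1
    obtain ⟨k, hk'⟩ := exists_hit.1 (hc.2 (elt t R n))
    rw [h2] at hk'
    simp only [Bool.false_eq_true, if_false] at hk'
    obtain ⟨s1, hs1⟩ := exists_orc (P := P) t k X
    obtain ⟨s, hs, hX⟩ := h (max s0 s1)
    have hss0 : s0 ≤ s := (le_max_left _ _).trans hs
    have hss1 : s1 ≤ s := (le_max_right _ _).trans hs
    apply hX
    rw [mem_BX]
    refine ⟨?_, hk s hss0⟩
    rw [HX, Set.mem_ofPred_eq, ht]
    have h3 : (rc t (hst af (pre P s))).1 = R := h0.pred.Rt_eq hss0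
    have h4 : (rc t (hst af (pre P s))).2 = n := h0.Ct_eq hss0
    rw [h3, h4]
    exact hit_mono (hs1 s hss1) hk'

/-- The almost everywhere Friedberg-Muchnik theorem, with the condition on the oracle. -/
theorem not_reducible {X : ℕ → Bool} {q : ℕ} (h : ∀ t ≥ q, ∀ N, ∃ s ≥ N, X ∉ BX P t s) :
    ¬ TuringReducible (chi (EE P 1)) (chi (jn X P)) ∧
    ¬ TuringReducible (chi (EE P 0)) (chi (jn (jn X P) (EE P 1))) := by
  constructor
  · intro hred
    obtain ⟨c, hc⟩ := turingReducible_iff.1 hred
    let t := 2 * Nat.pair (encode c) q + 1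
    have h1 : t % 2 = 1 := by omega
    have h2 : cd t = c := by
      have : t / 2 = Nat.pair (encode c) q := by omega
      rw [cd, this, Nat.unpair_pair, Denumerable.ofNat_encode]
    have h3 : q ≤ t := by
      have := Nat.right_le_pair (encode c) q
      omega
    have := not_computes (h t h3)
    rw [h1, h2, orX, if_pos h1] at this
    exact this hc
  · intro hred
    obtain ⟨c, hc⟩ := turingReducible_iff.1 hred
    let t := 2 * Nat.pair (encode c) q
    have h1 : t % 2 = 0 := by omega
    have h2 : cd t = c := by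
      have : t / 2 = Nat.pair (encode c) q := by omega
      rw [cd, this, Nat.unpair_pair, Denumerable.ofNat_encode]
    have h3 : q ≤ t := by
      have := Nat.right_le_pair (encode c) q
      omega
    have := not_computes (h t h3)
    rw [h1, h2, orX, if_neg (by omega)] at this
    exact this hc

end Pool.Agent.AEI
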