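import Mathlib
import Pool.Agent.H19.Op

/-!
Counting functions: a computable family of tests on strings gives a monotone computable function
on strings which is unbounded along `X` if and only if every test succeeds infinitely often
along `X`.
-/

set_option autoImplicit false

namespace Pool.Agent.AEI

open Encodable Nat.Partrec Pool.Agent.H19

/-- All tests up to `c` have succeeded after stage `l` and not later than stage `n`. -/
def okk (pr : ℕ → List Bool → Bool) (σ : List Bool) (c l n : ℕ) : Bool :=
  !((List.range (c + 1)).any fun m =>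
    !((List.range (n + 1)).any fun s => decide (l < s) && pr m (σ.take s)))

theorem okk_iff {pr : ℕ → List Bool → Bool} {σ : List Bool} {c l n : ℕ} :
    okk pr σ c l n = true ↔ ∀ m ≤ c, ∃ s ≤ n, l < s ∧ pr m (σ.take s) = true := by
  simp only [okk, Bool.not_eq_true', List.any_eq_false, List.mem_range,
    Bool.and_eq_true, decide_eq_true_eq, Nat.lt_succ_iff]
  push Not
  exact Iff.rfl

/-- The count after `n` stages, with the stage of the last increase. -/
def cnn (pr : ℕ → List Bool → Bool) (σ : List Bool) : ℕ → ℕ × ℕ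
  | 0 => (0, 0)
  | n + 1 => if okk pr σ (cnn pr σ n).1 (cnn pr σ n).2 (n + 1) then ((cnn pr σ n).1 + 1, n + 1)
      else cnn pr σ n

/-- The count. -/
def cn (pr : ℕ → List Bool → Bool) (σ : List Bool) : ℕ := (cnn pr σ σ.length).1

theorem cnn_congr {pr : ℕ → List Bool → Bool} {σ τ : List Bool} {n : ℕ}
    (h : ∀ m ≤ n, σ.take m = τ.take m) : cnn pr σ n = cnn pr τ n := by
  induction n with
  | zero => rfl
  | succ n ih =>
    have ih' := ih fun m hm => h m (hm.trans (Nat.le_succ n))
    have h1 : okk pr σ (cnn pr σ n).1 (cnn pr σ n).2 (n + 1) =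
        okk pr τ (cnn pr τ n).1 (cnn pr τ n).2 (n + 1) := by
      rw [ih', Bool.eq_iff_iff, okk_iff, okk_iff]
      constructor
      · intro hh m hm
        obtain ⟨s, hs, h1, h2⟩ := hh m hm
        exact ⟨s, hs, h1, by rw [← h s hs]; exact h2⟩
      · intro hh m hm
        obtain ⟨s, hs, h1, h2⟩ := hh m hm
        exact ⟨s, hs, h1, by rw [h s hs]; exact h2⟩
    rw [cnn, cnn, h1, ih']

/-- The state along `X`. -/
def cX (pr : ℕ → List Bool → Bool) (X : ℕ → Bool) (s : ℕ) : ℕ × ℕ := cnn pr (pre X s) s

theorem cX_zero (pr : ℕ → List Bool → Bool) (X : ℕ → Bool) : cX pr X 0 = (0, 0) := rfl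

theorem cX_succ (pr : ℕ → List Bool → Bool) (X : ℕ → Bool) (n : ℕ) : cX pr X (n + 1) =
    if ∀ m ≤ (cX pr X n).1, ∃ s ≤ n + 1, (cX pr X n).2 < s ∧ pr m (pre X s) = true
    then ((cX pr X n).1 + 1, n + 1) else cX pr X n := by
  have h1 : cnn pr (pre X (n + 1)) n = cX pr X n := by
    refine cnn_congr fun m hm => ?_
    rw [pre_take X (hm.trans (Nat.le_succ n)), pre_take X hm]
  rw [cX, cnn, h1]
  have h2 : (okk pr (pre X (n + 1)) (cX pr X n).1 (cX pr X n).2 (n + 1) = true) ↔
      ∀ m ≤ (cX pr X n).1, ∃ s ≤ n + 1, (cX pr X n).2 < s ∧ pr m (pre X s) = true := by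
    rw [okk_iff]
    constructor
    · intro hh m hm
      obtain ⟨s, hs, h3, h4⟩ := hh m hm
      exact ⟨s, hs, h3, by rwa [pre_take X hs] at h4⟩
    · intro hh m hm
      obtain ⟨s, hs, h3, h4⟩ := hh m hm
      exact ⟨s, hs, h3, by rwa [pre_take X hs]⟩
  by_cases h3 : okk pr (pre X (n + 1)) (cX pr X n).1 (cX pr X n).2 (n + 1) = true
  · rw [if_pos h3, if_pos (h2.1 h3)]
  · rw [if_neg h3, if_neg fun h4 => h3 (h2.2 h4)]

theorem cn_pre (pr : ℕ → List Bool → Bool) (X : ℕ → Bool) (s : ℕ) :
    cn pr (pre X s) = (cX pr X s).1 := by rw [cn, cX, pre_length]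

theorem cX_mono (pr : ℕ → List Bool → Bool) (X : ℕ → Bool) {s t : ℕ} (h : s ≤ t) :
    (cX pr X s).1 ≤ (cX pr X t).1 := by
  induction h with
  | refl => exact le_rfl
  | step _ ih =>
    rw [cX_succ]
    split_ifs
    · exact ih.trans (Nat.le_succ _)
    · exact ih

theorem cX_le (pr : ℕ → List Bool → Bool) (X : ℕ → Bool) (s : ℕ) :
    (cX pr X s).1 ≤ (cX pr X s).2 ∧ (cX pr X s).2 ≤ s := by
  induction s with
  | zero => simp [cX_zero]
  | succ s ih =>
    rw [cX_succ]
    split_ifs
    · exact ⟨Nat.succ_le_succ (ih.1.trans ih.2), le_rfl⟩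
    · exact ⟨ih.1, ih.2.trans (Nat.le_succ s)⟩

theorem cn_mono (pr : ℕ → List Bool → Bool) {σ τ : List Bool} (h : σ <+: τ) :
    cn pr σ ≤ cn pr τ := by
  have hX : ∃ X : ℕ → Bool, pre X τ.length = τ := by
    refine ⟨fun n => τ.getD n false, ?_⟩
    apply List.ext_getElem?
    intro n
    by_cases hn : n < τ.length
    · rw [pre_getElem? _ hn, List.getD_eq_getElem?_getD, List.getElem?_eq_getElem hn]
      rfl
    · rw [List.getElem?_eq_none, List.getElem?_eq_none]
      · omega
      · rw [pre_length]; omega
  obtain ⟨X, hX⟩ := hX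
  have h1 : σ <+: pre X τ.length := by rw [hX]; exact h
  obtain ⟨hl, h2⟩ := (prefix_pre_iff X).1 h1
  rw [h2, ← hX, cn_pre, cn_pre]
  exact cX_mono pr X hl

/-- The count is unbounded along `X` iff every test succeeds infinitely often along `X`. -/
theorem cn_unbounded_iff {pr : ℕ → List Bool → Bool} {X : ℕ → Bool} :
    (∀ k, ∃ s, k ≤ cn pr (pre X s)) ↔ ∀ m N, ∃ s ≥ N, pr m (pre X s) = true := by
  simp only [cn_pre]
  constructor
  · intro h m N
    -- the first stage at which the count is at least `K + 1`
    let K := max m N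
    have hK : ∃ s, K + 1 ≤ (cX pr X s).1 := h (K + 1)
    classical
    let s0 := Nat.find hK
    have h0 : K + 1 ≤ (cX pr X s0).1 := Nat.find_spec hK
    have h0' : s0 ≠ 0 := by
      intro h1
      rw [h1, cX_zero] at h0
      exact absurd h0 (by simp)
    obtain ⟨n, hn⟩ := Nat.exists_eq_succ_of_ne_zero h0'
    have h1 : (cX pr X n).1 ≤ K := by
      have := Nat.find_min hK (m := n) (by show n < s0; omega)
      omega
    rw [hn, Nat.succ_eq_add_one, cX_succ] at h0
    split_ifs at h0 with hc
    · have h2 : (cX pr X n).1 = K := by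
        have : K + 1 ≤ (cX pr X n).1 + 1 := h0
        omega
      obtain ⟨s, _, hs, hp⟩ := hc m (by rw [h2]; exact le_max_left _ _)
      refine ⟨s, ?_, hp⟩
      have h3 := (cX_le pr X n).1
      have h4 : N ≤ K := le_max_right _ _
      omega
    · omega
  · intro h k
    induction k with
    | zero => exact ⟨0, Nat.zero_le _⟩
    | succ k ih =>
      obtain ⟨s, hs⟩ := ih
      by_contra hcon
      push Not at hcon
      have hk : ∀ t ≥ s, (cX pr X t).1 = k := by
        intro t ht
        have h1 := cX_mono pr X ht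
        have h2 := hcon t
        omega
      have hcc : ∀ t ≥ s, cX pr X t = cX pr X s := by
        intro t ht
        induction ht with
        | refl => rfl
        | @step t ht ih =>
          have h1 := hk t ht
          have h2 := hk (t + 1) (le_trans ht (Nat.le_succ t))
          rw [cX_succ] at h2 ⊢
          split_ifs at h2 ⊢ with hc
          · exfalso
            have : (cX pr X t).1 + 1 = k := h2
            omega
          · exact ih
      choose S hS hp using fun m => h m ((cX pr X s).2 + 1)
      let n := s + ((List.range (k + 1)).map S).sum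
      have hSn : ∀ m ≤ k, S m ≤ n := by
        intro m hm
        have : S m ≤ ((List.range (k + 1)).map S).sum :=
          List.single_le_sum (fun _ _ => Nat.zero_le _) _
            (List.mem_map.2 ⟨m, List.mem_range.2 (Nat.lt_succ_iff.2 hm), rfl⟩)
        omega
      have h3 : cX pr X (n + 1) = ((cX pr X n).1 + 1, n + 1) := by
        rw [cX_succ, if_pos]
        intro m hm
        rw [hk n (Nat.le_add_right _ _)] at hm
        refine ⟨S m, (hSn m hm).trans (Nat.le_succ n), ?_, hp m⟩
        rw [hcc n (Nat.le_add_right _ _)]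
        exact hS m
      have h4 := hk (n + 1) (by omega)
      rw [h3] at h4
      have h5 := hk n (Nat.le_add_right _ _)
      have h6 : (cX pr X n).1 + 1 = k := h4
      omega

theorem comp_cn {α : Type*} [Primcodable α] {P : α → ℕ → List Bool → Bool}
    (hP : Computable (fun x : α × (ℕ × List Bool) => P x.1 x.2.1 x.2.2))
    {σ : α → List Bool} (hσ : Computable σ) : Computable fun a => cn (P a) (σ a) := by
  have hok : Computable (fun x : α × (ℕ × (ℕ × ℕ)) =>
      okk (P x.1) (σ x.1) x.2.2.1 x.2.2.2 (x.2.1 + 1)) := by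
    refine comp_not (comp_list_any (f := fun x : α × (ℕ × (ℕ × ℕ)) => List.range (x.2.2.1 + 1))
      (g := fun x m => !((List.range (x.2.1 + 1 + 1)).any fun s =>
        decide (x.2.2.2 < s) && P x.1 m ((σ x.1).take s))) ?_ ?_)
    · exact comp_range (Computable.succ.comp (Computable.fst.comp
        (Computable.snd.comp Computable.snd)))
    · refine comp_not (comp_list_any
        (f := fun y : (α × (ℕ × (ℕ × ℕ))) × ℕ => List.range (y.1.2.1 + 1 + 1))
        (g := fun y s => decide (y.1.2.2.2 < s) && P y.1.1 y.2 ((σ y.1.1).take s)) ?_ ?_)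
      · exact comp_range (Computable.succ.comp (Computable.succ.comp (Computable.fst.comp
          (Computable.snd.comp Computable.fst))))
      · refine comp_and (comp_decLt ?_ Computable.snd) ?_
        · exact Computable.snd.comp (Computable.snd.comp (Computable.snd.comp
            (Computable.fst.comp Computable.fst)))
        · have h1 : Computable (fun z : ((α × (ℕ × (ℕ × ℕ))) × ℕ) × ℕ => z.1.1.1) :=
            Computable.fst.comp (Computable.fst.comp Computable.fst)
          have h2 : Computable (fun z : ((α × (ℕ × (ℕ × ℕ))) × ℕ) × ℕ =>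
              (z.1.1.1, (z.1.2, (σ z.1.1.1).take z.2))) :=
            h1.pair ((Computable.snd.comp Computable.fst).pair
              (comp_take Computable.snd (hσ.comp h1)))
          exact Computable.comp (f := fun x : α × (ℕ × List Bool) => P x.1 x.2.1 x.2.2)
            (g := fun z : ((α × (ℕ × (ℕ × ℕ))) × ℕ) × ℕ =>
              (z.1.1.1, (z.1.2, (σ z.1.1.1).take z.2))) hP h2
  have h := Computable.nat_rec (f := fun a => (σ a).length) (g := fun _ : α => ((0, 0) : ℕ × ℕ))
    (h := fun a p => if okk (P a) (σ a) p.2.1 p.2.2 (p.1 + 1) then (p.2.1 + 1, p.1 + 1) else p.2)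
    (Computable.list_length.comp hσ) (Computable.const (0, 0)) ?_
  · refine (Computable.fst.comp h).of_eq fun a => ?_
    show (Nat.rec (0, 0) (fun y IH => if okk (P a) (σ a) IH.1 IH.2 (y + 1) then
      (IH.1 + 1, y + 1) else IH) (σ a).length : ℕ × ℕ).1 = cn (P a) (σ a)
    rw [cn]
    congr 1
    induction (σ a).length with
    | zero => rfl
    | succ n ih => rw [cnn, ← ih]
  · exact comp_ite (c := fun x : α × (ℕ × (ℕ × ℕ)) =>
      okk (P x.1) (σ x.1) x.2.2.1 x.2.2.2 (x.2.1 + 1)) hok
      (Computable.pair (Computable.succ.comp (Computable.fst.comp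
        (Computable.snd.comp Computable.snd))) (Computable.succ.comp
        (Computable.fst.comp Computable.snd)))
      (Computable.snd.comp Computable.snd)

end Pool.Agent.AEI
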