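import Mathlib
import Pool.Agent.AEI.GLU

/-!
Gluing: verification along an oracle.
-/

set_option autoImplicit false

namespace Pool.Agent.AEI

open Encodable Nat.Partrec Pool.Agent.H19

section

variable (g : ℕ → List Bool → ℕ) (v : ℕ → ℕ → List Bool → Bool) (X : ℕ → Bool)

/-- The element with item `t`, restart time `R` and index `x` enters `B` at stage `r`. -/
def BPr (t R x r : ℕ) : Prop :=
  ac (att g v) X r = t + 1 ∧ Rt (att g v) X t r = R ∧
    ((t % 3 = 1 ∧ x = 0) ∨ (t % 3 = 2 ∧ x < r ∧ v (t / 3) x (pre X r) = true))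

/-- The set `B` along `X`. -/
def BP (b : ℕ) : Prop := ∃ r, BPr g v X b.unpair.1 b.unpair.2.unpair.1 b.unpair.2.unpair.2 r

/-- The element with item `t`, restart time `R` and index `x` enters `C` at stage `r`. -/
def CPr (t R x r : ℕ) : Prop :=
  ac (att g v) X r = t + 1 ∧ Rt (att g v) X t r = R ∧ (t % 3 = 0 ∧ x = 0)

/-- The set `C` along `X`. -/
def CP (b : ℕ) : Prop := ∃ r, CPr g v X b.unpair.1 b.unpair.2.unpair.1 b.unpair.2.unpair.2 r

open Classical in
/-- The set `B` as a sequence. -/
noncomputable def BB (b : ℕ) : Bool := decide (BP g v X b)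

open Classical in
/-- The set `C` as a sequence. -/
noncomputable def CC (b : ℕ) : Bool := decide (CP g v X b)

/-- The operator. -/
noncomputable def WW : ℕ → Bool := jn X (BB g v X)

end

variable {g : ℕ → List Bool → ℕ} {v : ℕ → ℕ → List Bool → Bool} {X : ℕ → Bool}

theorem BB_iff {b : ℕ} : BB g v X b = true ↔ BP g v X b := by simp [BB]

theorem CC_iff {b : ℕ} : CC g v X b = true ↔ CP g v X b := by simp [CC]

theorem BP_elt {t R x : ℕ} : BP g v X (elt t R x) ↔ ∃ r, BPr g v X t R x r := by simp [BP, elt]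

theorem CP_elt {t R x : ℕ} : CP g v X (elt t R x) ↔ ∃ r, CPr g v X t R x r := by simp [CP, elt]

theorem putB_iff {b r s : ℕ} (h : r < s) :
    putB v (hst (att g v) (pre X s)) (pre X s) b r = true ↔
      BPr g v X b.unpair.1 b.unpair.2.unpair.1 b.unpair.2.unpair.2 r := by
  rw [putB, hst_pre_getD X h, hst_pre_take X h.le, pre_take X h.le]
  simp only [Bool.and_eq_true, Bool.or_eq_true, decide_eq_true_eq]
  exact Iff.rfl

theorem inB_iff {b s : ℕ} : inB v (hst (att g v) (pre X s)) (pre X s) b = true ↔
    ∃ r < s, BPr g v X b.unpair.1 b.unpair.2.unpair.1 b.unpair.2.unpair.2 r := by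
  rw [inB, List.any_eq_true]
  simp only [List.mem_range, hst_pre_length]
  constructor
  · rintro ⟨r, hr, h⟩
    exact ⟨r, hr, (putB_iff hr).1 h⟩
  · rintro ⟨r, hr, h⟩
    exact ⟨r, hr, (putB_iff hr).2 h⟩

theorem putC_iff {b r s : ℕ} (h : r < s) :
    putC (hst (att g v) (pre X s)) b r = true ↔
      CPr g v X b.unpair.1 b.unpair.2.unpair.1 b.unpair.2.unpair.2 r := by
  rw [putC, hst_pre_getD X h, hst_pre_take X h.le]
  simp only [Bool.and_eq_true, decide_eq_true_eq]
  exact Iff.rfl

theorem inC_iff {b s : ℕ} : inC (hst (att g v) (pre X s)) b = true ↔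
    ∃ r < s, CPr g v X b.unpair.1 b.unpair.2.unpair.1 b.unpair.2.unpair.2 r := by
  rw [inC, List.any_eq_true]
  simp only [List.mem_range, hst_pre_length]
  constructor
  · rintro ⟨r, hr, h⟩
    exact ⟨r, hr, (putC_iff hr).1 h⟩
  · rintro ⟨r, hr, h⟩
    exact ⟨r, hr, (putC_iff hr).2 h⟩

theorem BP_iff {b : ℕ} : BP g v X b ↔ ∃ s, inB v (hst (att g v) (pre X s)) (pre X s) b = true := by
  constructor
  · rintro ⟨r, hr⟩
    exact ⟨r + 1, inB_iff.2 ⟨r, Nat.lt_succ_self r, hr⟩⟩
  · rintro ⟨s, hs⟩
    obtain ⟨r, -, hr⟩ := inB_iff.1 hs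
    exact ⟨r, hr⟩

theorem CP_iff {b : ℕ} : CP g v X b ↔ ∃ s, inC (hst (att g v) (pre X s)) b = true := by
  constructor
  · rintro ⟨r, hr⟩
    exact ⟨r + 1, inC_iff.2 ⟨r, Nat.lt_succ_self r, hr⟩⟩
  · rintro ⟨s, hs⟩
    obtain ⟨r, -, hr⟩ := inC_iff.1 hs
    exact ⟨r, hr⟩

theorem inB_mono {b s s' : ℕ} (h : s ≤ s')
    (hb : inB v (hst (att g v) (pre X s)) (pre X s) b = true) :
    inB v (hst (att g v) (pre X s')) (pre X s') b = true := by
  obtain ⟨r, hr, h1⟩ := inB_iff.1 hb
  exact inB_iff.2 ⟨r, lt_of_lt_of_le hr h, h1⟩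

theorem js_length {H : List ℕ} {σ : List Bool} : (js v H σ).length = H.length := by simp [js]

theorem js_getElem? {s m : ℕ} (h : m < s) :
    (js v (hst (att g v) (pre X s)) (pre X s))[m]? =
      some (if m % 2 = 0 then X (m / 2) else
        inB v (hst (att g v) (pre X s)) (pre X s) (m / 2)) := by
  rw [js, List.getElem?_map, List.getElem?_range (by rw [hst_pre_length]; exact h),
    Option.map_some]
  by_cases hm : m % 2 = 0
  · simp only [hm, decide_true, if_true]
    rw [pre_getD X (by omega)]
  · simp only [hm, decide_false, if_false, Bool.false_eq_true]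

/-- The approximation is correct up to `u` if no element below `u / 2` is missing. -/
theorem js_take {s u : ℕ} (hu : u ≤ s) (h : ∀ b, 2 * b + 1 < u → BP g v X b →
    inB v (hst (att g v) (pre X s)) (pre X s) b = true) :
    (js v (hst (att g v) (pre X s)) (pre X s)).take u = pre (WW g v X) u := by
  apply List.ext_getElem?
  intro m
  by_cases hm : m < u
  · rw [List.getElem?_take_of_lt hm, js_getElem? (lt_of_lt_of_le hm hu), pre_getElem? _ hm]
    congr 1
    rw [WW, jn]
    by_cases hm2 : m % 2 = 0
    · rw [if_pos hm2, if_pos hm2]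
    · rw [if_neg hm2, if_neg hm2, Bool.eq_iff_iff, BB_iff]
      constructor
      · intro h1
        exact BP_iff.2 ⟨s, h1⟩
      · intro h1
        exact h _ (by omega) h1
  · rw [List.getElem?_eq_none, List.getElem?_eq_none]
    · rw [pre_length]; omega
    · rw [List.length_take]; omega

/-- Every true initial segment of `X ⊕ B` is eventually an initial segment of the
approximation. -/
theorem exists_js (u : ℕ) : ∃ s0, ∀ s ≥ s0,
    pre (WW g v X) u <+: js v (hst (att g v) (pre X s)) (pre X s) := by
  have h1 : ∃ s0, ∀ b < u, BP g v X b → ∀ s ≥ s0,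
      inB v (hst (att g v) (pre X s)) (pre X s) b = true := by
    induction u with
    | zero => exact ⟨0, fun b hb => absurd hb (Nat.not_lt_zero b)⟩
    | succ u ih =>
      obtain ⟨s0, h0⟩ := ih
      by_cases hb : BP g v X u
      · obtain ⟨s1, h1⟩ := BP_iff.1 hb
        refine ⟨max s0 s1, fun b hb hB s hs => ?_⟩
        rcases Nat.lt_succ_iff_lt_or_eq.1 hb with hb | rfl
        · exact h0 b hb hB s ((le_max_left _ _).trans hs)
        · exact inB_mono ((le_max_right _ _).trans hs) h1
      · refine ⟨s0, fun b hb' hB s hs => ?_⟩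
        rcases Nat.lt_succ_iff_lt_or_eq.1 hb' with hb' | rfl
        · exact h0 b hb' hB s hs
        · exact absurd hB hb
  obtain ⟨s0, h0⟩ := h1
  refine ⟨max s0 u, fun s hs => ?_⟩
  have h2 := js_take (g := g) (v := v) (X := X) ((le_max_right s0 u).trans hs) fun b hb hB =>
    h0 b (by omega) hB s ((le_max_left _ _).trans hs)
  rw [← h2]
  exact List.take_prefix _ _

/-- The approximation at an action of a non-enumerating item is correct, if no smaller item
acts later. -/
theorem js_true {t r : ℕ} (hr : ac (att g v) X r = t + 1) (ht : t % 3 = 0)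
    (hq : Quiet (att g v) X t r) :
    js v (hst (att g v) (pre X r)) (pre X r) = pre (WW g v X) r := by
  have h1 := js_take (g := g) (v := v) (X := X) (s := r) (u := r) le_rfl ?_
  · rw [List.take_of_length_le] at h1
    · exact h1
    · rw [js_length, hst_pre_length]
  · intro b hb hB
    obtain ⟨r', h2⟩ := hB
    refine inB_iff.2 ⟨r', ?_, h2⟩
    by_contra hcon
    push Not at hcon
    obtain ⟨h3, h4, h5⟩ := h2
    set t' := b.unpair.1
    rcases lt_trichotomy t' t with hlt | heq | hlt
    · exact hq r' hcon ⟨by omega, by omega⟩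
    · omega
    · have h6 : r ≠ r' := by
        rintro rfl
        omega
      have h7 := lt_Rt_of_ac hr hlt (lt_of_le_of_ne hcon h6)
      rw [h4] at h7
      have h8 : b.unpair.2.unpair.1 ≤ b :=
        (Nat.unpair_left_le _).trans (Nat.unpair_right_le _)
      omega

/-- The final restart time. -/
theorem quiet_of_act {t s0 r : ℕ} (hq : Quiet (att g v) X t s0)
    (h : Rt (att g v) X t r = Rt (att g v) X t s0) : Quiet (att g v) X t r := by
  intro s hs
  rcases le_total s0 s with h1 | h1
  · exact hq s h1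
  · rcases h1.lt_or_eq with h1 | rfl
    · exact quiet_of_Rt_eq h hs h1
    · exact hq s le_rfl

/-- Items all of whose smaller guards are bounded act finitely often. -/
theorem finAct_all {t : ℕ} (hb : ∀ k, 3 * k + 2 < t → ∃ b, ∀ s, g k (pre X s) ≤ b) :
    ∀ t' < t, FinAct (att g v) X t' := by
  intro t'
  induction t' using Nat.strong_induction_on with
  | _ t' ih =>
    intro ht'
    obtain ⟨s0, h0⟩ := exists_quiet fun u hu => ih u hu (hu.trans ht')
    by_cases h1 : t' % 3 = 0
    · refine finAct_of_bound (b := 1) h0 fun s _ hs => ?_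
      rw [att, if_pos (by simpa using h1), Bool.and_eq_true, decide_eq_true_eq] at hs
      have : Ct (att g v) X t' s = 0 := hs.1
      omega
    · by_cases h2 : t' % 3 = 1
      · refine finAct_of_bound (b := 1) h0 fun s _ hs => ?_
        rw [att, if_neg (by simpa using h1), if_pos (by simpa using h2), Bool.and_eq_true,
          decide_eq_true_eq] at hs
        have : Ct (att g v) X t' s = 0 := hs.1
        omega
      · obtain ⟨b, hb⟩ := hb (t' / 3) (by omega)
        refine finAct_of_bound (b := b) h0 fun s _ hs => ?_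
        rw [att, if_neg (by simpa using h1), if_neg (by simpa using h2),
          decide_eq_true_eq] at hs
        exact lt_of_lt_of_le hs (hb s)

/-- `B` is not computed from `X` by the code of the item `t`. -/
theorem not_B {t : ℕ} (ht : t % 3 = 1) (hf : ∀ t' < t, FinAct (att g v) X t') :
    ¬ CodeComputes (Denumerable.ofNat Code (t / 3)) X (BB g v X) := by
  intro hc
  obtain ⟨s0, h0⟩ := exists_quiet hf
  set R := Rt (att g v) X t s0 with hR
  have ht0 : ¬ t % 3 = 0 := by omega
  by_cases hb : BP g v X (elt t R 0)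
  · obtain ⟨r, h1, h2, -⟩ := BP_elt.1 hb
    have h3 := (ac_att h1).2.1
    rw [att, if_neg (by simpa using ht0), if_pos (by simpa using ht), Bool.and_eq_true] at h3
    have h4 := h3.2
    rw [show (rc t (hst (att g v) (pre X r))).1 = R from h2] at h4
    obtain ⟨k, hk⟩ := exists_hit.2 ⟨r, h4⟩
    have h5 := hc.1 _ _ _ hk
    rw [if_pos (BB_iff.2 hb)] at h5
    exact absurd h5 (by omega)
  · have h1 : BB g v X (elt t R 0) = false := by
      rw [← Bool.not_eq_true, BB_iff]; exact hb
    obtain ⟨k, hk⟩ := exists_hit.1 (hc.2 (elt t R 0))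
    rw [h1] at hk
    simp only [Bool.false_eq_true, if_false] at hk
    set s := max (max s0 t) k with hs
    have hs0 : s0 ≤ s := (le_max_left _ _).trans (le_max_left _ _)
    have hts : t ≤ s := (le_max_right _ _).trans (le_max_left _ _)
    have hks : k ≤ s := le_max_right _ _
    have hRs : Rt (att g v) X t s = R := h0.Rt_eq hs0
    rcases Nat.eq_zero_or_pos (Ct (att g v) X t s) with hz | hp
    · have ha : att g v t (hst (att g v) (pre X s)) (pre X s) = true := by
        rw [att, if_neg (by simpa using ht0), if_pos (by simpa using ht), Bool.and_eq_true,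
          decide_eq_true_eq]
        refine ⟨hz, ?_⟩
        rw [show (rc t (hst (att g v) (pre X s))).1 = R from hRs]
        exact hit_mono (pre_mono X hks) hk
      have h2 := h0.acts hs0 hts ha
      exact hb (BP_elt.2 ⟨s, h2, hRs, Or.inl ⟨ht, rfl⟩⟩)
    · obtain ⟨r, -, h2, h3, -⟩ := exists_act (att := att g v) X t s 0 hp
      exact hb (BP_elt.2 ⟨r, h2, by rw [h3, hRs], Or.inl ⟨ht, rfl⟩⟩)

/-- `C` is not computed from `W` by the code of the item `t`. -/
theorem not_C {t : ℕ} (ht : t % 3 = 0) (hf : ∀ t' < t, FinAct (att g v) X t') :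
    ¬ CodeComputes (Denumerable.ofNat Code (t / 3)) (WW g v X) (CC g v X) := by
  intro hc
  obtain ⟨s0, h0⟩ := exists_quiet hf
  set R := Rt (att g v) X t s0 with hR
  by_cases hb : CP g v X (elt t R 0)
  · obtain ⟨r, h1, h2, -⟩ := CP_elt.1 hb
    have h3 := (ac_att h1).2.1
    rw [att, if_pos (by simpa using ht), Bool.and_eq_true] at h3
    have h4 := h3.2
    rw [show (rc t (hst (att g v) (pre X r))).1 = R from h2,
      js_true h1 ht (quiet_of_act h0 (h2.trans hR))] at h4
    obtain ⟨k, hk⟩ := exists_hit.2 ⟨r, h4⟩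
    have h5 := hc.1 _ _ _ hk
    rw [if_pos (CC_iff.2 hb)] at h5
    exact absurd h5 (by omega)
  · have h1 : CC g v X (elt t R 0) = false := by
      rw [← Bool.not_eq_true, CC_iff]; exact hb
    obtain ⟨k, hk⟩ := exists_hit.1 (hc.2 (elt t R 0))
    rw [h1] at hk
    simp only [Bool.false_eq_true, if_false] at hk
    obtain ⟨s1, hs1⟩ := exists_js (g := g) (v := v) (X := X) k
    set s := max (max s0 t) s1 with hs
    have hs0 : s0 ≤ s := (le_max_left _ _).trans (le_max_left _ _)
    have hts : t ≤ s := (le_max_right _ _).trans (le_max_left _ _)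
    have hks : s1 ≤ s := le_max_right _ _
    have hRs : Rt (att g v) X t s = R := h0.Rt_eq hs0
    rcases Nat.eq_zero_or_pos (Ct (att g v) X t s) with hz | hp
    · have ha : att g v t (hst (att g v) (pre X s)) (pre X s) = true := by
        rw [att, if_pos (by simpa using ht), Bool.and_eq_true, decide_eq_true_eq]
        refine ⟨hz, ?_⟩
        rw [show (rc t (hst (att g v) (pre X s))).1 = R from hRs]
        exact hit_mono (hs1 s hks) hk
      have h2 := h0.acts hs0 hts ha
      exact hb (CP_elt.2 ⟨s, h2, hRs, ht, rfl⟩)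
    · obtain ⟨r, -, h2, h3, -⟩ := exists_act (att := att g v) X t s 0 hp
      exact hb (CP_elt.2 ⟨r, h2, by rw [h3, hRs], ht, rfl⟩)

theorem not_WW_le (hb : ∀ k, ∃ b, ∀ s, g k (pre X s) ≤ b) :
    ¬ TuringReducible (chi (WW g v X)) (chi X) := by
  intro h
  obtain ⟨c, hc⟩ := turingReducible_iff.1 ((right_le_jn X (BB g v X)).trans h)
  refine not_B (g := g) (v := v) (X := X) (t := 3 * encode c + 1) (by omega)
    (finAct_all fun k _ => hb k) ?_
  rw [show (3 * encode c + 1) / 3 = encode c by omega, Denumerable.ofNat_encode]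
  exact hc

theorem not_CC_le (hb : ∀ k, ∃ b, ∀ s, g k (pre X s) ≤ b) :
    ¬ TuringReducible (chi (CC g v X)) (chi (WW g v X)) := by
  intro h
  obtain ⟨c, hc⟩ := turingReducible_iff.1 h
  refine not_C (g := g) (v := v) (X := X) (t := 3 * encode c) (by omega)
    (finAct_all fun k _ => hb k) ?_
  rw [show (3 * encode c) / 3 = encode c by omega, Denumerable.ofNat_encode]
  exact hc

end Pool.Agent.AEI
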