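import Mathlib
import Pool.Agent.AEI.GLV

/-!
Gluing: the case of an unbounded guard, and the gluing theorem.
-/

set_option autoImplicit false

namespace Pool.Agent.AEI

open Encodable Nat.Partrec Pool.Agent.H19

variable {g : ℕ → List Bool → ℕ} {v : ℕ → ℕ → List Bool → Bool} {X : ℕ → Bool}

open Classical in
/-- The set enumerated by the test `v k` from the oracle `X`. -/
noncomputable def VV (v : ℕ → ℕ → List Bool → Bool) (k : ℕ) (X : ℕ → Bool) : ℕ → Bool :=
  fun x => decide (∃ s, v k x (pre X s) = true)

theorem VV_iff {k x : ℕ} : VV v k X x = true ↔ ∃ s, v k x (pre X s) = true := by simp [VV]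

/-- The item of an unbounded guard acts infinitely often. -/
theorem not_finAct (hgm : ∀ k σ τ, σ <+: τ → g k σ ≤ g k τ) {k : ℕ}
    (hb : ∀ k' < k, ∃ b, ∀ s, g k' (pre X s) ≤ b) (hu : ∀ n, ∃ s, n ≤ g k (pre X s)) :
    ¬ FinAct (att g v) X (3 * k + 2) := by
  rintro ⟨s1, h1⟩
  obtain ⟨s0, h0⟩ := exists_quiet (att := att g v) (X := X) (t := 3 * k + 2)
    (finAct_all fun k' hk' => hb k' (by omega))
  set t := 3 * k + 2 with ht
  set a := max s0 s1 with ha
  have hcc : ∀ s ≥ a, Ct (att g v) X t s = Ct (att g v) X t a := by
    intro s hs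
    induction hs with
    | refl => rfl
    | @step s hs ih =>
      rw [h0.Ct_succ (le_trans (le_max_left _ _) hs),
        if_neg (h1 s (le_trans (le_max_right _ _) hs)), ih]
  obtain ⟨m, hm⟩ := hu (Ct (att g v) X t a + 1)
  set s := max (max a t) m with hs
  have hs0 : a ≤ s := (le_max_left _ _).trans (le_max_left _ _)
  have hts : t ≤ s := (le_max_right _ _).trans (le_max_left _ _)
  have hms : m ≤ s := le_max_right _ _
  have h2 : att g v t (hst (att g v) (pre X s)) (pre X s) = true := by
    rw [att, if_neg (by simp; omega), if_neg (by simp; omega), decide_eq_true_eq]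
    have h3 : (rc t (hst (att g v) (pre X s))).2 = Ct (att g v) X t s := rfl
    have h4 : t / 3 = k := by omega
    rw [h3, hcc s hs0, h4]
    exact lt_of_lt_of_le (Nat.lt_succ_self _) (hm.trans (hgm k _ _ (pre_mono X hms)))
  exact h1 s ((le_max_right _ _).trans hs0) (h0.acts ((le_max_left _ _).trans hs0) hts h2)

/-- The elements of the true restart time of an unbounded guard. -/
theorem BP_true (hvm : ∀ k x σ τ, σ <+: τ → v k x σ = true → v k x τ = true)
    {k s0 : ℕ} (h0 : Quiet (att g v) X (3 * k + 2) s0)
    (hi : ¬ FinAct (att g v) X (3 * k + 2)) (x : ℕ) :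
    BP g v X (elt (3 * k + 2) (Rt (att g v) X (3 * k + 2) s0) x) ↔
      ∃ s, v k x (pre X s) = true := by
  have hd : (3 * k + 2) / 3 = k := by omega
  constructor
  · intro h
    obtain ⟨r, -, -, h3⟩ := BP_elt.1 h
    rcases h3 with ⟨h3, -⟩ | ⟨-, -, h3⟩
    · omega
    · rw [hd] at h3
      exact ⟨r, h3⟩
  · rintro ⟨s, hs⟩
    have : ∃ r ≥ max (max s0 s) (x + 1), ac (att g v) X r = 3 * k + 2 + 1 := by
      by_contra hc
      push Not at hc
      exact hi ⟨_, hc⟩
    obtain ⟨r, hr, h1⟩ := this
    have hr0 : s0 ≤ r := (le_max_left _ _).trans ((le_max_left _ _).trans hr)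
    have hr1 : s ≤ r := (le_max_right _ _).trans ((le_max_left _ _).trans hr)
    have hr2 : x + 1 ≤ r := (le_max_right _ _).trans hr
    refine BP_elt.2 ⟨r, h1, h0.Rt_eq hr0, Or.inr ⟨by omega, by omega, ?_⟩⟩
    rw [hd]
    exact hvm k x _ _ (pre_mono X hr1) hs

/-- Only finitely many elements are put into `B` before a given stage. -/
theorem finite_before (s0 : ℕ) :
    {b : ℕ | ∃ r < s0, BPr g v X b.unpair.1 b.unpair.2.unpair.1 b.unpair.2.unpair.2 r}.Finite := by
  have h1 : {b : ℕ | ∃ r < s0, BPr g v X b.unpair.1 b.unpair.2.unpair.1 b.unpair.2.unpair.2 r} ⊆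
      ⋃ r ∈ Finset.range s0, (fun x => elt (ac (att g v) X r - 1)
        (Rt (att g v) X (ac (att g v) X r - 1) r) x) '' {x | x ≤ r} := by
    rintro b ⟨r, hr, h1, h2, h3⟩
    rw [Set.mem_iUnion₂]
    refine ⟨r, Finset.mem_range.2 hr, b.unpair.2.unpair.2, ?_, ?_⟩
    · rw [Set.mem_ofPred_eq]; omega
    · simp only
      rw [h1, Nat.add_sub_cancel, h2]
      simp [elt]
  refine Set.Finite.subset ?_ h1
  refine Set.Finite.biUnion (Finset.finite_toSet _) fun r _ => ?_
  exact (Set.finite_le_nat r).image _

/-- In the case of an unbounded guard the operator is the join with the set of this guard. -/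
theorem WW_le (hg : Computable₂ g)
    (hv : Computable (fun x : ℕ × (ℕ × List Bool) => v x.1 x.2.1 x.2.2))
    (hgm : ∀ k σ τ, σ <+: τ → g k σ ≤ g k τ)
    (hvm : ∀ k x σ τ, σ <+: τ → v k x σ = true → v k x τ = true) {k : ℕ}
    (hb : ∀ k' < k, ∃ b, ∀ s, g k' (pre X s) ≤ b) (hu : ∀ n, ∃ s, n ≤ g k (pre X s)) :
    TuringReducible (chi (WW g v X)) (chi (jn X (VV v k X))) := by
  classical
  obtain ⟨s0, h0⟩ := exists_quiet (att := att g v) (X := X) (t := 3 * k + 2)
    (finAct_all fun k' hk' => hb k' (by omega))
  have hi := not_finAct (v := v) hgm hb hu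
  set t0 := 3 * k + 2 with ht0
  set R0 := Rt (att g v) X t0 s0 with hR0
  -- the finite list of exceptional elements
  let L : List ℕ := (finite_before (g := g) (v := v) (X := X) s0).toFinset.toList
  have hL : ∀ b, b ∈ L ↔ ∃ r < s0,
      BPr g v X b.unpair.1 b.unpair.2.unpair.1 b.unpair.2.unpair.2 r := fun b => by simp [L]
  have hexc : ∀ b : ℕ, (b.unpair.1 < t0 ∨ (b.unpair.1 = t0 ∧ b.unpair.2.unpair.1 ≠ R0)) →
      (BP g v X b ↔ b ∈ L) := by
    intro b hbt
    rw [hL]
    constructor
    · rintro ⟨r, h1⟩
      refine ⟨r, ?_, h1⟩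
      by_contra hcon
      push Not at hcon
      rcases hbt with h2 | ⟨h2, h3⟩
      · have h4 := h1.1
        exact h0 r hcon ⟨by omega, by omega⟩
      · have h4 := h1.2.1
        rw [h2] at h4
        exact h3 (h4.symm.trans (h0.Rt_eq hcon))
    · rintro ⟨r, -, h1⟩
      exact ⟨r, h1⟩
  have hlate : ∀ b : ℕ, t0 < b.unpair.1 → ∀ r1, b ≤ r1 → ac (att g v) X r1 = t0 + 1 →
      (BP g v X b ↔ ∃ r < r1 + 1, BPr g v X b.unpair.1 b.unpair.2.unpair.1 b.unpair.2.unpair.2 r)
      := by
    intro b hbt r1 hbr hr1
    constructor
    · rintro ⟨r, h1⟩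
      refine ⟨r, ?_, h1⟩
      by_contra hcon
      push Not at hcon
      have h2 := lt_Rt_of_ac hr1 hbt (show r1 < r by omega)
      rw [h1.2.1] at h2
      have h3 : b.unpair.2.unpair.1 ≤ b :=
        (Nat.unpair_left_le _).trans (Nat.unpair_right_le _)
      omega
    · rintro ⟨r, -, h1⟩
      exact ⟨r, h1⟩
  -- the computation
  let ev : List Bool → List Bool := fun σ =>
    (List.range (σ.length / 2)).map fun i => σ.getD (2 * i) false
  have hev : Computable ev := by
    refine comp_list_map (g := fun (σ : List Bool) i => σ.getD (2 * i) false)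
      (comp_range (comp_div Computable.list_length (Computable.const 2))) ?_
    exact comp_getD Computable.fst (comp_two_mul.comp Computable.snd)
  have hevX : ∀ s, ev (pre (jn X (VV v k X)) s) = pre X (s / 2) := by
    intro s
    simp only [ev, pre_length]
    refine List.map_congr_left fun i hi => ?_
    rw [List.mem_range] at hi
    rw [pre_getD _ (by omega : 2 * i < s), jn_even]
  let Hs : List Bool → List ℕ := fun σ => hst (att g v) (ev σ)
  have hHs : Computable Hs := by
    refine comp_hst (α := List Bool) (A := fun _ => att g v) ?_ hev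
    exact comp_att hg hv (Computable.fst.comp Computable.snd)
      (Computable.fst.comp (Computable.snd.comp Computable.snd))
      (Computable.snd.comp (Computable.snd.comp Computable.snd))
  let F : ℕ → List Bool → Option Bool := fun n σ =>
    if decide (n % 2 = 0) then σ[n]?
    else if decide ((n / 2).unpair.1 < t0) ||
        (decide ((n / 2).unpair.1 = t0) && !decide ((n / 2).unpair.2.unpair.1 = R0)) then
      some (L.any fun x => decide (x = n / 2))
    else if decide ((n / 2).unpair.1 = t0) then σ[2 * (n / 2).unpair.2.unpair.2 + 1]?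
    else if (List.range (Hs σ).length).any fun r =>
        decide (n / 2 ≤ r) && decide ((Hs σ).getD r 0 = t0 + 1) then
      some (inB v (Hs σ) (ev σ) (n / 2))
    else none
  have hF : Computable₂ F := by
    have hd : Computable (fun x : ℕ × List Bool => x.1 / 2) :=
      comp_div Computable.fst (Computable.const 2)
    have hd1 : Computable (fun x : ℕ × List Bool => (x.1 / 2).unpair.1) :=
      Computable.fst.comp (Computable.unpair.comp hd)
    have hd2 : Computable (fun x : ℕ × List Bool => (x.1 / 2).unpair.2.unpair.1) :=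
      Computable.fst.comp (Computable.unpair.comp (Computable.snd.comp
        (Computable.unpair.comp hd)))
    have hd3 : Computable (fun x : ℕ × List Bool => (x.1 / 2).unpair.2.unpair.2) :=
      Computable.snd.comp (Computable.unpair.comp (Computable.snd.comp
        (Computable.unpair.comp hd)))
    have hH2 : Computable (fun x : ℕ × List Bool => Hs x.2) := hHs.comp Computable.snd
    refine comp_ite (c := fun x : ℕ × List Bool => decide (x.1 % 2 = 0))
      (comp_decEq (comp_mod Computable.fst (Computable.const 2)) (Computable.const 0))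
      (Computable.list_getElem?.comp Computable.snd Computable.fst) ?_
    refine comp_ite (c := fun x : ℕ × List Bool => decide ((x.1 / 2).unpair.1 < t0) ||
        (decide ((x.1 / 2).unpair.1 = t0) && !decide ((x.1 / 2).unpair.2.unpair.1 = R0)))
      (comp_or (comp_decLt hd1 (Computable.const t0)) (comp_and (comp_decEq hd1
        (Computable.const t0)) (comp_not (comp_decEq hd2 (Computable.const R0))))) ?_ ?_
    · refine Computable.option_some.comp ?_
      exact comp_list_any (f := fun _ : ℕ × List Bool => L)
        (g := fun (x : ℕ × List Bool) y => decide (y = x.1 / 2)) (Computable.const L)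
        (comp_decEq Computable.snd (hd.comp Computable.fst))
    refine comp_ite (c := fun x : ℕ × List Bool => decide ((x.1 / 2).unpair.1 = t0))
      (comp_decEq hd1 (Computable.const t0))
      (Computable.list_getElem?.comp Computable.snd
        (Computable.succ.comp (comp_two_mul.comp hd3))) ?_
    refine comp_ite (c := fun x : ℕ × List Bool => (List.range (Hs x.2).length).any fun r =>
        decide (x.1 / 2 ≤ r) && decide ((Hs x.2).getD r 0 = t0 + 1)) ?_ ?_
      (Computable.const none)
    · refine comp_list_any (f := fun x : ℕ × List Bool => List.range (Hs x.2).length)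
        (g := fun (x : ℕ × List Bool) r =>
          decide (x.1 / 2 ≤ r) && decide ((Hs x.2).getD r 0 = t0 + 1))
        (comp_range (Computable.list_length.comp hH2)) ?_
      exact comp_and (comp_decLe (hd.comp Computable.fst) Computable.snd)
        (comp_decEq (comp_getD_nat (hH2.comp Computable.fst) Computable.snd)
          (Computable.const (t0 + 1)))
    · exact Computable.option_some.comp (comp_inB hv hH2 (hev.comp Computable.snd) hd)
  have hHX : ∀ s, Hs (pre (jn X (VV v k X)) s) = hst (att g v) (pre X (s / 2)) := fun s => by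
    simp only [Hs, hevX]
  refine red_of_option hF ?_ ?_
  · intro n s b hb
    simp only [F, hHX, hevX, hst_pre_length] at hb
    by_cases hn : n % 2 = 0
    · simp only [hn, decide_true, if_true] at hb
      rw [List.getElem?_eq_some_iff] at hb
      obtain ⟨h1, h2⟩ := hb
      have h3 := h1
      rw [pre_length] at h3
      have h4 := pre_getElem? (jn X (VV v k X)) h3
      rw [List.getElem?_eq_getElem h1, h2] at h4
      simp only [Option.some.injEq] at h4
      rw [h4, jn, WW, jn, if_pos hn, if_pos hn]
    · have hW : WW g v X n = BB g v X (n / 2) := by rw [WW, jn, if_neg hn]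
      simp only [hn, decide_false, if_false, Bool.false_eq_true] at hb
      rw [hW]
      split_ifs at hb with h1 h2 h3
      · simp only [Option.some.injEq] at hb
        have h4 : (n / 2).unpair.1 < t0 ∨
            ((n / 2).unpair.1 = t0 ∧ (n / 2).unpair.2.unpair.1 ≠ R0) := by
          simpa using h1
        rw [← hb, Bool.eq_iff_iff, BB_iff, hexc _ h4, List.any_eq_true]
        constructor
        · rintro ⟨x, hx, hxn⟩
          rw [decide_eq_true_eq] at hxn
          subst hxn
          exact hx
        · intro hx
          exact ⟨_, hx, by simp⟩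
      · have h4 : (n / 2).unpair.1 = t0 := by simpa using h2
        have h5 : (n / 2).unpair.2.unpair.1 = R0 := by
          by_contra hc
          apply h1
          simp [h4, hc]
        rw [List.getElem?_eq_some_iff] at hb
        obtain ⟨h6, h7⟩ := hb
        have h8 := h6
        rw [pre_length] at h8
        have h9 := pre_getElem? (jn X (VV v k X)) h8
        rw [List.getElem?_eq_getElem h6, h7, jn_odd] at h9
        simp only [Option.some.injEq] at h9
        rw [h9, Bool.eq_iff_iff, VV_iff, BB_iff]
        have h10 := BP_true hvm h0 hi (n / 2).unpair.2.unpair.2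
        rw [← h10]
        have h11 : n / 2 = elt t0 R0 (n / 2).unpair.2.unpair.2 := by
          rw [← h4, ← h5]; simp [elt]
        rw [← h11]
      · simp only [Option.some.injEq] at hb
        have h4 : t0 < (n / 2).unpair.1 := by
          have h5 : ¬ ((n / 2).unpair.1 < t0) := by
            intro h5; apply h1; simp [h5]
          have h6 : ¬ ((n / 2).unpair.1 = t0) := by
            intro h6; apply h2; simp [h6]
          omega
        rw [List.any_eq_true] at h3
        obtain ⟨r1, hr1, h6⟩ := h3
        rw [List.mem_range] at hr1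
        rw [hst_pre_getD X hr1, Bool.and_eq_true, decide_eq_true_eq, decide_eq_true_eq] at h6
        rw [← hb, Bool.eq_iff_iff, BB_iff, inB_iff]
        constructor
        · rintro ⟨r, -, h7⟩
          exact ⟨r, h7⟩
        · intro h7
          obtain ⟨r, hr, h8⟩ := (hlate _ h4 r1 h6.1 h6.2).1 h7
          exact ⟨r, by omega, h8⟩
  · intro n
    by_cases hn : n % 2 = 0
    · refine ⟨n + 1, ?_⟩
      simp only [F, hn, decide_true, if_true]
      rw [pre_getElem? _ (Nat.lt_succ_self n)]
      rfl
    by_cases h1 : (decide ((n / 2).unpair.1 < t0) ||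
        (decide ((n / 2).unpair.1 = t0) && !decide ((n / 2).unpair.2.unpair.1 = R0))) = true
    · refine ⟨0, ?_⟩
      simp only [F, hn, decide_false, if_false, Bool.false_eq_true, if_pos h1, Option.isSome_some]
    by_cases h2 : decide ((n / 2).unpair.1 = t0) = true
    · refine ⟨2 * (n / 2).unpair.2.unpair.2 + 1 + 1, ?_⟩
      simp only [F, hn, decide_false, if_false, Bool.false_eq_true, if_neg h1, if_pos h2]
      rw [pre_getElem? _ (Nat.lt_succ_self _)]
      rfl
    have : ∃ r ≥ n / 2, ac (att g v) X r = t0 + 1 := by
      by_contra hc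
      push Not at hc
      exact hi ⟨_, hc⟩
    obtain ⟨r, hr, h3⟩ := this
    refine ⟨2 * (r + 1), ?_⟩
    have h4 : 2 * (r + 1) / 2 = r + 1 := by omega
    simp only [F, hn, decide_false, if_false, Bool.false_eq_true, if_neg h1, if_neg h2, hHX, h4,
      hst_pre_length]
    rw [if_pos]
    · rfl
    · rw [List.any_eq_true]
      refine ⟨r, List.mem_range.2 (Nat.lt_succ_self r), ?_⟩
      rw [hst_pre_getD X (Nat.lt_succ_self r), Bool.and_eq_true, decide_eq_true_eq,
        decide_eq_true_eq]
      exact ⟨hr, h3⟩

theorem le_WW (hgm : ∀ k σ τ, σ <+: τ → g k σ ≤ g k τ)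
    (hvm : ∀ k x σ τ, σ <+: τ → v k x σ = true → v k x τ = true) {k : ℕ}
    (hb : ∀ k' < k, ∃ b, ∀ s, g k' (pre X s) ≤ b) (hu : ∀ n, ∃ s, n ≤ g k (pre X s)) :
    TuringReducible (chi (jn X (VV v k X))) (chi (WW g v X)) := by
  obtain ⟨s0, h0⟩ := exists_quiet (att := att g v) (X := X) (t := 3 * k + 2)
    (finAct_all fun k' hk' => hb k' (by omega))
  have hi := not_finAct (v := v) hgm hb hu
  refine jn_le (left_le_jn _ _) ?_
  have hc : Computable (fun x => elt (3 * k + 2) (Rt (att g v) X (3 * k + 2) s0) x) :=
    comp_elt (Computable.const _) (Computable.const _) Computable.id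
  refine red_of_index (Computable.succ.comp (comp_two_mul.comp hc)) fun x => ?_
  rw [WW, Nat.succ_eq_add_one, jn_odd, Bool.eq_iff_iff, BB_iff, VV_iff]
  exact BP_true hvm h0 hi x

theorem exists_code_WW (hg : Computable₂ g)
    (hv : Computable (fun x : ℕ × (ℕ × List Bool) => v x.1 x.2.1 x.2.2)) :
    ∃ r : Code, ∀ X n, (∃ s, (r.eval (encode (n, pre X s))).Dom) ↔ WW g v X n = true := by
  have hH : Computable (fun σ : List Bool => hst (att g v) σ) := by
    refine comp_hst (α := List Bool) (A := fun _ => att g v) ?_ Computable.id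
    exact comp_att hg hv (Computable.fst.comp Computable.snd)
      (Computable.fst.comp (Computable.snd.comp Computable.snd))
      (Computable.snd.comp (Computable.snd.comp Computable.snd))
  have h1 : Computable₂ (fun (n : ℕ) (σ : List Bool) =>
      if decide (n % 2 = 0) then σ.getD (n / 2) false
        else inB v (hst (att g v) σ) σ (n / 2)) := by
    have hd : Computable (fun x : ℕ × List Bool => x.1 / 2) :=
      comp_div Computable.fst (Computable.const 2)
    refine comp_ite (c := fun x : ℕ × List Bool => decide (x.1 % 2 = 0))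
      (comp_decEq (comp_mod Computable.fst (Computable.const 2)) (Computable.const 0)) ?_ ?_
    · exact comp_getD Computable.snd hd
    · exact comp_inB hv (hH.comp Computable.snd) Computable.snd hd
  obtain ⟨r, hr⟩ := exists_code_dom h1
  refine ⟨r, fun X n => ?_⟩
  simp only [hr]
  by_cases hn : n % 2 = 0
  · simp only [hn, decide_true, if_true, WW, jn]
    constructor
    · rintro ⟨s, hs⟩
      by_cases hns : n / 2 < s
      · rwa [pre_getD X hns] at hs
      · rw [List.getD_eq_default] at hs
        · simp at hs
        · rw [pre_length]; omega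
    · intro hX
      exact ⟨n / 2 + 1, by rw [pre_getD X (Nat.lt_succ_self _)]; exact hX⟩
  · simp only [hn, decide_false, if_false, WW, jn, Bool.false_eq_true]
    rw [BB_iff, BP_iff]

theorem exists_code_CC (hg : Computable₂ g)
    (hv : Computable (fun x : ℕ × (ℕ × List Bool) => v x.1 x.2.1 x.2.2)) :
    ∃ r : Code, ∀ X n, (∃ s, (r.eval (encode (n, pre X s))).Dom) ↔ CC g v X n = true := by
  have hH : Computable (fun σ : List Bool => hst (att g v) σ) := by
    refine comp_hst (α := List Bool) (A := fun _ => att g v) ?_ Computable.id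
    exact comp_att hg hv (Computable.fst.comp Computable.snd)
      (Computable.fst.comp (Computable.snd.comp Computable.snd))
      (Computable.snd.comp (Computable.snd.comp Computable.snd))
  have h1 : Computable₂ (fun (n : ℕ) (σ : List Bool) => inC (hst (att g v) σ) n) :=
    comp_inC (hH.comp Computable.snd) Computable.fst
  obtain ⟨r, hr⟩ := exists_code_dom h1
  refine ⟨r, fun X n => ?_⟩
  simp only [hr]
  rw [CC_iff, CP_iff]

end Pool.Agent.AEI
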