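import Mathlib
import Pool.Agent.AEI.GLU

/-!
The finite iterates of the jump of the empty set are `Π_2` singletons, uniformly.
-/

set_option autoImplicit false

namespace Pool.Agent.AEI

open Encodable Nat.Partrec Pool.Agent.H19

open Classical in
/-- The jump as a sequence. -/
noncomputable def JJ (P : ℕ → Bool) : ℕ → Bool := fun p => decide (∃ s, jap p (pre P s) = true)

theorem JJ_iff {P : ℕ → Bool} {p : ℕ} : JJ P p = true ↔ ∃ s, jap p (pre P s) = true := by
  simp [JJ]

theorem JJ_false {P : ℕ → Bool} {p : ℕ} (h : JJ P p = false) (s : ℕ) :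
    jap p (pre P s) = false := by
  by_contra hc
  rw [Bool.not_eq_false] at hc
  have := JJ_iff.2 ⟨s, hc⟩
  rw [h] at this
  exact absurd this (by simp)

theorem chr_jumpSet (X : ℕ → Bool) : chr (jumpSet X) = chi (JJ X) := by
  refine chr_eq_chi fun p => ?_
  rw [JJ_iff]
  exact exists_cvg

theorem exists_e0 : ∃ c : Code, ∀ (n : ℕ) (σ : List Bool),
    (c.eval (encode (n, σ))).Dom ↔ σ.getD n false = true :=
  exists_code_dom (t := fun n σ => σ.getD n false) (comp_getD Computable.snd Computable.fst)

/-- A code of the identity operator. -/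
noncomputable def e0 : Code := Classical.choose exists_e0

/-- The reduction of a set to its jump. -/
noncomputable def jf (x : ℕ) : ℕ := Nat.pair (encode e0) x

theorem comp_jf : Computable jf := comp_natpair (Computable.const _) Computable.id

theorem JJ_code {P E : ℕ → Bool} {c : Code}
    (h : ∀ n, (∃ s, (c.eval (encode (n, pre P s))).Dom) ↔ E n = true) (x : ℕ) :
    JJ P (Nat.pair (encode c) x) = E x := by
  rw [Bool.eq_iff_iff, JJ_iff, ← h x, exists_cvg]
  simp only [jap, Nat.unpair_pair, Denumerable.ofNat_encode]

theorem JJ_jf (P : ℕ → Bool) (x : ℕ) : JJ P (jf x) = P x := by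
  refine JJ_code (c := e0) (fun n => ?_) x
  have h := Classical.choose_spec exists_e0
  constructor
  · rintro ⟨s, hs⟩
    have h1 : (pre P s).getD n false = true := (h n _).1 hs
    by_cases hn : n < s
    · rwa [pre_getD P hn] at h1
    · rw [List.getD_eq_default] at h1
      · simp at h1
      · rw [pre_length]; omega
  · intro hP
    exact ⟨n + 1, (h n _).2 (by rw [pre_getD P (Nat.lt_succ_self n)]; exact hP)⟩

/-- A set is recursive in its jump. -/
theorem le_JJ (P : ℕ → Bool) : TuringReducible (chi P) (chi (JJ P)) :=
  red_of_index comp_jf fun n => JJ_jf P n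

/-- A set recursively enumerable in `P` is recursive in the jump of `P`. -/
theorem code_le_JJ {P E : ℕ → Bool} {c : Code}
    (h : ∀ n, (∃ s, (c.eval (encode (n, pre P s))).Dom) ↔ E n = true) :
    TuringReducible (chi E) (chi (JJ P)) :=
  red_of_index (comp_natpair (Computable.const _) Computable.id) fun n => JJ_code h n

/-- The finite iterates of the jump of the empty set. -/
noncomputable def zj : ℕ → ℕ → Bool
  | 0 => fun _ => false
  | n + 1 => JJ (zj n)

theorem zj_le {m n : ℕ} (h : m ≤ n) : TuringReducible (chi (zj m)) (chi (zj n)) := by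
  induction h with
  | refl => exact TuringReducible.refl _
  | @step n _ ih => exact ih.trans (le_JJ (zj n))

/-- The iterates of the reduction of a set to its jump. -/
noncomputable def it (l x : ℕ) : ℕ := jf^[l] x

theorem it_succ (l x : ℕ) : it (l + 1) x = jf (it l x) := Function.iterate_succ_apply' _ _ _

theorem strictMono_jf : StrictMono jf := fun _ _ h => Nat.pair_lt_pair_right _ h

theorem strictMono_it (l : ℕ) : StrictMono (it l) := strictMono_jf.iterate l

theorem comp_it : Computable₂ it := by
  have h := Computable.nat_rec (f := fun p : ℕ × ℕ => p.1) (g := fun p : ℕ × ℕ => p.2)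
    (h := fun _ q => jf q.2) Computable.fst Computable.snd
    (comp_jf.comp (Computable.snd.comp Computable.snd))
  refine h.of_eq fun p => ?_
  show Nat.rec p.2 (fun _ IH => jf IH) p.1 = it p.1 p.2
  induction p.1 with
  | zero => rfl
  | succ n ih => rw [it_succ, ← ih]

/-- The set whose `l`-th jump is `P`. -/
noncomputable def ext (l : ℕ) (P : ℕ → Bool) : ℕ → Bool := fun x => P (it l x)

theorem ext_zj (l n : ℕ) : ext l (zj (n + l)) = zj n := by
  induction l with
  | zero => rfl
  | succ l ih =>
    funext x
    rw [ext, it_succ, ← Nat.add_assoc, zj, JJ_jf, ← ih]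
    rfl

/-- The string version of `ext`. -/
noncomputable def exs (l : ℕ) (ρ : List Bool) : List Bool :=
  ((List.range ρ.length).filter fun x => decide (it l x < ρ.length)).map
    fun x => ρ.getD (it l x) false

theorem filter_range {p : ℕ → Bool} {k s : ℕ} (hk : k ≤ s) (h1 : ∀ x < k, p x = true)
    (h2 : ∀ x, k ≤ x → p x = false) : (List.range s).filter p = List.range k := by
  obtain ⟨d, rfl⟩ := Nat.exists_eq_add_of_le hk
  rw [List.range_add, List.filter_append, List.filter_eq_self.2, List.filter_eq_nil_iff.2,
    List.append_nil]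
  · intro x hx
    obtain ⟨y, -, rfl⟩ := List.mem_map.1 hx
    rw [h2 _ (Nat.le_add_right k y)]
    simp
  · intro x hx
    exact h1 x (List.mem_range.1 hx)

theorem exs_pre (l : ℕ) (P : ℕ → Bool) (s : ℕ) : ∃ k, exs l (pre P s) = pre (ext l P) k ∧
    ∀ u, (∀ x < u, it l x < s) → u ≤ k := by
  have hex : ∃ k, ¬ it l k < s := ⟨s, not_lt.2 (strictMono_it l).le_apply⟩
  obtain ⟨K, hK1, hK2⟩ : ∃ K, ¬ it l K < s ∧ ∀ x < K, it l x < s := by
    classical
    exact ⟨Nat.find hex, Nat.find_spec hex, fun x hx => not_not.1 (Nat.find_min hex hx)⟩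
  have h2 : ∀ x, K ≤ x → ¬ it l x < s := fun x hx hc =>
    hK1 (lt_of_le_of_lt ((strictMono_it l).monotone hx) hc)
  have h3 : K ≤ s := by
    by_contra hcon
    exact h2 s (not_lt.1 fun h => (Nat.lt_irrefl s) (lt_of_le_of_lt
      (strictMono_it l).le_apply (hK2 s (not_le.1 hcon)))) (hK2 s (not_le.1 hcon))
  refine ⟨K, ?_, fun u hu => ?_⟩
  · rw [exs, pre_length, filter_range h3 (fun x hx => by simpa using hK2 x hx)
      (fun x hx => by simpa using h2 x hx)]
    refine List.map_congr_left (g := ext l P) fun x hx => ?_
    rw [pre_getD P (hK2 x (List.mem_range.1 hx)), ext]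
  · by_contra hcon
    exact hK1 (hu _ (not_le.1 hcon))

/-- The approximations to the jump of `ext l P` converge. -/
theorem jap_exs_true {l p : ℕ} {P : ℕ → Bool} (h : JJ (ext l P) p = true) :
    ∃ s0, ∀ s ≥ s0, jap p (exs l (pre P s)) = true := by
  obtain ⟨u, hu⟩ := JJ_iff.1 h
  refine ⟨it l u, fun s hs => ?_⟩
  obtain ⟨k, h1, h2⟩ := exs_pre l P s
  rw [h1]
  refine jap_mono (pre_mono _ (h2 u fun x hx => ?_)) hu
  exact lt_of_lt_of_le (strictMono_it l hx) hs

theorem jap_exs_false {l p : ℕ} {P : ℕ → Bool} (h : JJ (ext l P) p = false) (s : ℕ) :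
    jap p (exs l (pre P s)) = false := by
  obtain ⟨k, h1, -⟩ := exs_pre l P s
  rw [h1]
  exact JJ_false h k

/-- The tests for the `n`-th iterate of the jump. -/
noncomputable def jt (n m : ℕ) (ρ : List Bool) : Bool :=
  if decide (m.unpair.1 < n) then
    decide (ρ.getD (it m.unpair.1 m.unpair.2) false = jap m.unpair.2 (exs (m.unpair.1 + 1) ρ))
  else !ρ.getD (it n m.unpair.2) false

theorem jt_iff {n : ℕ} {P : ℕ → Bool} :
    (∀ m N, ∃ s ≥ N, jt n m (pre P s) = true) ↔ P = zj n := by
  constructor
  · intro h
    have h1 : ∀ l < n, ext l P = JJ (ext (l + 1) P) := by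
      intro l hl
      funext p
      cases hJ : JJ (ext (l + 1) P) p
      · obtain ⟨s, hs, h2⟩ := h (Nat.pair l p) (it l p + 1)
        rw [jt, if_pos (by simpa using hl), decide_eq_true_eq] at h2
        simp only [Nat.unpair_pair] at h2
        rw [pre_getD P (by omega), jap_exs_false hJ] at h2
        exact h2
      · obtain ⟨s0, h0⟩ := jap_exs_true hJ
        obtain ⟨s, hs, h2⟩ := h (Nat.pair l p) (max s0 (it l p + 1))
        have h3 : s0 ≤ s := (le_max_left _ _).trans hs
        have h4 : it l p + 1 ≤ s := (le_max_right _ _).trans hs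
        rw [jt, if_pos (by simpa using hl), decide_eq_true_eq] at h2
        simp only [Nat.unpair_pair] at h2
        rw [pre_getD P (by omega), h0 s h3] at h2
        exact h2
    have h2 : ext n P = zj 0 := by
      funext p
      obtain ⟨s, hs, h2⟩ := h (Nat.pair n p) (it n p + 1)
      rw [jt, if_neg (by simp)] at h2
      simp only [Nat.unpair_pair] at h2
      rw [pre_getD P (by omega), Bool.not_eq_true'] at h2
      exact h2
    have h3 : ∀ j ≤ n, ext (n - j) P = zj j := by
      intro j
      induction j with
      | zero => intro _; exact h2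
      | succ j ih =>
        intro hj
        rw [h1 (n - (j + 1)) (by omega), show n - (j + 1) + 1 = n - j by omega,
          ih (by omega)]
        rfl
    have h4 := h3 n le_rfl
    rw [Nat.sub_self] at h4
    exact h4
  · rintro rfl m N
    obtain ⟨l, p, rfl⟩ : ∃ l p, m = Nat.pair l p := ⟨m.unpair.1, m.unpair.2, by simp⟩
    by_cases hl : l < n
    · have h1 : ext l (zj n) = zj (n - l) := by
        have := ext_zj l (n - l)
        rwa [Nat.sub_add_cancel hl.le] at this
      have h2 : ext (l + 1) (zj n) = zj (n - (l + 1)) := by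
        have := ext_zj (l + 1) (n - (l + 1))
        rwa [Nat.sub_add_cancel hl] at this
      have h3 : ext l (zj n) = JJ (ext (l + 1) (zj n)) := by
        rw [h1, h2, show n - l = n - (l + 1) + 1 by omega]
        rfl
      have h4 : zj n (it l p) = JJ (ext (l + 1) (zj n)) p := congrFun h3 p
      cases hJ : JJ (ext (l + 1) (zj n)) p
      · refine ⟨max N (it l p + 1), le_max_left _ _, ?_⟩
        rw [jt, if_pos (by simpa using hl), decide_eq_true_eq]
        simp only [Nat.unpair_pair]
        rw [pre_getD _ (lt_of_lt_of_le (Nat.lt_succ_self _) (le_max_right _ _)),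
          jap_exs_false hJ, h4, hJ]
      · obtain ⟨s0, h0⟩ := jap_exs_true hJ
        refine ⟨max N (max s0 (it l p + 1)), le_max_left _ _, ?_⟩
        rw [jt, if_pos (by simpa using hl), decide_eq_true_eq]
        simp only [Nat.unpair_pair]
        rw [pre_getD _ (lt_of_lt_of_le (Nat.lt_succ_self _)
            ((le_max_right _ _).trans (le_max_right _ _))),
          h0 _ ((le_max_left _ _).trans (le_max_right _ _)), h4, hJ]
    · refine ⟨max N (it n p + 1), le_max_left _ _, ?_⟩
      rw [jt, if_neg (by simpa using hl)]
      simp only [Nat.unpair_pair]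
      rw [pre_getD _ (lt_of_lt_of_le (Nat.lt_succ_self _) (le_max_right _ _))]
      have h1 : ext n (zj n) = zj 0 := by
        have := ext_zj n 0
        rwa [Nat.zero_add] at this
      have h2 : zj n (it n p) = false := congrFun h1 p
      rw [h2]
      rfl

section comp

variable {α : Type*} [Primcodable α]

theorem comp_exs {l : α → ℕ} {ρ : α → List Bool} (hl : Computable l) (hρ : Computable ρ) :
    Computable fun a => exs (l a) (ρ a) := by
  have hlen : Computable fun a => (ρ a).length := Computable.list_length.comp hρ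
  have hi : Computable (fun x : α × ℕ => it (l x.1) x.2) :=
    comp_it.comp (hl.comp Computable.fst) Computable.snd
  refine comp_list_map (g := fun a x => (ρ a).getD (it (l a) x) false) ?_ ?_
  · refine comp_list_filter (g := fun a x => decide (it (l a) x < (ρ a).length))
      (comp_range hlen) ?_
    exact comp_decLt hi (hlen.comp Computable.fst)
  · exact comp_getD (hρ.comp Computable.fst) hi

theorem comp_jt {n m : α → ℕ} {ρ : α → List Bool} (hn : Computable n) (hm : Computable m)
    (hρ : Computable ρ) : Computable fun a => jt (n a) (m a) (ρ a) := by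
  have h1 : Computable fun a => (m a).unpair.1 := Computable.fst.comp (Computable.unpair.comp hm)
  have h2 : Computable fun a => (m a).unpair.2 := Computable.snd.comp (Computable.unpair.comp hm)
  refine comp_ite (c := fun a => decide ((m a).unpair.1 < n a)) (comp_decLt h1 hn) ?_ ?_
  · exact comp_decEq (comp_getD hρ (comp_it.comp h1 h2))
      (comp_jap h2 (comp_exs (Computable.succ.comp h1) hρ))
  · exact comp_not (comp_getD hρ (comp_it.comp hn h2))

end comp

end Pool.Agent.AEI
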