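import Mathlib
import Pool.Agent.AEI.GLW
import Pool.Agent.AEI.AFV
import Pool.Agent.AEI.JMP
import Pool.Agent.AEI.CNT

/-!
The guards, and the almost everywhere invariant operator.
-/

set_option autoImplicit false

namespace Pool.Agent.AEI

open Encodable Nat.Partrec Pool.Agent.H19 MeasureTheory

/-! ### Halves of a sequence -/

/-- The even half of a sequence. -/
def evn (Z : ℕ → Bool) : ℕ → Bool := fun x => Z (2 * x)
/-- The odd half of a sequence. -/
def odn (Z : ℕ → Bool) : ℕ → Bool := fun x => Z (2 * x + 1)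

theorem jn_halves (Z : ℕ → Bool) : jn (evn Z) (odn Z) = Z := by
  funext n
  rw [jn, evn, odn]
  split_ifs
  · congr 1; omega
  · congr 1; omega

@[simp] theorem evn_jn (X U : ℕ → Bool) : evn (jn X U) = X := by funext n; simp [evn]
@[simp] theorem odn_jn (X U : ℕ → Bool) : odn (jn X U) = U := by funext n; simp [odn]

/-- The even half of a string. -/
def evs (ζ : List Bool) : List Bool := (List.range (ζ.length / 2)).map fun i => ζ.getD (2 * i) false
/-- The odd half of a string. -/
def ods (ζ : List Bool) : List Bool :=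
  (List.range (ζ.length / 2)).map fun i => ζ.getD (2 * i + 1) false

theorem evs_pre (Z : ℕ → Bool) (s : ℕ) : evs (pre Z s) = pre (evn Z) (s / 2) := by
  rw [evs, pre_length]
  refine List.map_congr_left (g := evn Z) fun x hx => ?_
  rw [List.mem_range] at hx
  rw [pre_getD Z (by omega), evn]

theorem ods_pre (Z : ℕ → Bool) (s : ℕ) : ods (pre Z s) = pre (odn Z) (s / 2) := by
  rw [ods, pre_length]
  refine List.map_congr_left (g := odn Z) fun x hx => ?_
  rw [List.mem_range] at hx
  rw [pre_getD Z (by omega), odn]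

theorem ods_mono {σ τ : List Bool} (h : σ <+: τ) : ods σ <+: ods τ := by
  obtain ⟨X, hX⟩ := exists_pre τ
  have h1 : σ <+: pre X τ.length := by rw [hX]; exact h
  obtain ⟨hl, h2⟩ := (prefix_pre_iff X).1 h1
  rw [h2, ← hX, ods_pre, ods_pre]
  exact pre_mono _ (Nat.div_le_div_right hl)

theorem inE_prefix {i x : ℕ} {σ τ : List Bool} (h : σ <+: τ)
    (hx : inE i (hst af σ) x = true) : inE i (hst af τ) x = true := by
  obtain ⟨X, hX⟩ := exists_pre τ
  have h1 : σ <+: pre X τ.length := by rw [hX]; exact h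
  obtain ⟨hl, h2⟩ := (prefix_pre_iff X).1 h1
  rw [h2] at hx
  rw [← hX]
  exact inE_mono hl hx

/-! ### The length of agreement -/

/-- The greatest number at most `n` with the property `p`. -/
def mx (p : ℕ → Bool) (n : ℕ) : ℕ := (List.range (n + 1)).foldl (fun a k => if p k then k else a) 0

theorem mx_spec (p : ℕ → Bool) (h0 : p 0 = true) (n : ℕ) :
    p (mx p n) = true ∧ mx p n ≤ n ∧ ∀ k ≤ n, p k = true → k ≤ mx p n := by
  induction n with
  | zero =>
    have h1 : mx p 0 = 0 := by simp [mx]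
    rw [h1]
    exact ⟨h0, le_rfl, fun k hk _ => hk⟩
  | succ n ih =>
    have h1 : mx p (n + 1) = if p (n + 1) then n + 1 else mx p n := by
      rw [mx, List.range_succ, List.foldl_append]
      rfl
    rw [h1]
    by_cases hp : p (n + 1) = true
    · rw [if_pos hp]
      exact ⟨hp, le_rfl, fun k hk _ => hk⟩
    · rw [if_neg hp]
      refine ⟨ih.1, ih.2.1.trans (Nat.le_succ n), fun k hk hpk => ?_⟩
      rcases hk.lt_or_eq with hk | rfl
      · exact ih.2.2 k (Nat.lt_succ_iff.1 hk) hpk
      · exact absurd hpk hp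

/-- The length of agreement of two strings. -/
def lc (η σ : List Bool) : ℕ :=
  mx (fun k => decide (k ≤ σ.length) && decide (η.take k = σ.take k)) η.length

theorem lc_le {η σ : List Bool} : lc η σ ≤ η.length ∧ lc η σ ≤ σ.length ∧
    η.take (lc η σ) = σ.take (lc η σ) := by
  have h := mx_spec (fun k => decide (k ≤ σ.length) && decide (η.take k = σ.take k))
    (by simp) η.length
  have h1 := h.1
  simp only [Bool.and_eq_true, decide_eq_true_eq] at h1
  exact ⟨h.2.1, h1.1, h1.2⟩

theorem le_lc {η σ : List Bool} {k : ℕ} (h1 : k ≤ η.length) (h2 : k ≤ σ.length)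
    (h3 : η.take k = σ.take k) : k ≤ lc η σ := by
  have h := mx_spec (fun k => decide (k ≤ σ.length) && decide (η.take k = σ.take k))
    (by simp) η.length
  exact h.2.2 k h1 (by simp [h2, h3])

theorem take_prefix_eq {σ τ : List Bool} (h : σ <+: τ) {k : ℕ} (hk : k ≤ σ.length) :
    τ.take k = σ.take k := by
  obtain ⟨u, rfl⟩ := h
  rw [List.take_append_of_le_length hk]

theorem lc_mono {η σ η' σ' : List Bool} (h : η <+: η') (h' : σ <+: σ') : lc η σ ≤ lc η' σ' := by
  obtain ⟨h1, h2, h3⟩ := lc_le (η := η) (σ := σ)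
  refine le_lc (h1.trans h.length_le) (h2.trans h'.length_le) ?_
  rw [take_prefix_eq h h1, take_prefix_eq h' h2, h3]

/-! ### The guards -/

/-- A family of `Π_2` singletons, uniformly, such that of any two of them one computes the jump of
the other. -/
structure Fam (pt : ℕ → ℕ → List Bool → Bool) (Pn : ℕ → ℕ → Bool) : Prop where
  comp : Computable (fun x : ℕ × (ℕ × List Bool) => pt x.1 x.2.1 x.2.2)
  spec : ∀ n P, (∀ m N, ∃ s ≥ N, pt n m (pre P s) = true) ↔ P = Pn n
  jump : ∀ n m, n ≠ m → TuringReducible (chi (JJ (Pn n))) (chi (Pn m)) ∨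
    TuringReducible (chi (JJ (Pn m))) (chi (Pn n))

variable {pt : ℕ → ℕ → List Bool → Bool} {Pn : ℕ → ℕ → Bool}

/-- The tests on a string `ζ` of the oracle `Z = X ⊕ P`: the tests for `P` being the `n`-th
member of the family and the tests for the items greater than or equal to `q`. -/
def prt (pt : ℕ → ℕ → List Bool → Bool) (n q m : ℕ) (ζ : List Bool) : Bool :=
  if decide (m % 2 = 0) then pt n (m / 2) (ods ζ)
  else !bd (q + m / 2) (hst af (ods ζ)) (ods ζ) (evs ζ)

/-- The goodness condition on `Z`. -/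
def Good (Pn : ℕ → ℕ → Bool) (n q : ℕ) (Z : ℕ → Bool) : Prop :=
  odn Z = Pn n ∧ ∀ t ≥ q, ∀ N, ∃ s ≥ N, evn Z ∉ BX (odn Z) t s

theorem prt_iff (hF : Fam pt Pn) {n q : ℕ} {Z : ℕ → Bool} :
    (∀ m N, ∃ s ≥ N, prt pt n q m (pre Z s) = true) ↔ Good Pn n q Z := by
  constructor
  · intro h
    constructor
    · rw [← hF.spec]
      intro m N
      obtain ⟨s, hs, h1⟩ := h (2 * m) (2 * N)
      have h2 : 2 * m % 2 = 0 := by omega
      have h3 : 2 * m / 2 = m := by omega
      rw [prt, h2, h3, ods_pre] at h1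
      exact ⟨s / 2, by omega, h1⟩
    · intro t ht N
      obtain ⟨s, hs, h1⟩ := h (2 * (t - q) + 1) (2 * N)
      have h2 : ¬ (2 * (t - q) + 1) % 2 = 0 := by omega
      have h3 : q + (2 * (t - q) + 1) / 2 = t := by omega
      rw [prt, if_neg (by simpa using h2), h3, ods_pre, evs_pre, Bool.not_eq_true'] at h1
      refine ⟨s / 2, by omega, ?_⟩
      rw [BX, Set.mem_ofPred_eq, h1]
      simp
  · rintro ⟨h1, h2⟩ m N
    by_cases hm : m % 2 = 0
    · obtain ⟨s, hs, h3⟩ := (hF.spec n _).2 h1 (m / 2) N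
      refine ⟨2 * s, by omega, ?_⟩
      rw [prt, if_pos (by simpa using hm), ods_pre, show 2 * s / 2 = s by omega]
      exact h3
    · obtain ⟨s, hs, h3⟩ := h2 (q + m / 2) (Nat.le_add_right _ _) N
      refine ⟨2 * s, by omega, ?_⟩
      rw [prt, if_neg (by simpa using hm), ods_pre, evs_pre, show 2 * s / 2 = s by omega,
        Bool.not_eq_true']
      rw [BX, Set.mem_ofPred_eq, Bool.not_eq_true] at h3
      exact h3

/-- The level of a node. -/
def kn (k : ℕ) : ℕ := k.unpair.1
/-- The bound of a node. -/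
def kq (k : ℕ) : ℕ := k.unpair.2.unpair.1
/-- The first code of a node. -/
def ki (k : ℕ) : Code := Denumerable.ofNat Code k.unpair.2.unpair.2.unpair.1
/-- The second code of a node. -/
def kj (k : ℕ) : Code := Denumerable.ofNat Code k.unpair.2.unpair.2.unpair.2

/-- The guard of a node. -/
def gd (pt : ℕ → ℕ → List Bool → Bool) (k : ℕ) (σ : List Bool) : ℕ :=
  min (lc (zf (kj k) (zf (ki k) σ)) σ) (cn (prt pt (kn k) (kq k)) (zf (ki k) σ))

/-- The test for membership in the set of a node. -/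
def vv (k x : ℕ) (σ : List Bool) : Bool := inE 1 (hst af (ods (zf (ki k) σ))) x

theorem gd_mono (k : ℕ) (σ τ : List Bool) (h : σ <+: τ) : gd pt k σ ≤ gd pt k τ :=
  min_le_min (lc_mono (zf_mono _ (zf_mono _ h)) h) (cn_mono _ (zf_mono _ h))

theorem vv_mono (k x : ℕ) (σ τ : List Bool) (h : σ <+: τ) (hv : vv k x σ = true) :
    vv k x τ = true := inE_prefix (ods_mono (zf_mono _ h)) hv

/-- `zf c` exhausts `Z` along `Y`. -/
def Exh (c : Code) (Y Z : ℕ → Bool) : Prop :=
  (∀ s, zf c (pre Y s) = pre Z (zf c (pre Y s)).length) ∧ ∀ n, ∃ s, n ≤ (zf c (pre Y s)).length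

theorem unbdd_mono {h : ℕ → ℕ} (hm : ∀ s t, s ≤ t → h s ≤ h t) {h' : ℕ → ℕ}
    (hm' : ∀ s t, s ≤ t → h' s ≤ h' t) :
    (∀ N, ∃ s, N ≤ min (h s) (h' s)) ↔ (∀ N, ∃ s, N ≤ h s) ∧ ∀ N, ∃ s, N ≤ h' s := by
  constructor
  · intro hh
    exact ⟨fun N => (hh N).imp fun s hs => hs.trans (min_le_left _ _),
      fun N => (hh N).imp fun s hs => hs.trans (min_le_right _ _)⟩
  · rintro ⟨h1, h2⟩ N
    obtain ⟨s, hs⟩ := h1 N
    obtain ⟨t, ht⟩ := h2 N
    exact ⟨max s t, le_min (hs.trans (hm _ _ (le_max_left _ _)))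
      (ht.trans (hm' _ _ (le_max_right _ _)))⟩

theorem gd_unbdd_iff {k : ℕ} {Y : ℕ → Bool} : (∀ N, ∃ s, N ≤ gd pt k (pre Y s)) ↔
    (∀ N, ∃ s, N ≤ lc (zf (kj k) (zf (ki k) (pre Y s))) (pre Y s)) ∧
      ∀ N, ∃ s, N ≤ cn (prt pt (kn k) (kq k)) (zf (ki k) (pre Y s)) :=
  unbdd_mono (h := fun s => lc (zf (kj k) (zf (ki k) (pre Y s))) (pre Y s))
    (h' := fun s => cn (prt pt (kn k) (kq k)) (zf (ki k) (pre Y s)))
    (fun _ _ h => lc_mono (zf_mono _ (zf_mono _ (pre_mono Y h))) (pre_mono Y h))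
    (fun _ _ h => cn_mono _ (zf_mono _ (pre_mono Y h)))

/-- An unbounded guard gives a good oracle of the same degree. -/
theorem exists_of_gd (hF : Fam pt Pn) {k : ℕ} {Y : ℕ → Bool}
    (h : ∀ N, ∃ s, N ≤ gd pt k (pre Y s)) :
    ∃ Z, Exh (ki k) Y Z ∧ TuringReducible (chi Z) (chi Y) ∧ TuringReducible (chi Y) (chi Z) ∧
      Good Pn (kn k) (kq k) Z := by
  obtain ⟨h1, h2⟩ := gd_unbdd_iff.1 h
  have h3 : ∀ n, ∃ s, n ≤ (zf (ki k) (pre Y s)).length := by
    intro n
    obtain ⟨s, hs⟩ := h1 n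
    exact ⟨s, hs.trans (lc_le.1.trans (zf_length_le _ _))⟩
  obtain ⟨Z, hZ1, hZ2⟩ := exists_of_zf h3
  have h4 : ∀ n, ∃ s, n ≤ (zf (kj k) (pre Z s)).length := by
    intro n
    obtain ⟨s, hs⟩ := h1 n
    refine ⟨(zf (ki k) (pre Y s)).length, ?_⟩
    rw [← hZ1]
    exact hs.trans lc_le.1
  obtain ⟨Y', hY1, hY2⟩ := exists_of_zf h4
  have h5 : Y' = Y := by
    funext n
    obtain ⟨s, hs⟩ := h1 (n + 1)
    obtain ⟨h6, h7, h8⟩ := lc_le (η := zf (kj k) (zf (ki k) (pre Y s))) (σ := pre Y s)
    have h9 : zf (kj k) (zf (ki k) (pre Y s)) = pre Y' (zf (kj k) (zf (ki k) (pre Y s))).length := by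
      rw [hZ1]; exact hY1 _
    set L := lc (zf (kj k) (zf (ki k) (pre Y s))) (pre Y s)
    rw [pre_length] at h7
    rw [h9, pre_take Y' h6, pre_take Y h7] at h8
    have h10 : (pre Y' L).getD n false = (pre Y L).getD n false := by rw [h8]
    rwa [pre_getD Y' (by omega), pre_getD Y (by omega)] at h10
  rw [h5] at hY2
  refine ⟨Z, ⟨hZ1, h3⟩, hZ2, hY2, ?_⟩
  rw [← prt_iff hF, ← cn_unbounded_iff]
  intro N
  obtain ⟨s, hs⟩ := h2 N
  refine ⟨(zf (ki k) (pre Y s)).length, ?_⟩
  rw [← hZ1]
  exact hs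

theorem gd_unbdd (hF : Fam pt Pn) {k : ℕ} {Y Z : ℕ → Bool} (hi : CodeComputes (ki k) Y Z)
    (hj : CodeComputes (kj k) Z Y) (hg : Good Pn (kn k) (kq k) Z) :
    ∀ N, ∃ s, N ≤ gd pt k (pre Y s) := by
  obtain ⟨hi1, hi2⟩ := zf_of_computes hi
  obtain ⟨hj1, hj2⟩ := zf_of_computes hj
  rw [gd_unbdd_iff]
  constructor
  · intro N
    obtain ⟨u, hu⟩ := hj2 N
    obtain ⟨s, hs⟩ := hi2 u
    refine ⟨max s N, ?_⟩
    have h1 : pre Z u <+: zf (ki k) (pre Y (max s N)) := by
      have h2 := zf_mono (ki k) (pre_mono Y (le_max_left s N))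
      refine List.IsPrefix.trans ?_ h2
      rw [hi1 s]
      exact pre_mono Z hs
    have h3 := zf_mono (kj k) h1
    have h4 : N ≤ (zf (kj k) (zf (ki k) (pre Y (max s N)))).length := hu.trans h3.length_le
    refine le_lc h4 (by rw [pre_length]; exact le_max_right _ _) ?_
    rw [hi1, hj1, pre_take _ (by rw [hi1] at h4; exact h4), pre_take _ (le_max_right _ _)]
  · have h1 := cn_unbounded_iff.2 ((prt_iff hF).2 hg)
    intro N
    obtain ⟨u, hu⟩ := h1 N
    obtain ⟨s, hs⟩ := hi2 u
    refine ⟨s, hu.trans (cn_mono _ ?_)⟩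
    rw [hi1 s]
    exact pre_mono Z hs

/-- The set of a node. -/
theorem VV_vv {k : ℕ} {Y Z : ℕ → Bool} (h : Exh (ki k) Y Z) : VV vv k Y = EE (odn Z) 1 := by
  funext x
  rw [Bool.eq_iff_iff, VV_iff, EE_iff, EP_iff]
  constructor
  · rintro ⟨s, hs⟩
    rw [vv, h.1 s, ods_pre] at hs
    exact ⟨_, hs⟩
  · rintro ⟨s, hs⟩
    obtain ⟨u, hu⟩ := h.2 (2 * s)
    refine ⟨u, ?_⟩
    rw [vv, h.1 u, ods_pre]
    exact inE_mono (by omega) hs

/-- The sets `EE P i` are enumerable from every oracle which exhausts `Z = X ⊕ P`. -/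
theorem exists_code_EE {c : Code} {Y Z : ℕ → Bool} (h : Exh c Y Z) (i : ℕ) :
    TuringReducible (chi (EE (odn Z) i)) (chi (JJ Y)) := by
  have hc : Computable₂ (fun (x : ℕ) (σ : List Bool) => inE i (hst af (ods (zf c σ))) x) := by
    refine comp_inE i (comp_hstaf ?_) Computable.fst
    have h1 : Computable (fun x : ℕ × List Bool => zf c x.2) :=
      comp_zf (Computable.const c) Computable.snd
    refine comp_list_map (g := fun (x : ℕ × List Bool) i => (zf c x.2).getD (2 * i + 1) false)
      (comp_range (comp_div (Computable.list_length.comp h1) (Computable.const 2))) ?_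
    exact comp_getD (h1.comp Computable.fst)
      (Computable.succ.comp (comp_two_mul.comp Computable.snd))
  obtain ⟨r, hr⟩ := exists_code_dom hc
  refine code_le_JJ (c := r) fun n => ?_
  simp only [hr]
  rw [EE_iff, EP_iff]
  constructor
  · rintro ⟨s, hs⟩
    rw [h.1 s, ods_pre] at hs
    exact ⟨_, hs⟩
  · rintro ⟨s, hs⟩
    obtain ⟨u, hu⟩ := h.2 (2 * s)
    refine ⟨u, ?_⟩
    rw [h.1 u, ods_pre]
    exact inE_mono (by omega) hs

/-- The sets `EE P i` are recursive in the jump of `P`. -/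
theorem EE_le_JJ (P : ℕ → Bool) (i : ℕ) : TuringReducible (chi (EE P i)) (chi (JJ P)) := by
  have hc : Computable₂ (fun (x : ℕ) (σ : List Bool) => inE i (hst af σ) x) :=
    comp_inE i (comp_hstaf Computable.snd) Computable.fst
  obtain ⟨r, hr⟩ := exists_code_dom hc
  refine code_le_JJ (c := r) fun n => ?_
  simp only [hr]
  rw [EE_iff, EP_iff]

/-! ### Computability -/

section comp

variable {α : Type*} [Primcodable α]

theorem comp_evs {ζ : α → List Bool} (hζ : Computable ζ) : Computable fun a => evs (ζ a) := by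
  refine comp_list_map (g := fun a i => (ζ a).getD (2 * i) false)
    (comp_range (comp_div (Computable.list_length.comp hζ) (Computable.const 2))) ?_
  exact comp_getD (hζ.comp Computable.fst) (comp_two_mul.comp Computable.snd)

theorem comp_ods {ζ : α → List Bool} (hζ : Computable ζ) : Computable fun a => ods (ζ a) := by
  refine comp_list_map (g := fun a i => (ζ a).getD (2 * i + 1) false)
    (comp_range (comp_div (Computable.list_length.comp hζ) (Computable.const 2))) ?_
  exact comp_getD (hζ.comp Computable.fst)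
    (Computable.succ.comp (comp_two_mul.comp Computable.snd))

theorem comp_lc {η σ : α → List Bool} (hη : Computable η) (hσ : Computable σ) :
    Computable fun a => lc (η a) (σ a) := by
  have h1 : Computable₂ (fun (a : α) (p : ℕ × ℕ) =>
      if decide (p.2 ≤ (σ a).length) && decide ((η a).take p.2 = (σ a).take p.2)
        then p.2 else p.1) := by
    have hs : Computable (fun x : α × (ℕ × ℕ) => σ x.1) := hσ.comp Computable.fst
    have he : Computable (fun x : α × (ℕ × ℕ) => η x.1) := hη.comp Computable.fst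
    have h2 : Computable (fun x : α × (ℕ × ℕ) => x.2.2) := Computable.snd.comp Computable.snd
    exact comp_ite (c := fun x : α × (ℕ × ℕ) =>
      decide (x.2.2 ≤ (σ x.1).length) && decide ((η x.1).take x.2.2 = (σ x.1).take x.2.2))
      (comp_and (comp_decLe h2 (Computable.list_length.comp hs))
        (comp_decEq (comp_take h2 he) (comp_take h2 hs))) h2
      (Computable.fst.comp Computable.snd)
  exact comp_list_foldl (comp_range (Computable.succ.comp (Computable.list_length.comp hη)))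
    (Computable.const 0) h1

theorem comp_prt (hF : Fam pt Pn) {n q m : α → ℕ} {ζ : α → List Bool} (hn : Computable n)
    (hq : Computable q) (hm : Computable m) (hζ : Computable ζ) :
    Computable fun a => prt pt (n a) (q a) (m a) (ζ a) := by
  have hd : Computable fun a => m a / 2 := comp_div hm (Computable.const 2)
  refine comp_ite (c := fun a => decide (m a % 2 = 0))
    (comp_decEq (comp_mod hm (Computable.const 2)) (Computable.const 0))
    (hF.comp.comp (hn.pair (hd.pair (comp_ods hζ)))) ?_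
  exact comp_not (comp_bd (Primrec.nat_add.to_comp.comp hq hd) (comp_hstaf (comp_ods hζ))
    (comp_ods hζ) (comp_evs hζ))

theorem comp_kn {k : α → ℕ} (hk : Computable k) : Computable fun a => kn (k a) :=
  Computable.fst.comp (Computable.unpair.comp hk)

theorem comp_kq {k : α → ℕ} (hk : Computable k) : Computable fun a => kq (k a) :=
  Computable.fst.comp (Computable.unpair.comp (Computable.snd.comp (Computable.unpair.comp hk)))

theorem comp_ki {k : α → ℕ} (hk : Computable k) : Computable fun a => ki (k a) :=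
  (Computable.ofNat Code).comp (Computable.fst.comp (Computable.unpair.comp
    (Computable.snd.comp (Computable.unpair.comp (Computable.snd.comp
      (Computable.unpair.comp hk))))))

theorem comp_kj {k : α → ℕ} (hk : Computable k) : Computable fun a => kj (k a) :=
  (Computable.ofNat Code).comp (Computable.snd.comp (Computable.unpair.comp
    (Computable.snd.comp (Computable.unpair.comp (Computable.snd.comp
      (Computable.unpair.comp hk))))))

end comp

theorem comp_gd (hF : Fam pt Pn) : Computable₂ (gd pt) := by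
  have hz : Computable (fun x : ℕ × List Bool => zf (ki x.1) x.2) :=
    comp_zf (comp_ki Computable.fst) Computable.snd
  have hl : Computable (fun x : ℕ × List Bool =>
      lc (zf (kj x.1) (zf (ki x.1) x.2)) x.2) :=
    comp_lc (comp_zf (comp_kj Computable.fst) hz) Computable.snd
  have hp : Computable (fun x : (ℕ × List Bool) × (ℕ × List Bool) =>
      prt pt (kn x.1.1) (kq x.1.1) x.2.1 x.2.2) := by
    have h1 : Computable (fun x : (ℕ × List Bool) × (ℕ × List Bool) => x.1.1) :=
      Computable.fst.comp Computable.fst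
    exact comp_prt hF (comp_kn h1) (comp_kq h1) (Computable.fst.comp Computable.snd)
      (Computable.snd.comp Computable.snd)
  have hc : Computable (fun x : ℕ × List Bool =>
      cn (prt pt (kn x.1) (kq x.1)) (zf (ki x.1) x.2)) :=
    comp_cn (α := ℕ × List Bool) (P := fun x => prt pt (kn x.1) (kq x.1)) hp hz
  exact (Primrec.nat_min.to_comp.comp hl hc : Computable (fun x : ℕ × List Bool =>
    min (lc (zf (kj x.1) (zf (ki x.1) x.2)) x.2)
      (cn (prt pt (kn x.1) (kq x.1)) (zf (ki x.1) x.2))))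

theorem comp_vv : Computable (fun x : ℕ × (ℕ × List Bool) => vv x.1 x.2.1 x.2.2) :=
  comp_inE 1 (comp_hstaf (comp_ods (comp_zf (comp_ki Computable.fst)
    (Computable.snd.comp Computable.snd)))) (Computable.fst.comp Computable.snd)

/-! ### The theorem -/

/-- The operator. -/
noncomputable def WF (pt : ℕ → ℕ → List Bool → Bool) (Y : ℕ → Bool) : ℕ → Bool := WW (gd pt) vv Y

/-- All guards are bounded, or there is a least unbounded one. -/
theorem guard_cases (pt : ℕ → ℕ → List Bool → Bool) (Y : ℕ → Bool) :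
    (∀ k, ∃ b, ∀ s, gd pt k (pre Y s) ≤ b) ∨
    ∃ k, (∀ k' < k, ∃ b, ∀ s, gd pt k' (pre Y s) ≤ b) ∧ ∀ N, ∃ s, N ≤ gd pt k (pre Y s) := by
  classical
  by_cases h : ∀ k, ∃ b, ∀ s, gd pt k (pre Y s) ≤ b
  · exact Or.inl h
  · push Not at h
    right
    refine ⟨Nat.find h, fun k' hk' => ?_, fun N => ?_⟩
    · have := Nat.find_min h hk'
      push Not at this
      exact this
    · obtain ⟨s, hs⟩ := Nat.find_spec h N
      exact ⟨s, hs.le⟩

section

variable (hF : Fam pt Pn)

include hF

/-- The value of the operator in the case of an unbounded guard. -/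
theorem WF_eq {k : ℕ} {Y : ℕ → Bool} (hb : ∀ k' < k, ∃ b, ∀ s, gd pt k' (pre Y s) ≤ b)
    (hu : ∀ N, ∃ s, N ≤ gd pt k (pre Y s)) : ∃ Z, Exh (ki k) Y Z ∧
      TuringReducible (chi Z) (chi Y) ∧ TuringReducible (chi Y) (chi Z) ∧
      Good Pn (kn k) (kq k) Z ∧
      TuringReducible (chi (WF pt Y)) (chi (jn Y (EE (odn Z) 1))) ∧
      TuringReducible (chi (jn Y (EE (odn Z) 1))) (chi (WF pt Y)) := by
  obtain ⟨Z, h1, h2, h3, h4⟩ := exists_of_gd hF hu
  refine ⟨Z, h1, h2, h3, h4, ?_, ?_⟩
  · rw [← VV_vv h1]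
    exact WW_le (comp_gd hF) comp_vv gd_mono vv_mono hb hu
  · rw [← VV_vv h1]
    exact le_WW gd_mono vv_mono hb hu

theorem WF_post (Y : ℕ → Bool) : ¬ TuringReducible (chi (WF pt Y)) (chi Y) ∧
    ¬ TuringReducible (chi (JJ Y)) (chi (WF pt Y)) := by
  rcases guard_cases pt Y with hb | ⟨k, hb, hu⟩
  · refine ⟨not_WW_le hb, fun h => not_CC_le hb (TuringReducible.trans ?_ h)⟩
    obtain ⟨c, hc⟩ := exists_code_CC (comp_gd hF) comp_vv
    exact code_le_JJ (hc Y)
  · obtain ⟨Z, h1, h2, h3, h4, h5, h6⟩ := WF_eq hF hb hu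
    obtain ⟨h7, h8⟩ := not_reducible h4.2
    rw [jn_halves] at h7 h8
    constructor
    · intro h
      exact h7 (((right_le_jn _ _).trans h6).trans (h.trans h3))
    · intro h
      have h9 := exists_code_EE h1 0
      refine h8 ((h9.trans h).trans (h5.trans (jn_le ?_ (right_le_jn _ _))))
      exact h3.trans (left_le_jn _ _)

/-- The value of the operator at an oracle of the degree of a good oracle. -/
theorem WF_good {n q : ℕ} {Z0 Y : ℕ → Bool} (hg : Good Pn n q Z0)
    (h1 : TuringReducible (chi Z0) (chi Y)) (h2 : TuringReducible (chi Y) (chi Z0)) :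
    TuringReducible (chi (WF pt Y)) (chi (jn Z0 (EE (Pn n) 1))) ∧
    TuringReducible (chi (jn Z0 (EE (Pn n) 1))) (chi (WF pt Y)) := by
  obtain ⟨i, hi⟩ := turingReducible_iff.1 h1
  obtain ⟨j, hj⟩ := turingReducible_iff.1 h2
  let k0 := Nat.pair n (Nat.pair q (Nat.pair (encode i) (encode j)))
  have hk1 : kn k0 = n := by simp [kn, k0]
  have hk2 : kq k0 = q := by simp [kq, k0]
  have hk3 : ki k0 = i := by simp [ki, k0]
  have hk4 : kj k0 = j := by simp [kj, k0]
  have hu0 : ∀ N, ∃ s, N ≤ gd pt k0 (pre Y s) := by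
    refine gd_unbdd hF (Z := Z0) ?_ ?_ ?_
    · rw [hk3]; exact hi
    · rw [hk4]; exact hj
    · rw [hk1, hk2]; exact hg
  rcases guard_cases pt Y with hb | ⟨k, hb, hu⟩
  · obtain ⟨b, hb⟩ := hb k0
    obtain ⟨s, hs⟩ := hu0 (b + 1)
    have := hb s
    omega
  · obtain ⟨Z, h3, h4, h5, h6, h7, h8⟩ := WF_eq hF hb hu
    have hn : kn k = n := by
      obtain ⟨h9, -⟩ := not_reducible h6.2
      obtain ⟨h10, -⟩ := not_reducible hg.2
      rw [jn_halves] at h9 h10
      by_contra hne
      rcases hF.jump _ _ hne with hj | hj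
      · apply h9
        rw [h6.1]
        refine ((EE_le_JJ (Pn (kn k)) 1).trans hj).trans ?_
        rw [← hg.1]
        have h12 : TuringReducible (chi (odn Z0)) (chi Z0) := by
          conv_rhs => rw [← jn_halves Z0]
          exact right_le_jn _ _
        exact h12.trans (h1.trans h5)
      · apply h10
        rw [hg.1]
        refine ((EE_le_JJ (Pn n) 1).trans hj).trans ?_
        rw [← h6.1]
        have h12 : TuringReducible (chi (odn Z)) (chi Z) := by
          conv_rhs => rw [← jn_halves Z]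
          exact right_le_jn _ _
        exact h12.trans (h4.trans h2)
    have h9 : odn Z = Pn n := by rw [h6.1, hn]
    rw [h9] at h7 h8
    constructor
    · exact h7.trans (jn_le (h2.trans (left_le_jn _ _)) (right_le_jn _ _))
    · exact TuringReducible.trans (jn_le (h1.trans (left_le_jn _ _)) (right_le_jn _ _)) h8

/-- The main theorem in terms of sequences. -/
theorem main_ae : ∃ r : Code,
    (∀ X n, (∃ s, (r.eval (encode (n, pre X s))).Dom) ↔ WF pt X n = true) ∧
    ∀ n, ∀ᵐ X ∂coin, ∀ Y, TuringReducible (chi (jn X (Pn n))) (chi Y) →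
      TuringReducible (chi Y) (chi (jn X (Pn n))) →
      TuringReducible (chi (WF pt Y)) (chi (WF pt (jn X (Pn n)))) ∧
      TuringReducible (chi (WF pt (jn X (Pn n)))) (chi (WF pt Y)) := by
  obtain ⟨r, hr⟩ := exists_code_WW (comp_gd hF) comp_vv
  refine ⟨r, hr, fun n => ?_⟩
  filter_upwards [ae_good (Pn n)] with X hX Y h1 h2
  obtain ⟨q, hq⟩ := hX
  have hg : Good Pn n q (jn X (Pn n)) := by
    refine ⟨odn_jn _ _, ?_⟩
    rw [odn_jn, evn_jn]
    exact hq
  obtain ⟨h3, h4⟩ := WF_good hF hg h1 h2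
  obtain ⟨h5, h6⟩ := WF_good hF hg (TuringReducible.refl _) (TuringReducible.refl _)
  exact ⟨h3.trans h6, h5.trans h4⟩

end

/-- The iterates of the jump of the empty set. -/
theorem fam_zj : Fam jt zj where
  comp := comp_jt Computable.fst (Computable.fst.comp Computable.snd)
    (Computable.snd.comp Computable.snd)
  spec _ _ := jt_iff
  jump n m hnm := by
    rcases Nat.lt_or_gt_of_ne hnm with h | h
    · exact Or.inl (zj_le (m := n + 1) h)
    · exact Or.inr (zj_le (m := m + 1) h)

end Pool.Agent.AEI
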